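import Pool.Agent.ANO3.Cnt.Norm
import Pool.Agent.ANO3.Surf.Reg
import Pool.Agent.ANO5.A3.Grp.Orbits
import Pool.Agent.ANO5.A2.Dim.Lift

/-!
# ANO5, module Hyp: the stabiliser of a type and the lifts which fix the type

`EqvS F p q`: the points `p i` and `q i` are not separated by the trees.  `Stab F κ`: the deck
transformations which preserve the class of `κ : Fin r → ℍ`.  `IsFix F T₀ Φ T m g κ`: `T = g ∘ Φ^m`
is a lift of a power of the Anosov map `Φ`, and the corresponding lift `g ∘ T₀^[m]` of the model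
preserves the class of `κ`.
-/

set_option autoImplicit false

open Set Filter Topology
open scoped UpperHalfPlane MatrixGroups

namespace Pool.Agent.ANO5.Hyp

open Pool.Agent.ANO3 Pool.Agent.ANO3.Cnt
open Pool.Agent.ANO5.A1 Pool.Agent.ANO5.A2 Pool.Agent.ANO5.A3.Grp

variable [Fib] {r : ℕ} {S : Fin r → SurfaceMap} {F : ∀ i, Flat (S i)}

/-- The points are not separated by the trees. -/
def EqvS (F : ∀ i, Flat (S i)) (p q : Fin r → ℍ) : Prop := ∀ i, (F i).Eqv (p i) (q i)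

theorem EqvS.refl (p : Fin r → ℍ) : EqvS F p p := fun i =>
  ⟨(F i).isTree_u.self _, (F i).isTree_s.self _⟩

theorem EqvS.symm {p q : Fin r → ℍ} (h : EqvS F p q) : EqvS F q p := fun i =>
  ⟨((F i).isTree_u.symm _ _).trans (h i).1, ((F i).isTree_s.symm _ _).trans (h i).2⟩

theorem EqvS.trans {p q s : Fin r → ℍ} (h : EqvS F p q) (h' : EqvS F q s) : EqvS F p s := fun i =>
  ⟨((F i).isTree_u.congr_left (h i).1 _).trans (h' i).1,
    ((F i).isTree_s.congr_left (h i).2 _).trans (h' i).2⟩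

theorem eqvS_deck {a : Equiv.Perm (X r)} (ha : a ∈ Deck (surf S)) (p q : X r) :
    EqvS F (a p).1 (a q).1 ↔ EqvS F p.1 q.1 := by
  obtain ⟨γ, v, hγ, hv, h⟩ := ha
  refine forall_congr' fun i => ?_
  have e1 : ∀ x : X r, (a x).1 i = γ i • x.1 i := fun x =>
    congrFun (congrArg Prod.fst (h x)) i
  rw [e1, e1]
  unfold Flat.Eqv
  rw [Flat.du_smul _ (hγ i), Flat.ds_smul _ (hγ i)]

/-- The deck transformations which preserve the type `κ`. -/
def Stab (F : ∀ i, Flat (S i)) (κ : Fin r → ℍ) : Subgroup (Equiv.Perm (X r)) where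
  carrier := {a | a ∈ Deck (surf S) ∧ ∀ x : X r, EqvS F x.1 κ → EqvS F (a x).1 κ}
  mul_mem' := by
    rintro a b ⟨ha, ha'⟩ ⟨hb, hb'⟩
    exact ⟨mul_mem ha hb, fun x hx => ha' _ (hb' x hx)⟩
  one_mem' := ⟨one_mem _, fun _ hx => hx⟩
  inv_mem' := by
    rintro a ⟨ha, ha'⟩
    refine ⟨inv_mem ha, fun x hx => ?_⟩
    have h1 := (eqvS_deck (F := F) (inv_mem ha) (a x) x).2 ((ha' x hx).trans hx.symm)
    have h2 : (a⁻¹ : Equiv.Perm (X r)) (a x) = x := a.symm_apply_apply x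
    rw [h2] at h1
    exact h1.symm.trans hx

theorem stab_le (F : ∀ i, Flat (S i)) (κ : Fin r → ℍ) : Stab F κ ≤ Deck (surf S) :=
  fun _ ha => ha.1

/-- It is enough to check one point. -/
theorem mem_stab {κ : Fin r → ℍ} {a : Equiv.Perm (X r)} (ha : a ∈ Deck (surf S)) {x : X r}
    (hx : EqvS F x.1 κ) (hax : EqvS F (a x).1 κ) : a ∈ Stab F κ :=
  ⟨ha, fun y hy => ((eqvS_deck ha y x).2 (hy.trans hx.symm)).trans hax⟩

/-- The lifts which preserve a type. -/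
structure IsFix (F : ∀ i, Flat (S i)) (T₀ : X r → X r) (Φ T : X r ≃ₜ X r) (m : ℕ)
    (g : Equiv.Perm (X r)) (κ : Fin r → ℍ) : Prop where
  lift : IsAnosovLift (surf S) Φ
  pos : 0 < m
  deck : g ∈ Deck (surf S)
  cont : Continuous T₀
  cover : ∀ (x : X r) (i : Fin r), (T₀ x).1 i = (S i).f (x.1 i)
  hom : Homotopic (surf S) T₀ Φ
  eq : ∀ x, T x = g ((Φ ^ m) x)
  fix : ∀ x : X r, EqvS F x.1 κ → EqvS F (g (T₀^[m] x)).1 κ

variable {T₀ : X r → X r} {Φ T : X r ≃ₜ X r} {m : ℕ} {g : Equiv.Perm (X r)} {κ : Fin r → ℍ}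

theorem cover_iter (hc : ∀ (x : X r) (i : Fin r), (T₀ x).1 i = (S i).f (x.1 i)) (m : ℕ)
    (x : X r) (i : Fin r) : (T₀^[m] x).1 i = (S i).f^[m] (x.1 i) := by
  induction m generalizing x with
  | zero => rfl
  | succ m ih =>
    rw [Function.iterate_succ_apply, Function.iterate_succ_apply, ih, hc]

theorem eqvS_iter (hc : ∀ (x : X r) (i : Fin r), (T₀ x).1 i = (S i).f (x.1 i)) (m : ℕ)
    (p q : X r) : EqvS F (T₀^[m] p).1 (T₀^[m] q).1 ↔ EqvS F p.1 q.1 := by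
  refine forall_congr' fun i => ?_
  obtain ⟨H, hH, hHz⟩ := exists_liftPow (S := S i) m (S i).Γ.one_mem
  have e1 : ∀ z : ℍ, (S i).f^[m] z = H z := fun z => by rw [hHz, one_smul]
  rw [cover_iter hc, cover_iter hc, e1, e1]
  unfold Flat.Eqv
  rw [Flat.du_lift_zero _ hH, Flat.ds_lift_zero _ hH]

theorem pow_eq_iterate (Φ : X r ≃ₜ X r) (m : ℕ) : ((Φ ^ m : X r ≃ₜ X r) : X r → X r) = Φ^[m] := by
  funext p
  exact A2.Dim.pow_apply Φ m p

/-- The model and the Anosov map act in the same way on the deck group. -/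
theorem IsFix.conj (h : IsFix F T₀ Φ T m g κ) {a : Equiv.Perm (X r)} (ha : a ∈ Deck (surf S)) :
    ∃ a' ∈ Deck (surf S), (∀ p, g (T₀^[m] (a p)) = a' (g (T₀^[m] p))) ∧
      ∀ p, T (a p) = a' (T p) := by
  obtain ⟨b, hb, h1, h2⟩ := homotopic_iterate h.hom m a ha
  obtain ⟨a₁, ha₁, he⟩ := exists_deck hb
  have hi : ∀ p, (g⁻¹ : Equiv.Perm (X r)) (g p) = p := g.symm_apply_apply
  refine ⟨g * a₁ * g⁻¹, mul_mem (mul_mem h.deck ha₁) (inv_mem h.deck), fun p => ?_, fun p => ?_⟩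
  · have h3 : T₀^[m] (a p) = b (T₀^[m] p) := congrFun h1 p
    rw [Equiv.Perm.mul_apply, Equiv.Perm.mul_apply, hi, he, h3]
  · have h3 : Φ^[m] (a p) = b (Φ^[m] p) := congrFun h2 p
    rw [h.eq, h.eq, Equiv.Perm.mul_apply, Equiv.Perm.mul_apply, hi, he, pow_eq_iterate, h3]

theorem IsFix.conj_mem (h : IsFix F T₀ Φ T m g κ) {a a' : Equiv.Perm (X r)} (ha : a ∈ Stab F κ)
    (ha' : a' ∈ Deck (surf S)) (h1 : ∀ p, g (T₀^[m] (a p)) = a' (g (T₀^[m] p))) :
    a' ∈ Stab F κ := by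
  have hx : EqvS F (((κ, Classical.arbitrary Fib.W) : X r)).1 κ := EqvS.refl κ
  refine mem_stab ha' (h.fix _ hx) ?_
  rw [← h1]
  exact h.fix _ (ha.2 _ hx)

theorem IsFix.fwd (h : IsFix F T₀ Φ T m g κ) {a : Equiv.Perm (X r)} (ha : a ∈ Stab F κ) :
    ∃ a' ∈ Stab F κ, (∀ p, g (T₀^[m] (a p)) = a' (g (T₀^[m] p))) ∧ ∀ p, T (a p) = a' (T p) := by
  obtain ⟨a', ha', h1, h2⟩ := h.conj ha.1
  exact ⟨a', h.conj_mem ha ha' h1, h1, h2⟩

theorem IsFix.bwd (h : IsFix F T₀ Φ T m g κ) {a' : Equiv.Perm (X r)} (ha' : a' ∈ Stab F κ) :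
    ∃ a ∈ Stab F κ, (∀ p, g (T₀^[m] (a p)) = a' (g (T₀^[m] p))) ∧ ∀ p, T (a p) = a' (T p) := by
  have hb : g⁻¹ * a' * g ∈ Deck (surf S) := mul_mem (mul_mem (inv_mem h.deck) ha'.1) h.deck
  have hgb : ∀ q, g ((g⁻¹ * a' * g : Equiv.Perm (X r)) q) = a' (g q) := by
    intro q
    rw [Equiv.Perm.mul_apply, Equiv.Perm.mul_apply]
    exact g.apply_symm_apply _
  obtain ⟨c, hc, h1⟩ := A2.Dim.anosov_conj' h.lift m (g' := (g⁻¹ * a' * g : Equiv.Perm (X r))) hb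
  obtain ⟨a, ha, he⟩ := exists_deck hc
  have h2 : ∀ p, T (a p) = a' (T p) := fun p => by
    rw [h.eq, h.eq, he, ← hgb]
    exact congrArg g (congrFun h1 p)
  obtain ⟨d, hd, h3, h4⟩ := h.conj ha
  have h5 : d = a' := by
    refine eq_of_apply_eq (S := surf S) (p := T (Classical.arbitrary (X r))) hd ha'.1 ?_
    rw [← h4, ← h2]
  rw [h5] at h3
  refine ⟨a, ⟨ha, fun x hx => ?_⟩, h3, h2⟩
  have h6 : EqvS F (g (T₀^[m] (a x))).1 (g (T₀^[m] x)).1 := by
    rw [h3]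
    exact (ha'.2 _ (h.fix x hx)).trans (h.fix x hx).symm
  rw [eqvS_deck h.deck, eqvS_iter h.cover] at h6
  exact h6.trans hx

theorem IsFix.norm (h : IsFix F T₀ Φ T m g κ) : Norm (Stab F κ) T := by
  refine ⟨fun a ha x y => (A2.Dyn.IsDeck.isometry ha.1).dist_eq x y, fun a ha => ?_,
    fun a' ha' => ?_⟩
  · obtain ⟨a', h1, -, h2⟩ := h.fwd ha
    exact ⟨a', h1, h2⟩
  · obtain ⟨a, h1, -, h2⟩ := h.bwd ha'
    exact ⟨a, h1, fun x => by rw [Homeomorph.symm_apply_eq, h2, T.apply_symm_apply]⟩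

/-- A lift of an iterate of the model acts on the surfaces by lifts. -/
theorem exists_lift (hc : ∀ (x : X r) (i : Fin r), (T₀ x).1 i = (S i).f (x.1 i))
    {a : Equiv.Perm (X r)} (ha : a ∈ Deck (surf S)) (j : ℕ) :
    ∃ H : Fin r → ℍ ≃ₜ ℍ, (∀ i, IsLiftPow (S i) j (H i)) ∧
      ∀ p i, (a (T₀^[j] p)).1 i = H i (p.1 i) := by
  obtain ⟨γ, v, hγ, -, ha'⟩ := ha
  choose H h1 h2 using fun i => exists_liftPow (S := S i) j (hγ i)
  refine ⟨H, h1, fun p i => ?_⟩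
  rw [h2, ← cover_iter hc]
  exact congrFun (congrArg Prod.fst (ha' _)) i

/-- Powers: `T^n = g' ∘ Φ^(m n)` and the model. -/
theorem IsFix.pow (h : IsFix F T₀ Φ T m g κ) {n : ℕ} (hn : 0 < n) :
    ∃ g' : Equiv.Perm (X r), IsFix F T₀ Φ (T ^ n) (m * n) g' κ ∧
      ∀ x, (g ∘ T₀^[m])^[n] x = g' (T₀^[m * n] x) := by
  have hh : Homotopic (surf S) T₀^[m] Φ^[m] := homotopic_iterate h.hom m
  obtain ⟨g', hg', e1, e2⟩ := exists_iterate hh h.deck n
  have e3 : ∀ x, (g ∘ T₀^[m])^[n] x = g' (T₀^[m * n] x) := fun x => by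
    rw [e1, Function.iterate_mul]
  refine ⟨g', ⟨h.lift, Nat.mul_pos h.pos hn, hg', h.cont, h.cover, h.hom, fun x => ?_,
    fun x hx => ?_⟩, e3⟩
  · have e4 : (T : X r → X r) = g ∘ Φ^[m] := funext fun x => by
      rw [h.eq, pow_eq_iterate]
      rfl
    rw [pow_eq_iterate, pow_eq_iterate, e4, e2, Function.iterate_mul]
  · rw [← e3]
    have key : ∀ n : ℕ, EqvS F ((g ∘ T₀^[m])^[n] x).1 κ := by
      intro n
      induction n with
      | zero => exact hx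
      | succ n ih =>
        rw [Function.iterate_succ_apply']
        exact h.fix _ ih
    exact key n

/-- A fixed point modulo the group of the type has the type. -/
theorem IsFix.type_of_fix (h : IsFix F T₀ Φ T m g κ) {a : Equiv.Perm (X r)} (ha : a ∈ Stab F κ)
    {z : X r} (hz : a (g (T₀^[m] z)) = z) : EqvS F z.1 κ := by
  have hag : a * g ∈ Deck (surf S) := mul_mem ha.1 h.deck
  obtain ⟨H, h1, h2⟩ := exists_lift h.cover hag m
  have hx : EqvS F (((κ, Classical.arbitrary Fib.W) : X r)).1 κ := EqvS.refl κ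
  have h3 := ha.2 _ (h.fix _ hx)
  intro i
  have hz1 : H i (z.1 i) = z.1 i := by
    rw [← h2]
    exact congrArg (fun x : X r => x.1 i) hz
  have hκ : (F i).Eqv (H i (κ i)) (κ i) := by
    have h4 := h3 i
    have h5 : (a (g (T₀^[m] ((κ, Classical.arbitrary Fib.W) : X r)))).1 i = H i (κ i) :=
      h2 _ i
    rwa [h5] at h4
  have hl : 1 < (F i).l ^ m := one_lt_pow₀ (F i).one_lt h.pos.ne'
  have hu := ((F i).du_lift (h1 i) (κ i) (z.1 i)).1
  have hs := ((F i).ds_lift (h1 i) (κ i) (z.1 i)).1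
  rw [hz1] at hu hs
  have hu0 := (F i).du_nonneg (κ i) (z.1 i)
  have hs0 := (F i).ds_nonneg (κ i) (z.1 i)
  have tu := (F i).isTree_u
  have ts := (F i).isTree_s
  rw [tu.congr_left hκ.1] at hu
  rw [ts.congr_left hκ.2] at hs
  constructor
  · rw [tu.symm]
    nlinarith
  · rw [ts.symm]
    nlinarith

theorem IsFix.periodic_of_fix (h : IsFix F T₀ Φ T m g κ) {a : Equiv.Perm (X r)}
    (ha : a ∈ Deck (surf S)) {z : X r} (hz : a (g (T₀^[m] z)) = z) (i : Fin r) :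
    IsPeriodic (S i) (z.1 i) := by
  obtain ⟨H, h1, h2⟩ := exists_lift h.cover (mul_mem ha h.deck) m
  refine isPeriodic_iff.2 ⟨m, H i, h.pos, h1 i, ?_⟩
  rw [← h2]
  exact congrArg (fun x : X r => x.1 i) hz

end Pool.Agent.ANO5.Hyp
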