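import Pool.Agent.ANO5.Tor.Defs
import Pool.Agent.ANO5.A3.Grp.Basic
import Pool.Agent.ANO5.Lin.Hyp

/-!
# ANO5, module Hyp: the maps `(z, y, t) ↦ (h_i z_i, η y, A t + σ (z, y))`
-/

set_option autoImplicit false

open Set Filter Topology
open scoped UpperHalfPlane MatrixGroups

namespace Pool.Agent.ANO5.Hyp

open Pool.Agent.ANO5.A1 Pool.Agent.ANO5.A2 Pool.Agent.ANO5.A3.Grp Pool.Agent.ANO5.Lin

variable [TFib] {r : ℕ}

/-- The map `(z, y, t) ↦ (h_i z_i, η y, A t + σ (z, y))`. -/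
noncomputable def sk (h : Fin r → ℍ → ℍ) (η : TFib.base.W → TFib.base.W)
    (A : Matrix (Fin TFib.k) (Fin TFib.k) ℤ)
    (σ : (Fin r → ℍ) × TFib.base.W → (Fin TFib.k → ℝ)) (x : X r) : X r :=
  (fun i => h i (x.1 i), (η x.2.1, lin A x.2.2 + σ (x.1, x.2.1)))

variable {h h' : Fin r → ℍ → ℍ} {η η' : TFib.base.W → TFib.base.W}
  {A A' : Matrix (Fin TFib.k) (Fin TFib.k) ℤ}
  {σ σ' : (Fin r → ℍ) × TFib.base.W → (Fin TFib.k → ℝ)}

theorem continuous_sk (hh : ∀ i, Continuous (h i)) (hη : Continuous η) (hσ : Continuous σ) :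
    Continuous (sk h η A σ) := by
  unfold sk
  refine Continuous.prodMk (continuous_pi fun i => (hh i).comp
    ((continuous_apply i).comp continuous_fst)) (Continuous.prodMk
    (hη.comp (continuous_fst.comp continuous_snd)) ?_)
  exact ((lin A).continuous.comp (continuous_snd.comp continuous_snd)).add
    (hσ.comp (continuous_fst.prodMk (continuous_fst.comp continuous_snd)))

theorem sk_comp : sk h' η' A' σ' ∘ sk h η A σ = sk (fun i => h' i ∘ h i) (η' ∘ η) (A' * A)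
    (fun q => lin A' (σ q) + σ' (fun i => h i (q.1 i), η q.2)) := by
  funext x
  refine Prod.ext rfl (Prod.ext rfl ?_)
  show lin A' (lin A x.2.2 + σ (x.1, x.2.1)) + σ' (fun i => h i (x.1 i), η x.2.1) =
    lin (A' * A) x.2.2 + (lin A' (σ (x.1, x.2.1)) + σ' (fun i => h i (x.1 i), η x.2.1))
  rw [lin_mul, map_add, add_assoc]
  rfl

theorem skew_eq (S : Fin r → SurfaceMap) (A : Matrix (Fin TFib.k) (Fin TFib.k) ℤ)
    (τ : Tor.B r → Fin TFib.k → ℝ) : Tor.skew S A τ = sk (fun i => (S i).f) id A τ := by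
  funext x
  refine Prod.ext rfl (Prod.ext rfl ?_)
  show Tor.lin A x.2.2 + τ (x.1, x.2.1) = lin A x.2.2 + τ (x.1, x.2.1)
  rw [lin_apply]
  rfl

/-- The iterates. -/
theorem exists_iterate_sk (hh : ∀ i, Continuous (h i)) (hη : Continuous η) (hσ : Continuous σ)
    (n : ℕ) : ∃ σ' : (Fin r → ℍ) × TFib.base.W → (Fin TFib.k → ℝ), Continuous σ' ∧
      (sk h η A σ)^[n] = sk (fun i => (h i)^[n]) η^[n] (A ^ n) σ' := by
  induction n with
  | zero =>
    refine ⟨fun _ => 0, continuous_const, funext fun x => ?_⟩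
    refine Prod.ext rfl (Prod.ext rfl ?_)
    show x.2.2 = lin (A ^ 0) x.2.2 + 0
    rw [pow_zero, lin_one, add_zero]
    rfl
  | succ n ih =>
    obtain ⟨σ', hσ', ih⟩ := ih
    refine ⟨fun q => lin (A ^ n) (σ q) + σ' (fun i => h i (q.1 i), η q.2), ?_, ?_⟩
    · refine ((lin (A ^ n)).continuous.comp hσ).add (hσ'.comp ?_)
      exact (continuous_pi fun i => (hh i).comp ((continuous_apply i).comp continuous_fst)).prodMk
        (hη.comp continuous_snd)
    · rw [Function.iterate_succ, ih, sk_comp, pow_succ]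
      rfl

/-- The deck transformation with the components `γ`, `δ`, `v`. -/
noncomputable def dkT (γ : Fin r → SL(2, ℝ)) (δ : Equiv.Perm TFib.base.W)
    (v : Fin TFib.k → ℤ) (x : X r) : X r :=
  (fun i => γ i • x.1 i, (δ x.2.1, fun j => x.2.2 j + v j))

variable {S : Fin r → ClosedSurface}

theorem isDeck_iff {g : X r → X r} : IsDeck S g ↔ ∃ (γ : Fin r → SL(2, ℝ))
    (δ : Equiv.Perm TFib.base.W) (v : Fin TFib.k → ℤ), (∀ i, γ i ∈ (S i).Γ) ∧ δ ∈ TFib.base.Γ ∧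
      g = dkT γ δ v := by
  constructor
  · rintro ⟨γ, e, hγ, he, hg⟩
    obtain ⟨δ, hδ, v, h⟩ := Tor.mem_Γ.1 he
    refine ⟨γ, δ, v, hγ, hδ, funext fun x => ?_⟩
    rw [hg]
    exact Prod.ext rfl (h x.2)
  · rintro ⟨γ, δ, v, hγ, hδ, rfl⟩
    refine ⟨γ, ⟨fun p => (δ p.1, fun j => p.2 j + v j), fun p => (δ.symm p.1, fun j => p.2 j - v j),
      fun p => ?_, fun p => ?_⟩, hγ, ?_, fun x => rfl⟩
    · exact Prod.ext (δ.symm_apply_apply _) (funext fun j => add_sub_cancel_right _ _)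
    · exact Prod.ext (δ.apply_symm_apply _) (funext fun j => sub_add_cancel _ _)
    · exact Tor.mem_Γ.2 ⟨δ, hδ, v, fun p => rfl⟩

theorem exists_dkT {γ : Fin r → SL(2, ℝ)} (hγ : ∀ i, γ i ∈ (S i).Γ) {δ : Equiv.Perm TFib.base.W}
    (hδ : δ ∈ TFib.base.Γ) (v : Fin TFib.k → ℤ) : ∃ g ∈ Deck S, ∀ x, g x = dkT γ δ v x :=
  exists_deck (isDeck_iff.2 ⟨γ, δ, v, hγ, hδ, rfl⟩)

theorem dkT_sk (γ : Fin r → SL(2, ℝ)) (δ : Equiv.Perm TFib.base.W) (v : Fin TFib.k → ℤ) :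
    dkT γ δ v ∘ sk h η A σ = sk (fun i z => γ i • h i z) (δ ∘ η) A
      (fun q => σ q + fun j => (v j : ℝ)) := by
  funext x
  refine Prod.ext rfl (Prod.ext rfl ?_)
  funext j
  show (lin A x.2.2 + σ (x.1, x.2.1)) j + (v j : ℝ) =
    (lin A x.2.2 + (σ (x.1, x.2.1) + fun j => (v j : ℝ))) j
  simp only [Pi.add_apply]
  ring

theorem dkT_inj {γ γ' : Fin r → SL(2, ℝ)} {δ δ' : Equiv.Perm TFib.base.W}
    {v v' : Fin TFib.k → ℤ} (e : (dkT γ δ v : X r → X r) = dkT γ' δ' v') : δ = δ' ∧ v = v' := by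
  constructor
  · refine Equiv.ext fun y => ?_
    exact congrArg (fun x : X r => x.2.1)
      (congrFun e ((fun _ => UpperHalfPlane.I), (y, fun _ => 0)))
  · funext j
    obtain ⟨y⟩ : Nonempty TFib.base.W := ⟨TFib.base.crd.symm 0⟩
    have h1 := congrFun (congrArg (fun x : X r => x.2.2)
      (congrFun e ((fun _ => UpperHalfPlane.I), (y, fun _ => 0)))) j
    have h2 : (0 : ℝ) + (v j : ℝ) = 0 + (v' j : ℝ) := h1
    rw [zero_add, zero_add] at h2
    exact_mod_cast h2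

/-- Replace `η` and `σ` by maps with the same behaviour under the deck group. -/
theorem homotopic_sk {G : X r → X r} (hom : Homotopic S (sk h η A σ) G)
    (hη : ∀ δ ∈ TFib.base.Γ, ∀ δ' ∈ TFib.base.Γ, (∀ y, η (δ y) = δ' (η y)) →
      ∀ y, η' (δ y) = δ' (η' y))
    (hσ : ∀ γ : Fin r → SL(2, ℝ), (∀ i, γ i ∈ (S i).Γ) → ∀ δ ∈ TFib.base.Γ, ∀ (z : Fin r → ℍ) y,
      σ' (fun i => γ i • z i, δ y) - σ' (z, y) = σ (fun i => γ i • z i, δ y) - σ (z, y)) :
    Homotopic S (sk h η' A σ') G := by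
  intro g hg
  obtain ⟨g', hg', h1, h2⟩ := hom g hg
  refine ⟨g', hg', ?_, h2⟩
  obtain ⟨γ, δ, v, hγ, hδ, rfl⟩ := isDeck_iff.1 hg
  obtain ⟨γ', δ', v', hγ', hδ', rfl⟩ := isDeck_iff.1 hg'
  have h3 : ∀ x : X r, sk h η A σ (dkT γ δ v x) = dkT γ' δ' v' (sk h η A σ x) :=
    fun x => congrFun h1 x
  funext x
  refine Prod.ext ?_ (Prod.ext ?_ ?_)
  · have h8 := congrArg Prod.fst (h3 x)
    exact h8
  · refine hη δ hδ δ' hδ' (fun y => ?_) x.2.1
    have h8 := congrArg (fun x : X r => x.2.1) (h3 (x.1, (y, x.2.2)))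
    exact h8
  · have h4 : lin A (fun j => x.2.2 j + (v j : ℝ)) + σ (fun i => γ i • x.1 i, δ x.2.1) =
      fun j => (lin A x.2.2 + σ (x.1, x.2.1)) j + (v' j : ℝ) :=
      congrArg (fun x : X r => x.2.2) (h3 x)
    show lin A (fun j => x.2.2 j + (v j : ℝ)) + σ' (fun i => γ i • x.1 i, δ x.2.1) =
      fun j => (lin A x.2.2 + σ' (x.1, x.2.1)) j + (v' j : ℝ)
    have h5 := hσ γ hγ δ hδ x.1 x.2.1
    funext j
    have h6 := congrFun h4 j
    have h7 := congrFun h5 j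
    simp only [Pi.add_apply, Pi.sub_apply] at h6 h7 ⊢
    linarith

end Pool.Agent.ANO5.Hyp
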