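import Pool.Agent.ANO5.A3.Sys.CptSet
import Pool.Agent.ANO5.Conc.Rel
import Pool.Agent.ANO5.Hyp.Stab

/-!
# ANO5, module Hyp: the periodic points of one type are compact modulo the stabiliser
# (package HYP-CPT)

`hs : A3.Setting S T₀ Φ`, `h : IsFix F T₀ Φ T m g κ`, all `κ i` are regular or not in `U_i`.  There
is a compact set `K` such that for all `n > 0` each `x ∈ perN (Stab F κ) T n` is mapped into `K` by an
element of `Stab F κ`.

PROOF.  Let `a ∈ Stab F κ`, `a (T^n x) = x`, `n > 0`.  With `IsFix.pow` and the deck transformation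
`a * g'` the map `T' = a ∘ T^n` (a homeomorphism) satisfies `IsLift S Φ (m * n) T' H`, where
`H i z = γ i • f^[m n] z` (`IsLift`, components of `a * g'`; `T' = (a * g') ∘ Φ^(m n)`), and
`Eqv (H i (κ i)) (κ i)` (`h'.fix`, `a ∈ Stab`).  `DU F Φ i (inl (κ i)) (inr x)`: by `DU_lift`
(`Sys/Facts.lean`) `l ^ (m n) * DU i (inl (κ i)) (inr x) ≤ DU i (inl (H i (κ i))) (inr (T' x)) =
DU i (inl (κ i)) (inr x)` (`T' x = x`, and `DU i (inl (H i (κ i))) .. = DU i (inl (κ i)) ..` since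
`DU i (inl (H i (κ i))) (inl (κ i)) = du .. = 0`, `DU_inl`, the tree axioms `IsTree.congr_left`), so it
is `0`; `DS` in the same way with `DS_lift`.  So `x ∈ NN F Φ κ κ`.
By `cocompact_NN_box` (with a compact `L ⊆ W` from `Fib.cocompact`: first choose `δ ∈ Fib.Γ` with
`δ x.2 ∈ L`) there are `γ`, `δ` with `dk γ δ x` in a compact set and `Eqv (κ i) (γ i • κ i)` for
all `i`, so `dk γ δ ∈ Stab F κ` (`mem_stab`).
-/

set_option autoImplicit false

open Set Filter Topology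
open scoped UpperHalfPlane MatrixGroups

namespace Pool.Agent.ANO5.Hyp

open Pool.Agent.ANO3
open Pool.Agent.ANO5.A1 Pool.Agent.ANO5.A2 Pool.Agent.ANO5.A3.Grp

variable [Fib] {r : ℕ} {S : Fin r → SurfaceMap} {F : ∀ i, Flat (S i)}

theorem perN_cocompact {T₀ Φ T : X r ≃ₜ X r} (hs : A3.Setting S T₀ Φ) {m : ℕ}
    {g : Equiv.Perm (X r)} {κ : Fin r → ℍ} (hκ : A3.IsType F κ)
    (h : IsFix F T₀ Φ T m g κ) :
    ∃ K : Set (X r), IsCompact K ∧ ∀ n : ℕ, 0 < n → ∀ x ∈ Conc.perN (Stab F κ) T n,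
      ∃ a ∈ Stab F κ, a x ∈ K := by
  obtain ⟨ε, hε, hbox⟩ := A3.cocompact_NN_box (F := F) hs (w' := κ) (w'' := κ)
    (fun i => (hκ i).imp id fun hi => ⟨rfl, hi⟩)
  obtain ⟨L, hL, hLc⟩ := Fib.cocompact
  obtain ⟨K, hK, hx⟩ := hbox L hL
  refine ⟨K, hK, fun n hn x hxn => ?_⟩
  obtain ⟨a, ha, hax⟩ := hxn
  obtain ⟨g', h', -⟩ := h.pow hn
  have hag : a * g' ∈ Deck (surf S) := mul_mem ha.1 h'.deck
  obtain ⟨γ, δ, hγ, hδ, hd⟩ := hag
  -- the lift
  obtain ⟨γa, δa, hγa, hδa, hda⟩ := ha.1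
  obtain ⟨ga, hga⟩ := A3.exists_dk (r := r) γa hδa
  have hga' : ∀ p : X r, ga p = a p := fun p => by
    rw [hga]
    exact (hda p).symm
  obtain ⟨T', hT'⟩ : ∃ T' : X r ≃ₜ X r, ∀ p, T' p = a ((T ^ n) p) :=
    ⟨(T ^ n).trans ga, fun p => by rw [Homeomorph.trans_apply, hga']⟩
  choose H hH1 hH2 using fun i => exists_liftPow (S := S i) (m * n) (hγ i)
  have hlift : A3.IsLift S Φ (m * n) T' H := by
    refine ⟨γ, δ, hγ, hδ, fun p => ?_, hH2⟩
    rw [hT', h'.eq, pow_eq_iterate]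
    exact hd _
  have hfix : T' x = x := by rw [hT', hax]
  -- the points `H i (κ i)` and `κ i` are equivalent
  have hEq : ∀ i, (F i).Eqv (H i (κ i)) (κ i) := by
    intro i
    have h1 := ha.2 _ (h'.fix ((κ, Classical.arbitrary Fib.W) : X r) (EqvS.refl κ)) i
    have h2 : (a (g' (T₀^[m * n] ((κ, Classical.arbitrary Fib.W) : X r)))).1 i = H i (κ i) := by
      have h3 := hd (T₀^[m * n] ((κ, Classical.arbitrary Fib.W) : X r))
      have h4 : (a (g' (T₀^[m * n] ((κ, Classical.arbitrary Fib.W) : X r)))).1 i =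
          γ i • (T₀^[m * n] ((κ, Classical.arbitrary Fib.W) : X r)).1 i :=
        congrFun (congrArg Prod.fst h3) i
      rw [h4, cover_iter h.cover, hH2]
    rwa [h2] at h1
  have hl : ∀ i, 1 < (F i).l ^ (m * n) := fun i => one_lt_pow₀ (F i).one_lt h'.pos.ne'
  have hDU : ∀ i, A3.DU F Φ i (Sum.inl (κ i)) (Sum.inr x) = 0 := by
    intro i
    have tr := A3.isTree_DU (F := F) hs i
    have h1 := (A3.DU_lift (F := F) hs hlift i (Sum.inl (κ i)) (Sum.inr x)).1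
    have e1 : st (H i) T' (Sum.inl (κ i)) = (Sum.inl (H i (κ i)) : ℍ ⊕ X r) := rfl
    have e2 : st (H i) T' (Sum.inr x) = (Sum.inr x : ℍ ⊕ X r) := congrArg Sum.inr hfix
    have e3 : A3.DU F Φ i (Sum.inl (H i (κ i))) (Sum.inl (κ i)) = 0 := by
      rw [A3.DU_inl]
      exact (hEq i).1
    rw [e1, e2, tr.congr_left e3] at h1
    have h2 := tr.nonneg (Sum.inl (κ i)) (Sum.inr x)
    nlinarith [hl i]
  have hDS : ∀ i, A3.DS F Φ i (Sum.inl (κ i)) (Sum.inr x) = 0 := by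
    intro i
    have tr := A3.isTree_DS (F := F) hs i
    have h1 := (A3.DS_lift (F := F) hs hlift i (Sum.inl (κ i)) (Sum.inr x)).1
    have e1 : st (H i) T' (Sum.inl (κ i)) = (Sum.inl (H i (κ i)) : ℍ ⊕ X r) := rfl
    have e2 : st (H i) T' (Sum.inr x) = (Sum.inr x : ℍ ⊕ X r) := congrArg Sum.inr hfix
    have e3 : A3.DS F Φ i (Sum.inl (H i (κ i))) (Sum.inl (κ i)) = 0 := by
      rw [A3.DS_inl]
      exact (hEq i).2
    rw [e1, e2, tr.congr_left e3] at h1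
    have h2 := tr.nonneg (Sum.inl (κ i)) (Sum.inr x)
    nlinarith [hl i]
  obtain ⟨γ₂, hγ₂, -, h3, -, h5⟩ := hx x fun i => ⟨by rw [hDU i]; exact hε.le,
    by rw [hDS i]; exact hε.le⟩
  obtain ⟨δ₂, hδ₂, hδL⟩ := hLc x.2
  obtain ⟨b, hb, hbe⟩ := exists_deck (A3.isDeck_dk (S := S) hγ₂ hδ₂)
  refine ⟨b, mem_stab hb (x := ((κ, Classical.arbitrary Fib.W) : X r)) (EqvS.refl κ) ?_, ?_⟩
  · intro i
    rw [hbe]
    have h6 := h3 i
    exact ⟨((F i).isTree_u.symm _ _).trans h6.1, ((F i).isTree_s.symm _ _).trans h6.2⟩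
  · rw [hbe]
    exact h5 δ₂ hδL

end Pool.Agent.ANO5.Hyp
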