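import Pool.Agent.ANO5.Hyp.Lat
import Pool.Agent.ANO5.Hyp.Skew
import Pool.Agent.ANO5.Hyp.Stab
import Pool.Agent.ANO5.Conc.Rel
import Pool.Agent.ANO5.A3.Grp.Index

/-!
# ANO5, module Hyp: the lower bound for the number of periodic points (package HYP-LOWER)

`exists_fix`: if `g (F p) = p` for a power `F = Φ^m` of the Anosov map then for each `v ∈ ℤ^k` the
map `a_v ∘ g ∘ F`, `a_v = dkT 1 1 v`, has a fixed point.  PROOF.  `a_v` commutes with all deck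
transformations (`Hyp.isDeck_iff`).  Suppose that `a_v (g (F x)) ≠ x` for all `x`.  Let
`G₀ = a_v ∘ F` (continuous).  `Homotopic S G₀ F`: for a deck transformation `b` there is `b'` with
`F ∘ b = b' ∘ F` (`hA.2.2.1` iterated; `normal_of_homotopic`, `homotopic_iterate` for
`Homotopic S Φ Φ`), and `G₀ ∘ b = a_v ∘ b' ∘ F = b' ∘ G₀`.  `g (G₀ x) = a_v (g (F x)) ≠ x` for all
`x`; `A3.Grp.no_fix` gives `g (F p) ≠ p`, a contradiction.

`lower`.  `T^n = g' ∘ Φ^(m n)` with `g' ∈ Deck` (induction, or `exists_iterate` for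
`Homotopic S Φ^[m] Φ^[m]`), `T^n p = p`.  By `exists_fix` there is for each `v` a point `x v` with
`a_v (T^n (x v)) = x v`, so `x v ∈ perN D T n` (`a_v ∈ D` by `hZ`).  Let `f v` be the orbit of `x v`
under `D`.  Suppose `f v = f v'`: there is `a ∈ D` with `a (x v) = x v'`.  By `Norm.zpow` (or
`hN.fwd` iterated) there is `a' ∈ D` with `T^n (a y) = a' (T^n y)` for all `y`, and
`ψ a' = lin (B ^ n) (ψ a)` (induction on `n` with `ψ_T`: `T^(n+1) a = T^n a₁ T`).  Then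
`a_v' (a' (T^n (x v))) = a_v' (T^n (a (x v))) = a_v' (T^n (x v')) = x v' = a (x v) =
a (a_v (T^n (x v)))`, so `a_v' * a' = a * a_v` (`eq_of_apply_eq`), and by additivity
`v' + lin (B ^ n) (ψ a) = ψ a + v`, i.e. `v' - v = ψ a - lin (B ^ n) (ψ a)`.  With `ψ_rat`,
`q * ψ a = w`: `q • (v' - v) = (1 - B ^ n) *ᵥ w` (over `ℝ`, hence over `ℤ`; `lin_apply` or
`lin_int`).  Now `le_of_fibers` with `C = 1 - B ^ n`, `δ = q`; the range of `f` is contained in the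
set of the orbits.
-/

set_option autoImplicit false

open Set Filter Topology
open scoped UpperHalfPlane MatrixGroups

namespace Pool.Agent.ANO5.Hyp

open Pool.Agent.ANO3.Cnt
open Pool.Agent.ANO5.A1 Pool.Agent.ANO5.A2 Pool.Agent.ANO5.A3.Grp Pool.Agent.ANO5.Lin

variable [TFib] {r : ℕ} {S : Fin r → ClosedSurface}

private theorem tr_Lower (S : Fin r → ClosedSurface) (v : Fin TFib.k → ℤ) :
    ∃ a ∈ Deck S, ∀ x, a x = dkT (fun _ => 1) 1 v x :=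
  exists_dkT (fun i => (S i).Γ.one_mem) (TFib.base.Γ.one_mem) v

private theorem comm_Lower {b : X r → X r} (hb : IsDeck S b) (v : Fin TFib.k → ℤ) (x : X r) :
    dkT (fun _ => 1) 1 v (b x) = b (dkT (fun _ => 1) 1 v x) := by
  obtain ⟨γ, δ, w, -, -, rfl⟩ := isDeck_iff.1 hb
  refine Prod.ext (funext fun i => ?_) (Prod.ext rfl (funext fun j => ?_))
  · show (1 : SL(2, ℝ)) • (γ i • x.1 i) = γ i • ((1 : SL(2, ℝ)) • x.1 i)
    rw [one_smul, one_smul]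
  · show x.2.2 j + (w j : ℝ) + (v j : ℝ) = x.2.2 j + (v j : ℝ) + (w j : ℝ)
    ring

private theorem self_Lower {Φ : X r ≃ₜ X r} (hA : IsAnosovLift S Φ) : Homotopic S Φ Φ := by
  intro b hb
  obtain ⟨b', h1, h2⟩ := hA.2.2.1 b hb
  exact ⟨b', h1, h2, h2⟩

theorem exists_fix {Φ : X r ≃ₜ X r} (hA : IsAnosovLift S Φ) {m : ℕ} (hm : 0 < m)
    {g : Equiv.Perm (X r)} (hg : g ∈ Deck S) {p : X r} (hp : g ((Φ ^ m : X r ≃ₜ X r) p) = p)
    (v : Fin TFib.k → ℤ) :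
    ∃ x : X r, dkT (fun _ => 1) 1 v (g ((Φ ^ m : X r ≃ₜ X r) x)) = x := by
  by_contra hcon
  push Not at hcon
  obtain ⟨a, ha, hax⟩ := tr_Lower S v
  have hom : Homotopic S (a ∘ (Φ ^ m : X r ≃ₜ X r)) (Φ ^ m : X r ≃ₜ X r) := by
    intro b hb
    obtain ⟨b', hb', h1, -⟩ := homotopic_iterate (self_Lower hA) m b hb
    rw [← pow_eq_iterate] at h1
    refine ⟨b', hb', funext fun x => ?_, h1⟩
    have h2 : (Φ ^ m : X r ≃ₜ X r) (b x) = b' ((Φ ^ m : X r ≃ₜ X r) x) := congrFun h1 x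
    show a ((Φ ^ m : X r ≃ₜ X r) (b x)) = b' (a ((Φ ^ m : X r ≃ₜ X r) x))
    rw [h2, hax, hax, comm_Lower hb']
  have hc : Continuous (a ∘ (Φ ^ m : X r ≃ₜ X r)) :=
    (A2.Idx.deck_continuous (S := S) ha).comp (Φ ^ m).continuous
  refine no_fix hA hm hc hom hg (fun x hx => hcon x ?_) p hp
  rw [comm_Lower (S := S) hg, ← hax]
  exact hx

private theorem conj_Lower {T : X r ≃ₜ X r} {D : Subgroup (Equiv.Perm (X r))} (hN : Norm D T)
    {B : Matrix (Fin TFib.k) (Fin TFib.k) ℤ} {ψ : Equiv.Perm (X r) → Fin TFib.k → ℝ}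
    (ψ_T : ∀ a ∈ D, ∀ a' ∈ D, (∀ x, T (a x) = a' (T x)) → ψ a' = lin B (ψ a)) (n : ℕ)
    (a : Equiv.Perm (X r)) (ha : a ∈ D) :
    ∃ a' ∈ D, (∀ y, (T ^ n) (a y) = a' ((T ^ n) y)) ∧ ψ a' = lin (B ^ n) (ψ a) := by
  induction n with
  | zero =>
    refine ⟨a, ha, fun y => rfl, ?_⟩
    rw [pow_zero, lin_one]
    rfl
  | succ n ih =>
    obtain ⟨b, hb, h1, h2⟩ := ih
    obtain ⟨c, hc, h3⟩ := hN.fwd b hb
    refine ⟨c, hc, fun y => ?_, ?_⟩
    · rw [pow_succ']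
      show T ((T ^ n) (a y)) = c (T ((T ^ n) y))
      rw [h1, h3]
    · rw [ψ_T b hb c hc h3, h2, pow_succ', lin_mul]
      rfl

private theorem pow_Lower {Φ T : X r ≃ₜ X r} (hA : IsAnosovLift S Φ) {m : ℕ}
    {g : Equiv.Perm (X r)} (hg : g ∈ Deck S) (hT : ∀ x, T x = g ((Φ ^ m : X r ≃ₜ X r) x))
    (n : ℕ) : ∃ g' ∈ Deck S, ∀ x, (T ^ n) x = g' ((Φ ^ (m * n) : X r ≃ₜ X r) x) := by
  obtain ⟨g', hg', h1, -⟩ := exists_iterate (homotopic_iterate (self_Lower hA) m) hg n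
  refine ⟨g', hg', fun x => ?_⟩
  have h2 : (T : X r → X r) = g ∘ Φ^[m] := funext fun x => by
    rw [hT, pow_eq_iterate]
    rfl
  rw [pow_eq_iterate, pow_eq_iterate, h2, h1, Function.iterate_mul]

theorem lower {Φ T : X r ≃ₜ X r} (hA : IsAnosovLift S Φ) {m : ℕ} (hm : 0 < m)
    {g : Equiv.Perm (X r)} (hg : g ∈ Deck S) (hT : ∀ x, T x = g ((Φ ^ m : X r ≃ₜ X r) x))
    {p : X r} (hp : T p = p) {D : Subgroup (Equiv.Perm (X r))} (hD : D ≤ Deck S)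
    (hN : Norm D T) (hZ : ∀ (v : Fin TFib.k → ℤ) (a : Equiv.Perm (X r)),
      (∀ x, a x = dkT (fun _ => 1) 1 v x) → a ∈ D)
    {B : Matrix (Fin TFib.k) (Fin TFib.k) ℤ} {q : ℕ} (hq : 0 < q)
    {ψ : Equiv.Perm (X r) → Fin TFib.k → ℝ} (ψ_mul : ∀ a ∈ D, ∀ b ∈ D, ψ (a * b) = ψ a + ψ b)
    (ψ_v : ∀ (v : Fin TFib.k → ℤ) (a : Equiv.Perm (X r)),
      (∀ x, a x = dkT (fun _ => 1) 1 v x) → ψ a = fun j => (v j : ℝ))
    (ψ_T : ∀ a ∈ D, ∀ a' ∈ D, (∀ x, T (a x) = a' (T x)) → ψ a' = lin B (ψ a))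
    (ψ_rat : ∀ a ∈ D, ∃ w : Fin TFib.k → ℤ, ∀ j, (q : ℝ) * ψ a j = w j) {n : ℕ} (hn : 0 < n)
    (hdet : (1 - B ^ n).det ≠ 0) :
    (((1 - B ^ n).det.natAbs : ℕ) : ℕ∞) ≤ ((q ^ TFib.k : ℕ) : ℕ∞) *
      ((fun x => MulAction.orbit D x) '' Conc.perN D T n).encard := by
  obtain ⟨g', hg', hT'⟩ := pow_Lower hA hg hT n
  have hp' : g' ((Φ ^ (m * n) : X r ≃ₜ X r) p) = p := by
    rw [← hT', pow_eq_iterate]
    exact Function.iterate_fixed hp n
  choose x hx using fun v => exists_fix hA (Nat.mul_pos hm hn) hg' hp' v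
  choose av hav hav' using fun v => tr_Lower S v
  have hD' : ∀ v, av v ∈ D := fun v => hZ v (av v) (hav' v)
  have hfix : ∀ v, av v ((T ^ n) (x v)) = x v := fun v => by
    rw [hT', hav']
    exact hx v
  have hf : ∀ v v', MulAction.orbit D (x v) = MulAction.orbit D (x v') →
      ∃ w : Fin TFib.k → ℤ, (q : ℤ) • (v' - v) = (1 - B ^ n).mulVec w := by
    intro v v' hvv
    have h1 : x v' ∈ MulAction.orbit D (x v) := by
      rw [hvv]
      exact MulAction.mem_orbit_self _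
    obtain ⟨⟨a, ha⟩, h2⟩ := h1
    have h3 : a (x v) = x v' := h2
    obtain ⟨a', ha', h4, h5⟩ := conj_Lower hN ψ_T n a ha
    have h6 : (av v' * a') ((T ^ n) (x v)) = (a * av v) ((T ^ n) (x v)) := by
      rw [Equiv.Perm.mul_apply, Equiv.Perm.mul_apply, ← h4, h3, hfix, hfix, h3]
    have h7 : av v' * a' = a * av v :=
      eq_of_apply_eq (mul_mem (hav v') (hD ha')) (mul_mem (hD ha) (hav v)) h6
    have h8 := congrArg ψ h7
    rw [ψ_mul _ (hD' v') _ ha', ψ_mul _ ha _ (hD' v), ψ_v v' _ (hav' v'), ψ_v v _ (hav' v),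
      h5] at h8
    obtain ⟨w, hw⟩ := ψ_rat a ha
    refine ⟨w, funext fun j => ?_⟩
    have h9 : (v' j : ℝ) + lin (B ^ n) (ψ a) j = ψ a j + (v j : ℝ) := congrFun h8 j
    have h10 : (q : ℝ) * lin (B ^ n) (ψ a) j = (((B ^ n).mulVec w j : ℤ) : ℝ) := by
      have e1 : ((q : ℝ) • ψ a) = fun j => ((w j : ℤ) : ℝ) := funext fun j => hw j
      have e2 := congrFun (lin_int (B ^ n) w) j
      rw [← e1, map_smul] at e2
      exact e2
    have h11 : (q : ℝ) * ((v' j : ℝ) - (v j : ℝ)) = (w j : ℝ) - (((B ^ n).mulVec w j : ℤ) : ℝ) := by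
      rw [← h10, ← hw j]
      linear_combination (q : ℝ) * h9
    rw [Matrix.sub_mulVec, Matrix.one_mulVec]
    show (q : ℤ) * (v' j - v j) = w j - (B ^ n).mulVec w j
    exact_mod_cast h11
  refine (le_of_fibers hdet hq hf).trans (mul_le_mul' le_rfl (encard_le_encard ?_))
  rintro _ ⟨v, rfl⟩
  exact ⟨x v, ⟨av v, hD' v, hfix v⟩, rfl⟩

end Pool.Agent.ANO5.Hyp
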