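import Pool.Agent.ANO5.Fib
import Pool.Agent.ANO5.A2.EqIdx.Pert

/-!
# ANO5, module Hyp: an equivariant nondegenerate map near the identity (package HYP-PHI)

`chartW` is the chart of `Fib.W` in the sense of `A2.EqIdx`: `toE = crd`, `ofE = crd.symm`, so
`dom = univ`; `mix = geo`, `mixDom = univ`.

`exists_inj`: the injectivity radius.  PROOF.  Let `K` be compact with `Γ K = W` (`Fib.cocompact`)
and `K₁ = cthickening 1 K` (compact).  The set `A` of the `g ∈ Γ` with `g K₁ ∩ K₁ ≠ ∅` is finite.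
For each `g ∈ A`, `g ≠ 1`, the function `dist (g x) x` is continuous and positive on `K` (`free`),
so bounded below on `K` by a positive constant.  Let `ρ` be the minimum of these constants and `1`.
Let `dist (g y) y < ρ`.  Choose `h ∈ Γ` with `h y ∈ K` and put `g' = h * g * h⁻¹`:
`dist (g' (h y)) (h y) = dist (g y) y < ρ ≤ 1`, so `g' ∈ A`, and `g' = 1` by the choice of `ρ`; so
`g = 1`.

`exists_phi`.  PROOF.  `Action chartW Γ` (for the group `Γ` acting on `W`: isometries, `C¹` by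
`Fib.smooth`, free, proper by `Fib.discrete`).  Let `δ = min 1 (ρ / 2)`.
`A2.EqIdx.exists_perturbation` gives `φ` (equivariant, `C¹`, `dist (φ x) x ≤ δ`, nondegenerate
fixed points, finitely many orbits of fixed points).  If `g (φ y) = y` then
`dist (g y) y = dist (g y) (g (φ y)) ≤ δ < ρ`, so `g = 1`.  Countable: `Γ` is countable (for a point
`y₀` it is the union over `n` of the finite sets `{g | g y₀ ∈ closedBall y₀ n}`), and the fixed
points are in the images of finitely many points by the elements of `Γ`.  For a finite set `B` of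
representatives of the orbits of fixed points each fixed point is mapped into `B` by some `g ∈ Γ`.
-/

set_option autoImplicit false

open Set Filter Topology

namespace Pool.Agent.ANO5.Hyp

open Pool.Agent.ANO5.A2

variable [Fib]

/-- The chart of `W`. -/
noncomputable def chartW : EqIdx.Chart Fib.W Fib.V where
  toE := Fib.crd
  ofE := Fib.crd.symm
  left_inv x := Fib.crd.symm_apply_apply x
  isOpen := by
    rw [Fib.crd.surjective.range_eq]
    exact isOpen_univ
  cont := Fib.crd.continuous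
  contOf := Fib.crd.symm.continuous.continuousOn
  mix := Fib.geo
  mix_zero := Fib.geo_zero
  mix_one := Fib.geo_one
  mix_dist t ht a b := Fib.geo_dist a b t ht
  mixDom := univ
  mixDom_open := isOpen_univ
  mem_mixDom _ _ _ _ _ _ := mem_univ _
  mix_smooth := Fib.geo_smooth.contDiffOn

/-- The injectivity radius. -/
theorem exists_inj : ∃ ρ > 0, ∀ g ∈ Fib.Γ, ∀ y : Fib.W, dist (g y) y < ρ → g = 1 := by
  obtain ⟨K, hK, hKc⟩ := Fib.cocompact
  have hK₁ : IsCompact (Metric.cthickening 1 K) := hK.cthickening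
  have hA := Fib.discrete (Metric.cthickening 1 K) hK₁
  -- a bound for one element
  have hone : ∀ g ∈ Fib.Γ, g ≠ 1 → ∃ ρ > 0, ∀ x ∈ K, ρ ≤ dist (g x) x := by
    intro g hg hg1
    rcases K.eq_empty_or_nonempty with h0 | hne
    · refine ⟨1, one_pos, fun x hx => ?_⟩
      rw [h0] at hx
      exact absurd hx (notMem_empty x)
    · have hc : Continuous fun x : Fib.W => dist (g x) x :=
        (Fib.continuous_act hg).dist continuous_id
      obtain ⟨x₀, -, hx₀⟩ := hK.exists_isMinOn hne hc.continuousOn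
      refine ⟨dist (g x₀) x₀, ?_, fun x hx => isMinOn_iff.1 hx₀ x hx⟩
      rw [gt_iff_lt, dist_pos]
      exact fun h => hg1 (Fib.free g hg x₀ h)
  -- a bound for finitely many elements
  have hfin : ∀ S : Set (Equiv.Perm Fib.W), S.Finite → S ⊆ {g | g ∈ Fib.Γ} →
      ∃ ρ > 0, ρ ≤ 1 ∧ ∀ g ∈ S, g ≠ 1 → ∀ x ∈ K, ρ ≤ dist (g x) x := by
    intro S hS
    induction S, hS using Set.Finite.induction_on with
    | empty => exact fun _ => ⟨1, one_pos, le_rfl, fun g hg => absurd hg (notMem_empty g)⟩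
    | @insert g S _ _ ih =>
      intro hsub
      obtain ⟨ρ, hρ, hρ1, h⟩ := ih ((subset_insert g S).trans hsub)
      by_cases hg1 : g = 1
      · refine ⟨ρ, hρ, hρ1, fun g' hg' hne => ?_⟩
        rcases hg' with rfl | hg'
        · exact absurd hg1 hne
        · exact h g' hg' hne
      · obtain ⟨ρ', hρ', h'⟩ := hone g (hsub (mem_insert g S)) hg1
        refine ⟨min ρ ρ', lt_min hρ hρ', (min_le_left _ _).trans hρ1, fun g' hg' hne x hx => ?_⟩
        rcases hg' with rfl | hg'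
        · exact (min_le_right _ _).trans (h' x hx)
        · exact (min_le_left _ _).trans (h g' hg' hne x hx)
  obtain ⟨ρ, hρ, hρ1, h⟩ := hfin _ hA fun g hg => hg.1
  refine ⟨ρ, hρ, fun g hg y hy => ?_⟩
  obtain ⟨k, hk, hky⟩ := hKc y
  have hd : dist (k (g y)) (k y) < ρ := by
    rw [Fib.isom k hk]
    exact hy
  have hval : (k * g * k⁻¹) (k y) = k (g y) := by
    have h1 : k⁻¹ (k y) = y := k.symm_apply_apply y
    rw [Equiv.Perm.mul_apply, Equiv.Perm.mul_apply, h1]
  have hmem : k * g * k⁻¹ ∈ Fib.Γ := Fib.Γ.mul_mem (Fib.Γ.mul_mem hk hg) (Fib.Γ.inv_mem hk)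
  by_contra hg1
  have hne : k * g * k⁻¹ ≠ 1 := fun h1 => hg1 (conj_eq_one_iff.1 h1)
  have h2 := h (k * g * k⁻¹) ⟨hmem, k y, Metric.self_subset_cthickening K hky, by
    rw [hval]
    exact Metric.mem_cthickening_of_dist_le _ _ _ _ hky (hd.le.trans hρ1)⟩ hne (k y) hky
  rw [hval] at h2
  exact absurd hd (not_lt.2 h2)

private theorem phi_action : EqIdx.Action chartW Fib.Γ where
  dist_smul z x y := Fib.isom z z.2 x y
  smooth z := (Fib.smooth z z.2).contDiffOn
  free z x h := Subtype.ext (Fib.free z z.2 x h)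
  proper K hK := by
    refine ((Fib.discrete K hK).preimage Subtype.val_injective.injOn).subset ?_
    rintro z ⟨x, hx, hzx⟩
    exact ⟨z.2, x, hx, hzx⟩

private theorem phi_countable : Countable Fib.Γ := by
  have y₀ : Fib.W := Fib.crd.symm 0
  have h1 : {g : Equiv.Perm Fib.W | g ∈ Fib.Γ} ⊆ ⋃ n : ℕ,
      {g : Equiv.Perm Fib.W | g ∈ Fib.Γ ∧ ∃ x ∈ Metric.closedBall y₀ (n : ℝ),
        g x ∈ Metric.closedBall y₀ (n : ℝ)} := by
    intro g hg
    obtain ⟨n, hn⟩ := exists_nat_ge (dist (g y₀) y₀)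
    refine mem_iUnion.2 ⟨n, hg, y₀, Metric.mem_closedBall_self (Nat.cast_nonneg n), ?_⟩
    exact Metric.mem_closedBall.2 hn
  have h2 : {g : Equiv.Perm Fib.W | g ∈ Fib.Γ}.Countable :=
    (countable_iUnion fun n : ℕ =>
      (Fib.discrete _ (isCompact_closedBall y₀ (n : ℝ))).countable).mono h1
  exact h2.to_subtype

/-- An equivariant map near the identity with nondegenerate fixed points. -/
theorem exists_phi : ∃ φ : Fib.W → Fib.W, Continuous φ ∧
    (∀ g ∈ Fib.Γ, ∀ y, φ (g y) = g (φ y)) ∧ (∀ y, dist (φ y) y ≤ 1) ∧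
    (∀ g ∈ Fib.Γ, ∀ y, g (φ y) = y → g = 1) ∧
    (∀ y, φ y = y → (∃ V ∈ 𝓝 (Fib.crd y),
      ContDiffOn ℝ 1 (fun v => Fib.crd (φ (Fib.crd.symm v))) V) ∧
      (fderiv ℝ (fun v => v - Fib.crd (φ (Fib.crd.symm v))) (Fib.crd y)).det ≠ 0) ∧
    (∃ B : Set Fib.W, B.Finite ∧ ∀ y, φ y = y → ∃ g ∈ Fib.Γ, g y ∈ B) ∧
    {y | φ y = y}.Countable := by
  obtain ⟨ρ, hρ, hinj⟩ := exists_inj
  have hco : ∃ M : Set Fib.W, IsCompact M ∧ EqIdx.sat Fib.Γ M = univ := by
    obtain ⟨K, hK, hKc⟩ := Fib.cocompact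
    refine ⟨K, hK, eq_univ_of_forall fun x => ?_⟩
    obtain ⟨g, hg, hgx⟩ := hKc x
    exact ⟨⟨g, hg⟩, hgx⟩
  have hδ : 0 < min 1 (ρ / 2) := lt_min one_pos (half_pos hρ)
  obtain ⟨φ, hφ, hd, hnd, hfin⟩ := EqIdx.exists_perturbation phi_action hco hδ
  have hcont : Continuous φ := chartW.continuous_of_loc hφ.smooth.continuousOn
  have hequi : ∀ g ∈ Fib.Γ, ∀ y, φ (g y) = g (φ y) := fun g hg y => hφ.equi ⟨g, hg⟩ y
  have hdom : (chartW : EqIdx.Chart Fib.W Fib.V).dom = univ := Fib.crd.surjective.range_eq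
  have hsm : ContDiffOn ℝ 1 (fun v => Fib.crd (φ (Fib.crd.symm v))) univ := by
    rw [← hdom]
    exact hφ.smooth
  refine ⟨φ, hcont, hequi, fun y => (hd y).trans (min_le_left _ _), ?_, ?_, ?_, ?_⟩
  · intro g hg y hy
    refine hinj g hg y ?_
    calc dist (g y) y = dist (g y) (g (φ y)) := by rw [hy]
      _ = dist y (φ y) := Fib.isom g hg _ _
      _ = dist (φ y) y := dist_comm _ _
      _ ≤ min 1 (ρ / 2) := hd y
      _ ≤ ρ / 2 := min_le_right _ _
      _ < ρ := half_lt_self hρ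
  · intro y hy
    exact ⟨⟨univ, univ_mem, hsm⟩, hnd y (mem_univ y) hy⟩
  · have hrep : ∀ o : Set Fib.W, ∃ q : Fib.W, o ∈ EqIdx.fixOrb Fib.Γ φ → q ∈ o := by
      intro o
      by_cases ho : o ∈ EqIdx.fixOrb Fib.Γ φ
      · obtain ⟨q, -, rfl⟩ := ho
        exact ⟨q, fun _ => MulAction.mem_orbit_self q⟩
      · exact ⟨Fib.crd.symm 0, fun h => absurd h ho⟩
    choose rep hrep using hrep
    refine ⟨rep '' EqIdx.fixOrb Fib.Γ φ, hfin.image rep, fun y hy => ?_⟩
    have ho : MulAction.orbit Fib.Γ y ∈ EqIdx.fixOrb Fib.Γ φ := ⟨y, hy, rfl⟩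
    obtain ⟨z, hz⟩ := hrep _ ho
    refine ⟨z, z.2, MulAction.orbit Fib.Γ y, ho, ?_⟩
    exact hz.symm
  · have hc := phi_countable
    have h1 : {y | φ y = y} ⊆ ⋃ o ∈ EqIdx.fixOrb Fib.Γ φ, o := by
      intro y hy
      exact mem_iUnion₂.2 ⟨MulAction.orbit Fib.Γ y, ⟨y, hy, rfl⟩, MulAction.mem_orbit_self y⟩
    refine (hfin.countable.biUnion ?_).mono h1
    rintro o ⟨q, -, rfl⟩
    exact countable_range _

end Pool.Agent.ANO5.Hyp
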