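import Pool.Agent.ANO3.Cnt.Close
import Pool.Agent.ANO5.A3.Grp.Basic
import Pool.Agent.ANO5.A2.Dyn.Main
import Pool.Agent.ANO5.A2.Dim.Lift
import Pool.Agent.ANO5.Hyp.Phi

/-!
# ANO5, module Hyp: existence of a periodic point and the injectivity radius (package HYP-PER)

`exists_inj_deck`: there is `ρ > 0` such that a deck transformation of `X r` which moves a point by
less than `ρ` is `1`.  PROOF.  As `Hyp.exists_inj` in `Hyp/Phi.lean` (the same proof with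
`A3.Grp.cocompact`, `A2.Dyn.deck_finite`, `eq_of_apply_eq`): let `K` be compact with
`Deck K = X r`, `K₁ = cthickening 1 K`; only finitely many `g ∈ Deck` have `g K₁ ∩ K₁ ≠ ∅`; each
such `g ≠ 1` has no fixed point, so `dist (g x) x` is bounded below on `K`; conjugate.

`exists_periodic`.  PROOF.  `Norm (Deck S) Φ`: isometries; `hA.2.2.1` and `hA.2.2.2.1`
(`exists_deck`).  `A2.Dyn.main hA` (for the power `1`) gives `Expansive Φ` and `Shadowing Φ`.  Let
`δ` be the constant of `ANO3.Cnt.closing` (see `Pool/Agent/ANO3/Cnt/Close.lean`) for `ε = 1`.  Let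
`K` be as above and `x` a point.  For each `j : ℕ` choose `a j ∈ Deck` with `a j (Φ^j x) ∈ K`.  As
`K` is compact there are `i < j` with `dist (a i (Φ^i x)) (a j (Φ^j x)) ≤ δ` (cover `K` by finitely
many balls of radius `δ / 2`, pigeonhole, or a convergent subsequence).  With `z = Φ^i x`,
`n = j - i > 0`, `b = (a i)⁻¹ * a j`: `dist (b (Φ^n z)) z ≤ δ`.  `closing` gives `c` with
`b (Φ^n c) = c`.
-/

set_option autoImplicit false

open Set Filter Topology

namespace Pool.Agent.ANO5.Hyp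

open Pool.Agent.ANO5.A1 Pool.Agent.ANO5.A2 Pool.Agent.ANO5.A3.Grp

variable [Fib] {r : ℕ} (S : Fin r → ClosedSurface)

theorem exists_inj_deck : ∃ ρ > 0, ∀ g ∈ Deck S, ∀ x : X r, dist (g x) x < ρ → g = 1 := by
  obtain ⟨K, hK, hKc⟩ := cocompact S
  have hK₁ : IsCompact (Metric.cthickening 1 K) := hK.cthickening
  have hA' := (A2.Dyn.deck_finite (S := S) hK₁).preimage
    (f := fun z : Equiv.Perm (X r) => (z : X r → X r))
    (fun a _ b _ hab => DFunLike.coe_injective hab)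
  have hA : {g : Equiv.Perm (X r) | g ∈ Deck S ∧ ∃ x ∈ Metric.cthickening 1 K,
      g x ∈ Metric.cthickening 1 K}.Finite := hA'.subset fun g hg => hg
  -- a bound for one element
  have hone : ∀ g ∈ Deck S, g ≠ 1 → ∃ ρ > 0, ∀ x ∈ K, ρ ≤ dist (g x) x := by
    intro g hg hg1
    rcases K.eq_empty_or_nonempty with h0 | hne
    · refine ⟨1, one_pos, fun x hx => ?_⟩
      rw [h0] at hx
      exact absurd hx (notMem_empty x)
    · have hc : Continuous fun x : X r => dist (g x) x :=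
        (A2.Dyn.IsDeck.isometry hg).continuous.dist continuous_id
      obtain ⟨x₀, -, hx₀⟩ := hK.exists_isMinOn hne hc.continuousOn
      refine ⟨dist (g x₀) x₀, ?_, fun x hx => isMinOn_iff.1 hx₀ x hx⟩
      rw [gt_iff_lt, dist_pos]
      exact fun h => hg1 (eq_of_apply_eq hg (one_mem _) (p := x₀) h)
  -- a bound for finitely many elements
  have hfin : ∀ A : Set (Equiv.Perm (X r)), A.Finite → A ⊆ {g | g ∈ Deck S} →
      ∃ ρ > 0, ρ ≤ 1 ∧ ∀ g ∈ A, g ≠ 1 → ∀ x ∈ K, ρ ≤ dist (g x) x := by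
    intro A hA
    induction A, hA using Set.Finite.induction_on with
    | empty => exact fun _ => ⟨1, one_pos, le_rfl, fun g hg => absurd hg (notMem_empty g)⟩
    | @insert g A _ _ ih =>
      intro hsub
      obtain ⟨ρ, hρ, hρ1, h⟩ := ih ((subset_insert g A).trans hsub)
      by_cases hg1 : g = 1
      · refine ⟨ρ, hρ, hρ1, fun g' hg' hne => ?_⟩
        rcases hg' with rfl | hg'
        · exact absurd hg1 hne
        · exact h g' hg' hne
      · obtain ⟨ρ', hρ', h'⟩ := hone g (hsub (mem_insert g A)) hg1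
        refine ⟨min ρ ρ', lt_min hρ hρ', (min_le_left _ _).trans hρ1, fun g' hg' hne x hx => ?_⟩
        rcases hg' with rfl | hg'
        · exact (min_le_right _ _).trans (h' x hx)
        · exact (min_le_left _ _).trans (h g' hg' hne x hx)
  obtain ⟨ρ, hρ, hρ1, h⟩ := hfin _ hA fun g hg => hg.1
  refine ⟨ρ, hρ, fun g hg y hy => ?_⟩
  obtain ⟨k, hk, hky⟩ := hKc y
  have hd : dist (k (g y)) (k y) < ρ := by
    rw [(A2.Dyn.IsDeck.isometry hk).dist_eq]
    exact hy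
  have hval : (k * g * k⁻¹) (k y) = k (g y) := by
    have h1 : k⁻¹ (k y) = y := k.symm_apply_apply y
    rw [Equiv.Perm.mul_apply, Equiv.Perm.mul_apply, h1]
  have hmem : k * g * k⁻¹ ∈ Deck S := mul_mem (mul_mem hk hg) (inv_mem hk)
  by_contra hg1
  have hne : k * g * k⁻¹ ≠ 1 := fun h1 => hg1 (conj_eq_one_iff.1 h1)
  have h2 := h (k * g * k⁻¹) ⟨hmem, k y, Metric.self_subset_cthickening K hky, by
    rw [hval]
    exact Metric.mem_cthickening_of_dist_le _ _ _ _ hky (hd.le.trans hρ1)⟩ hne (k y) hky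
  rw [hval] at h2
  exact absurd hd (not_lt.2 h2)

private theorem per_norm {S : Fin r → ClosedSurface} {Φ : X r ≃ₜ X r}
    (hA : IsAnosovLift S Φ) : ANO3.Cnt.Norm (Deck S) Φ := by
  refine ⟨fun a ha x y => (A2.Dyn.IsDeck.isometry ha).dist_eq x y, fun a ha => ?_,
    fun a ha => ?_⟩
  · obtain ⟨g', hg', h1⟩ := hA.2.2.1 a ha
    obtain ⟨a', ha', h2⟩ := exists_deck hg'
    refine ⟨a', ha', fun x => ?_⟩
    rw [h2]
    exact congrFun h1 x
  · obtain ⟨g, hg, h1⟩ := hA.2.2.2.1 a ha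
    obtain ⟨a', ha', h2⟩ := exists_deck hg
    refine ⟨a', ha', fun x => ?_⟩
    rw [h2, Homeomorph.symm_apply_eq]
    have h3 : Φ (g (Φ.symm x)) = a (Φ (Φ.symm x)) := congrFun h1 (Φ.symm x)
    rw [h3, Homeomorph.apply_symm_apply]

theorem exists_periodic {S : Fin r → ClosedSurface} {Φ : X r ≃ₜ X r} (hA : IsAnosovLift S Φ) :
    ∃ n : ℕ, 0 < n ∧ ∃ g ∈ Deck S, ∃ p : X r, g ((Φ ^ n : X r ≃ₜ X r) p) = p := by
  have hm := A2.Dyn.main hA one_pos
  rw [pow_one] at hm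
  obtain ⟨δ, hδ, hcl⟩ := ANO3.Cnt.closing (per_norm hA) hm.1 hm.2 one_pos
  obtain ⟨K, hK, hKc⟩ := cocompact S
  obtain ⟨x⟩ : Nonempty (X r) := inferInstance
  choose a ha haK using fun j : ℕ => hKc ((Φ ^ j : X r ≃ₜ X r) x)
  obtain ⟨y, -, φ, hφ, hlim⟩ := hK.tendsto_subseq haK
  obtain ⟨N, hN⟩ := Metric.tendsto_atTop.1 hlim (δ / 2) (half_pos hδ)
  have h1 := hN N le_rfl
  have h2 := hN (N + 1) (Nat.le_succ N)
  have hlt : φ N < φ (N + 1) := hφ (Nat.lt_succ_self N)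
  obtain ⟨n, hn⟩ : ∃ n, φ (N + 1) = n + φ N := ⟨φ (N + 1) - φ N, by omega⟩
  have hn0 : 0 < n := by omega
  obtain ⟨z, hz⟩ : ∃ z, z = (Φ ^ φ N : X r ≃ₜ X r) x := ⟨_, rfl⟩
  have hz2 : (Φ ^ φ (N + 1) : X r ≃ₜ X r) x = (Φ ^ n : X r ≃ₜ X r) z := by
    rw [hn, pow_add, hz]
    rfl
  have hd : dist (a (φ (N + 1)) ((Φ ^ n : X r ≃ₜ X r) z)) (a (φ N) z) ≤ δ := by
    have h3 : dist (a (φ N) z) y < δ / 2 := by
      rw [hz]
      exact h1
    have h4 : dist (a (φ (N + 1)) ((Φ ^ n : X r ≃ₜ X r) z)) y < δ / 2 := by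
      rw [← hz2]
      exact h2
    calc _ ≤ dist (a (φ (N + 1)) ((Φ ^ n : X r ≃ₜ X r) z)) y + dist (a (φ N) z) y :=
          dist_triangle_right _ _ _
      _ ≤ δ := by linarith
  have hb : (a (φ N))⁻¹ * a (φ (N + 1)) ∈ Deck S := mul_mem (inv_mem (ha _)) (ha _)
  have hbz : dist (((a (φ N))⁻¹ * a (φ (N + 1))) ((Φ ^ n : X r ≃ₜ X r) z)) z ≤ δ := by
    have h5 : (a (φ N))⁻¹ (a (φ N) z) = z := (a (φ N)).symm_apply_apply z
    calc _ = dist ((a (φ N))⁻¹ (a (φ (N + 1)) ((Φ ^ n : X r ≃ₜ X r) z)))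
          ((a (φ N))⁻¹ (a (φ N) z)) := by
          rw [Equiv.Perm.mul_apply, h5]
      _ = dist (a (φ (N + 1)) ((Φ ^ n : X r ≃ₜ X r) z)) (a (φ N) z) :=
          (A2.Dyn.IsDeck.isometry (inv_mem (ha (φ N)) : (a (φ N))⁻¹ ∈ Deck S)).dist_eq _ _
      _ ≤ δ := hd
  obtain ⟨c, hc, -⟩ := hcl _ hb n z hn0 hbz
  exact ⟨n, hn0, _, hb, c, hc⟩

end Pool.Agent.ANO5.Hyp
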