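import Pool.Agent.ANO5.Typ.Unip

/-!
# ANO5, module Hyp: a rational solution of `b (ψ p) = B (b p) - c p` (package HYP-CHAR)

`G` is a group, `s` a subgroup which is normalized by `H`, `c : G → ℤ^k` is additive on `s`, and the
differences `Δ^M c` vanish on `s`, where `Δ b p = b (H p H⁻¹) - b p`.  If `det (B - 1) ≠ 0` there is
`b : G → ℝ^k`, additive on `s`, with `b (H p H⁻¹) = B (b p) - c p` on `s`, with bounded
denominators, which vanishes where all the `Δ^j c` vanish.

PROOF.  Let `E` be the inverse of the real matrix `B - 1`, and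
`b p = ∑ j ∈ Finset.range M, (E ^ (j + 1)).mulVec (Δ^[j] c p)`.  All the `Δ^[j] c` are additive on
`s` (`Typ.AddOn.Dl`, for each component), so `b` is.  `Δ b p = ∑ j, E ^ (j + 1) (Δ^[j + 1] c p)` and
`(B - 1) (b p) = ∑ j, E ^ j (Δ^[j] c p)` (`E (B - 1) = 1`), so
`(B - 1) (b p) - Δ b p = ∑ j, (E ^ j (Δ^[j] c p) - E ^ (j + 1) (Δ^[j + 1] c p)) = c p - E ^ M
(Δ^[M] c p) = c p` for `p ∈ s` (telescoping sum, `Finset.sum_range_sub'`), i.e.
`b (H p H⁻¹) = b p + Δ b p = B (b p) - c p`.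
Denominators: `Δ^[j] c` has integer values, and `det (B - 1) • E` is the integer matrix
`adjugate (B - 1)`, so `det (B - 1) ^ M • E ^ (j + 1)` is an integer matrix for `j < M`.
-/

set_option autoImplicit false

open Set Matrix

namespace Pool.Agent.ANO5.Hyp

open Pool.Agent.ANO5.Typ

/-- The iterated differences of the vector function `c`. -/
private def D_Char {G : Type*} [Group G] (H : G) {k : ℕ} (c : G → Fin k → ℤ) (j : ℕ) (p : G) :
    Fin k → ℝ := fun i => (Dl H)^[j] (fun g => (c g i : ℝ)) p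

private theorem D_conj_Char {G : Type*} [Group G] (H : G) {k : ℕ} (c : G → Fin k → ℤ) (j : ℕ)
    (p : G) : D_Char H c j (H * p * H⁻¹) = D_Char H c j p + D_Char H c (j + 1) p := by
  funext i
  simp only [D_Char, Pi.add_apply, Function.iterate_succ_apply']
  unfold Dl
  ring

private theorem D_add_Char {G : Type*} [Group G] {s : Subgroup G} {H : G}
    (hH : ∀ p ∈ s, H * p * H⁻¹ ∈ s) {k : ℕ} {c : G → Fin k → ℤ}
    (hc : ∀ p ∈ s, ∀ q ∈ s, c (p * q) = c p + c q) (j : ℕ) {p q : G} (hp : p ∈ s)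
    (hq : q ∈ s) : D_Char H c j (p * q) = D_Char H c j p + D_Char H c j q := by
  have key : ∀ (j : ℕ) (i : Fin k), AddOn (s : Set G) ((Dl H)^[j] (fun g => (c g i : ℝ))) := by
    intro j i
    induction j with
    | zero =>
      intro p hp q hq
      have h1 := congrFun (hc p hp q hq) i
      simp only [Function.iterate_zero, id_eq]
      rw [h1]
      push_cast [Pi.add_apply]
      rfl
    | succ j ih =>
      rw [Function.iterate_succ_apply']
      exact ih.Dl hH
  funext i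
  exact key j i p hp q hq

/-- The entries of the vector are integers. -/
private def Int_Char {k : ℕ} (v : Fin k → ℝ) : Prop := ∃ n : Fin k → ℤ, ∀ j, v j = n j

private theorem Int_sum_Char {k : ℕ} {ι : Type} (t : Finset ι) (f : ι → Fin k → ℝ)
    (h : ∀ i ∈ t, Int_Char (f i)) : Int_Char (∑ i ∈ t, f i) := by
  classical
  induction t using Finset.induction_on with
  | empty => exact ⟨0, fun j => by simp⟩
  | insert a t ha ih =>
    obtain ⟨n, hn⟩ := ih fun i hi => h i (Finset.mem_insert_of_mem hi)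
    obtain ⟨m, hm⟩ := h a (Finset.mem_insert_self a t)
    refine ⟨m + n, fun j => ?_⟩
    rw [Finset.sum_insert ha, Pi.add_apply, hn, hm]
    push_cast [Pi.add_apply]
    rfl

private theorem Int_mulVec_Char {k : ℕ} (A : Matrix (Fin k) (Fin k) ℤ) {v : Fin k → ℝ}
    (h : Int_Char v) : Int_Char ((A.map (Int.cast : ℤ → ℝ)).mulVec v) := by
  obtain ⟨n, hn⟩ := h
  refine ⟨A.mulVec n, fun j => ?_⟩
  simp only [Matrix.mulVec, dotProduct, Matrix.map_apply, hn]
  push_cast
  rfl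

private theorem Int_smul_Char {k : ℕ} (m : ℤ) {v : Fin k → ℝ} (h : Int_Char v) :
    Int_Char ((m : ℝ) • v) := by
  obtain ⟨n, hn⟩ := h
  refine ⟨m • n, fun j => ?_⟩
  rw [Pi.smul_apply, hn, Pi.smul_apply, smul_eq_mul, smul_eq_mul]
  push_cast
  rfl

private theorem Int_D_Char {G : Type*} [Group G] (H : G) {k : ℕ} (c : G → Fin k → ℤ) (j : ℕ) :
    ∀ p : G, Int_Char (D_Char H c j p) := by
  induction j with
  | zero => exact fun p => ⟨c p, fun i => rfl⟩
  | succ j ih =>
    intro p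
    obtain ⟨n, hn⟩ := ih (H * p * H⁻¹)
    obtain ⟨m, hm⟩ := ih p
    refine ⟨n - m, fun i => ?_⟩
    have h1 := congrFun (D_conj_Char H c j p) i
    rw [Pi.add_apply, hn, hm] at h1
    push_cast [Pi.sub_apply]
    linarith

private theorem D_zero_Char {G : Type*} [Group G] (H : G) {k : ℕ} (c : G → Fin k → ℤ) {p : G}
    (h : ∀ i : ℕ, c (H ^ i * p * (H ^ i)⁻¹) = 0) (j : ℕ) :
    ∀ i : ℕ, D_Char H c j (H ^ i * p * (H ^ i)⁻¹) = 0 := by
  induction j with
  | zero =>
    intro i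
    funext l
    simp [D_Char, h i]
  | succ j ih =>
    intro i
    have h1 := D_conj_Char H c j (H ^ i * p * (H ^ i)⁻¹)
    have h2 : H * (H ^ i * p * (H ^ i)⁻¹) * H⁻¹ = H ^ (i + 1) * p * (H ^ (i + 1))⁻¹ := by
      rw [pow_succ' H i]
      group
    rw [h2, ih (i + 1), ih i, zero_add] at h1
    exact h1.symm

theorem exists_char {G : Type*} [Group G] {s : Subgroup G} {H : G}
    (hH : ∀ p ∈ s, H * p * H⁻¹ ∈ s) {k : ℕ} {B : Matrix (Fin k) (Fin k) ℤ}
    (hB : (B - 1).det ≠ 0) {c : G → Fin k → ℤ}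
    (hc : ∀ p ∈ s, ∀ q ∈ s, c (p * q) = c p + c q) {M : ℕ}
    (hM : ∀ j, ∀ p ∈ s, (Dl H)^[M] (fun g => (c g j : ℝ)) p = 0) :
    ∃ b : G → Fin k → ℝ, (∀ p ∈ s, ∀ q ∈ s, b (p * q) = b p + b q) ∧
      (∀ p ∈ s, b (H * p * H⁻¹) = (B.map (Int.cast : ℤ → ℝ)).mulVec (b p) -
        fun j => (c p j : ℝ)) ∧
      (∀ p ∈ s, ∃ n : Fin k → ℤ, ∀ j, (((B - 1).det ^ M : ℤ) : ℝ) * b p j = n j) ∧
      ∀ p ∈ s, (∀ i : ℕ, c (H ^ i * p * (H ^ i)⁻¹) = 0) → b p = 0 := by
  obtain ⟨A, hA⟩ : ∃ A : Matrix (Fin k) (Fin k) ℝ, A = (B - 1).map (Int.cast : ℤ → ℝ) :=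
    ⟨_, rfl⟩
  have hAB : B.map (Int.cast : ℤ → ℝ) = A + 1 := by
    rw [hA]
    ext i j
    simp only [Matrix.map_apply, Matrix.add_apply, Matrix.sub_apply]
    by_cases hij : i = j
    · subst hij
      simp
    · simp [Matrix.one_apply_ne hij]
  have hdet : A.det = (((B - 1).det : ℤ) : ℝ) := by
    rw [hA]
    exact ((Int.castRingHom ℝ).map_det (B - 1)).symm
  have hdet0 : IsUnit A.det := by
    rw [hdet]
    exact isUnit_iff_ne_zero.2 (by exact_mod_cast hB)
  have hAE : A * A⁻¹ = 1 := Matrix.mul_nonsing_inv A hdet0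
  have hadj : A.det • A⁻¹ = (Matrix.adjugate (B - 1)).map (Int.cast : ℤ → ℝ) := by
    have h1 : A.adjugate = (Matrix.adjugate (B - 1)).map (Int.cast : ℤ → ℝ) := by
      rw [hA]
      exact ((Int.castRingHom ℝ).map_adjugate (B - 1)).symm
    rw [Matrix.inv_def, smul_smul, Ring.mul_inverse_cancel _ hdet0, one_smul, h1]
  refine ⟨fun p => ∑ j ∈ Finset.range M, (A⁻¹ ^ (j + 1)).mulVec (D_Char H c j p), ?_, ?_, ?_,
    ?_⟩
  · intro p hp q hq
    rw [← Finset.sum_add_distrib]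
    refine Finset.sum_congr rfl fun j _ => ?_
    rw [D_add_Char hH hc j hp hq, Matrix.mulVec_add]
  · intro p hp
    have h0 : (fun j => (c p j : ℝ)) = (A⁻¹ ^ 0).mulVec (D_Char H c 0 p) := by
      rw [pow_zero, Matrix.one_mulVec]
      rfl
    have hMz : (A⁻¹ ^ M).mulVec (D_Char H c M p) = 0 := by
      have : D_Char H c M p = 0 := by
        funext i
        exact hM i p hp
      rw [this, Matrix.mulVec_zero]
    have htel := Finset.sum_range_sub' (fun j => (A⁻¹ ^ j).mulVec (D_Char H c j p)) M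
    simp only [hMz, sub_zero] at htel
    rw [h0, ← htel, hAB, Matrix.add_mulVec, Matrix.one_mulVec, Matrix.mulVec_sum]
    have h2 : ∀ j, A.mulVec ((A⁻¹ ^ (j + 1)).mulVec (D_Char H c j p)) =
        (A⁻¹ ^ j).mulVec (D_Char H c j p) := by
      intro j
      rw [Matrix.mulVec_mulVec, pow_succ', ← Matrix.mul_assoc, hAE, Matrix.one_mul]
    simp only [h2, D_conj_Char, Matrix.mulVec_add, Finset.sum_add_distrib,
      Finset.sum_sub_distrib]
    abel
  · intro p _
    have h1 : Int_Char (((((B - 1).det ^ M : ℤ) : ℝ)) •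
        ∑ j ∈ Finset.range M, (A⁻¹ ^ (j + 1)).mulVec (D_Char H c j p)) := by
      rw [Finset.smul_sum]
      refine Int_sum_Char _ _ fun j hj => ?_
      rw [Finset.mem_range] at hj
      obtain ⟨l, rfl⟩ := Nat.exists_eq_add_of_lt hj
      have h3 : (((((B - 1).det ^ (j + l + 1) : ℤ) : ℝ)) •
          (A⁻¹ ^ (j + 1)).mulVec (D_Char H c j p)) = ((((B - 1).det ^ l : ℤ) : ℝ)) •
          (((Matrix.adjugate (B - 1)) ^ (j + 1)).map (Int.cast : ℤ → ℝ)).mulVec
            (D_Char H c j p) := by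
        have h4 : ((Matrix.adjugate (B - 1)) ^ (j + 1)).map (Int.cast : ℤ → ℝ) =
            (A.det) ^ (j + 1) • A⁻¹ ^ (j + 1) := by
          have h5 := (Int.castRingHom ℝ).mapMatrix.map_pow (Matrix.adjugate (B - 1)) (j + 1)
          have h6 : ((Matrix.adjugate (B - 1)) ^ (j + 1)).map (Int.cast : ℤ → ℝ) =
              ((Matrix.adjugate (B - 1)).map (Int.cast : ℤ → ℝ)) ^ (j + 1) := h5
          rw [h6, ← hadj, smul_pow]
        rw [h4, Matrix.smul_mulVec, smul_smul, hdet]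
        congr 1
        push_cast
        ring
      rw [h3]
      exact Int_smul_Char _ (Int_mulVec_Char _ (Int_D_Char H c j p))
    obtain ⟨n, hn⟩ := h1
    exact ⟨n, fun j => by rw [← hn j]; rfl⟩
  · intro p _ h
    refine Finset.sum_eq_zero fun j _ => ?_
    have h1 := D_zero_Char H c h j 0
    rw [pow_zero, one_mul, inv_one, mul_one] at h1
    rw [h1, Matrix.mulVec_zero]

end Pool.Agent.ANO5.Hyp
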