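import Pool.Agent.ANO5.Defs
import Pool.Agent.ANO5.Hyp.Char
import Pool.Agent.ANO5.Hyp.Skew
import Pool.Agent.ANO5.Hyp.Stab

/-!
# ANO5, module Hyp: the character of the stabiliser of a type (package HYP-PSI)

`h : IsFix F (skew S A τ) Φ T m g κ`, `F i = (N i).toNormalForm.flat`, `g = dkT γ δ v`,
`det (1 - A^m) ≠ 0`, and the maps `H i z = γ i • f^[m] z` act unipotently on the stabilisers of the
classes of the `κ i`.  There is an additive function `ψ : Stab → (1 / q) ℤ^k` with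
`ψ a = v` for the translation by `v ∈ ℤ^k` and `ψ (T a T⁻¹) = A^m (ψ a)`.

PROOF.  Let `G = Equiv.Perm (X r)`, `s = Stab F κ`, `H = T.toEquiv : G`.  For `a ∈ s` let `a'` be the
element of `IsFix.fwd`; `H * a * H⁻¹ = a'` (`Equiv.ext`; `T (a x) = a' (T x)`), so
`hH : ∀ p ∈ s, H * p * H⁻¹ ∈ s`.

*The vector of a deck transformation.*  For `a ∈ Deck` let `vec a : ℤ^k` be the vector `v` with
`a = dkT γ δ v` (`Hyp.isDeck_iff`, unique by `dkT_inj`; `vec a = 0` otherwise, by choice).  It is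
additive: `dkT γ δ v ∘ dkT γ' δ' v' = dkT (γ γ') (δ δ') (v + v')`.  Put
`c a = vec (H * a * H⁻¹) - A^m *ᵥ vec a`, additive on `s`.

*(Z)*  If `a = dkT 1 1 v` then `a ∈ s` and `H * a * H⁻¹ = dkT 1 1 (A^m *ᵥ v)`: by `IsFix.fwd` it is
the `a'` with `g (T₀^[m] (a x)) = a' (g (T₀^[m] x))`, `T₀^[m] = sk .. (A^m) σ` (`skew_eq`,
`exists_iterate_sk`), and the left side is `g (T₀^[m] x)` with `lin (A^m) v` added to the last
component (`lin_int`); deck transformations which agree at a point are equal.  So `c a = 0`.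

*(Δ)*  Let `η : G → ℝ` be additive on `s`, with `η a = 0` for all `a = dkT 1 1 v`.  There is `M`
(depending only on the `n i` in `UnipOn`) such that `(Dl H)^[M] η = 0` on `s`.  Proof.  For
`i : Fin r` and `d : SL(2, ℝ)` in `Gi = stabSet (S i).Γ du ds (κ i)` let `ι i d ∈ s` be the
element with `ι i d = dkT (Function.update 1 i d) 1 0` (`exists_dkT`, `mem_stab`), for `e ∈ base.Γ`
let `ι' e = dkT 1 e 0 ∈ s`.  An element `a = dkT γ' e v ∈ s` has `γ' i ∈ Gi`, and `a` is the product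
of the `ι i (γ' i)` (any order), `ι' e` and `dkT 1 1 v`; so
`η a = ∑ i, η (ι i (γ' i)) + η (ι' e)` (induction over a finset of indices).  Let `ψ i d ∈ Gi` be an
element with `H i (d • z) = ψ i d • H i z` for all `z` (it exists for `d ∈ Gi`: component of
`IsFix.fwd` for `ι i d`).  Then `H * ι i d * H⁻¹` is `ι i (ψ i d)` up to an element which acts
trivially on the surfaces and a translation (compare the components: the components `j ≠ i` and
the component in `base.W` of `g (T₀^[m] (ι i d x))` and `g (T₀^[m] x)` are equal), so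
`Dl H η (ι i d) = η (ι i (ψ i d)) - η (ι i d)`, and by induction
`(Dl H)^[n] η (ι i d) = (fun h d => h (ψ i d) - h d)^[n] (fun d => η (ι i d)) d`
(`Dl H η` is again additive on `s` and vanishes at the translations, by (Z)).  For `n = n i` this
is `0` by `UnipOn`, hence also for all larger `n`.  `H * ι' e * H⁻¹` is `ι' (δ * e * δ⁻¹)` up to a
translation, and `η (ι' (δ e δ⁻¹)) = η (ι' e)` (conjugation by `ι' δ ∈ s`), so
`Dl H η (ι' e) = 0`.  With `M = 1 + ∑ i, n i` we get `(Dl H)^[M] η a = 0` for all `a ∈ s`.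

Apply (Δ) to the components of `c` and `Hyp.exists_char` with `B = A^m`
(`det (A^m - 1) = ± det (1 - A^m)`): there is `b` with `b (H a H⁻¹) = A^m (b a) - c a`.  Let
`ψ a = vec a + b a`.  Then `ψ (H a H⁻¹) = A^m vec a + c a + A^m (b a) - c a = A^m (ψ a)`; `b = 0` at
the translations `a = dkT 1 1 v` (all `H^i a H^-i` are translations, `c` vanishes there); the
denominators are bounded by `q = |det (A^m - 1)|^M`.
-/

set_option autoImplicit false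

open Set Filter Topology
open scoped UpperHalfPlane MatrixGroups

namespace Pool.Agent.ANO5.Hyp

open Pool.Agent.ANO3
open Pool.Agent.ANO5.A1 Pool.Agent.ANO5.A2 Pool.Agent.ANO5.A3.Grp Pool.Agent.ANO5.Lin
open Pool.Agent.ANO5.Tor (skew IsTwist B)

variable [TFib] {r : ℕ} {S : Fin r → SurfaceMap}

/-- The deck transformation as a permutation. -/
private noncomputable def dkE_Psi (γ : Fin r → SL(2, ℝ)) (δ : Equiv.Perm TFib.base.W)
    (v : Fin TFib.k → ℤ) : Equiv.Perm (X r) where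
  toFun := dkT γ δ v
  invFun x := (fun i => (γ i)⁻¹ • x.1 i, (δ.symm x.2.1, fun j => x.2.2 j - v j))
  left_inv x := Prod.ext (funext fun i => inv_smul_smul (γ i) (x.1 i))
    (Prod.ext (δ.symm_apply_apply _) (funext fun _ => add_sub_cancel_right _ _))
  right_inv x := Prod.ext (funext fun i => smul_inv_smul (γ i) (x.1 i))
    (Prod.ext (δ.apply_symm_apply _) (funext fun _ => sub_add_cancel _ _))

private theorem dkE_mul_Psi (γ γ' : Fin r → SL(2, ℝ)) (δ δ' : Equiv.Perm TFib.base.W)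
    (v v' : Fin TFib.k → ℤ) :
    dkE_Psi γ δ v * dkE_Psi γ' δ' v' = dkE_Psi (γ * γ') (δ * δ') (v + v') := by
  refine Equiv.ext fun x => ?_
  show dkT γ δ v (dkT γ' δ' v' x) = dkT (γ * γ') (δ * δ') (v + v') x
  refine Prod.ext (funext fun i => (mul_smul (γ i) (γ' i) (x.1 i)).symm)
    (Prod.ext rfl (funext fun j => ?_))
  show x.2.2 j + (v' j : ℝ) + (v j : ℝ) = x.2.2 j + (((v + v') j : ℤ) : ℝ)
  rw [Pi.add_apply]
  push_cast
  ring

private theorem exists_dkE_Psi {a : Equiv.Perm (X r)} (ha : a ∈ Deck (surf S)) :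
    ∃ (γ : Fin r → SL(2, ℝ)) (δ : Equiv.Perm TFib.base.W) (v : Fin TFib.k → ℤ),
      (∀ i, γ i ∈ (S i).Γ) ∧ δ ∈ TFib.base.Γ ∧ a = dkE_Psi γ δ v := by
  obtain ⟨γ, δ, v, h1, h2, h3⟩ := isDeck_iff.1 ha
  exact ⟨γ, δ, v, h1, h2, Equiv.ext fun x => congrFun h3 x⟩

private theorem mem_deck_Psi {γ : Fin r → SL(2, ℝ)} (hγ : ∀ i, γ i ∈ (S i).Γ)
    {δ : Equiv.Perm TFib.base.W} (hδ : δ ∈ TFib.base.Γ) (v : Fin TFib.k → ℤ) :
    dkE_Psi γ δ v ∈ Deck (surf S) :=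
  isDeck_iff.2 ⟨γ, δ, v, hγ, hδ, rfl⟩

open Classical in
/-- The translation vector. -/
private noncomputable def vec_Psi (a : Equiv.Perm (X r)) : Fin TFib.k → ℤ :=
  if h : ∃ (v : Fin TFib.k → ℤ) (γ : Fin r → SL(2, ℝ)) (δ : Equiv.Perm TFib.base.W),
    a = dkE_Psi γ δ v then h.choose else 0

private theorem vec_dkE_Psi (γ : Fin r → SL(2, ℝ)) (δ : Equiv.Perm TFib.base.W)
    (v : Fin TFib.k → ℤ) : vec_Psi (dkE_Psi γ δ v) = v := by
  have h : ∃ (w : Fin TFib.k → ℤ) (γ' : Fin r → SL(2, ℝ)) (δ' : Equiv.Perm TFib.base.W),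
    dkE_Psi γ δ v = dkE_Psi γ' δ' w := ⟨v, γ, δ, rfl⟩
  unfold vec_Psi
  rw [dif_pos h]
  obtain ⟨γ', δ', h1⟩ := h.choose_spec
  have h2 : (dkT γ δ v : X r → X r) = dkT γ' δ' h.choose := by
    funext x
    exact congrArg (fun f : Equiv.Perm (X r) => f x) h1
  exact (dkT_inj h2).2.symm

private theorem vec_mul_Psi {a b : Equiv.Perm (X r)} (ha : a ∈ Deck (surf S))
    (hb : b ∈ Deck (surf S)) : vec_Psi (a * b) = vec_Psi a + vec_Psi b := by
  obtain ⟨γ, δ, v, -, -, rfl⟩ := exists_dkE_Psi ha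
  obtain ⟨γ', δ', v', -, -, rfl⟩ := exists_dkE_Psi hb
  rw [dkE_mul_Psi, vec_dkE_Psi, vec_dkE_Psi, vec_dkE_Psi]

/-- The stabiliser of the class of a point. -/
private abbrev Gi_Psi (F : ∀ i, Flat (S i)) (κ : Fin r → ℍ) (i : Fin r) : Set SL(2, ℝ) :=
  stabSet (S i).Γ (F i).du (F i).ds (κ i)

variable {F : ∀ i, Flat (S i)} {κ : Fin r → ℍ}

private theorem one_mem_Psi (i : Fin r) : (1 : SL(2, ℝ)) ∈ Gi_Psi F κ i := by
  refine ⟨(S i).Γ.one_mem, ?_, ?_⟩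
  · rw [one_smul]
    exact (F i).isTree_u.self _
  · rw [one_smul]
    exact (F i).isTree_s.self _

private theorem upd_mem_Psi {i : Fin r} {d : SL(2, ℝ)} (hd : d ∈ Gi_Psi F κ i) (j : Fin r) :
    Function.update (1 : Fin r → SL(2, ℝ)) i d j ∈ Gi_Psi F κ j := by
  by_cases hj : j = i
  · subst hj
    rw [Function.update_self]
    exact hd
  · rw [Function.update_of_ne hj]
    exact one_mem_Psi j

private theorem mem_stab_Psi {γ : Fin r → SL(2, ℝ)} (hγ : ∀ i, γ i ∈ Gi_Psi F κ i)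
    {δ : Equiv.Perm TFib.base.W} (hδ : δ ∈ TFib.base.Γ) (v : Fin TFib.k → ℤ) :
    dkE_Psi γ δ v ∈ Stab F κ := by
  have hx : EqvS F (((κ, Classical.arbitrary Fib.W) : X r)).1 κ := EqvS.refl κ
  refine mem_stab (mem_deck_Psi (fun i => (hγ i).1) hδ v) hx fun i => ?_
  refine ⟨?_, ?_⟩
  · have h1 : (F i).du (γ i • κ i) (κ i) = 0 := by
      rw [(F i).isTree_u.symm]
      exact (hγ i).2.1
    exact h1
  · have h1 : (F i).ds (γ i • κ i) (κ i) = 0 := by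
      rw [(F i).isTree_s.symm]
      exact (hγ i).2.2
    exact h1

private theorem exists_stab_Psi {a : Equiv.Perm (X r)} (ha : a ∈ Stab F κ) :
    ∃ (γ : Fin r → SL(2, ℝ)) (δ : Equiv.Perm TFib.base.W) (v : Fin TFib.k → ℤ),
      (∀ i, γ i ∈ Gi_Psi F κ i) ∧ δ ∈ TFib.base.Γ ∧ a = dkE_Psi γ δ v := by
  obtain ⟨γ, δ, v, h1, h2, rfl⟩ := exists_dkE_Psi ha.1
  refine ⟨γ, δ, v, fun i => ⟨h1 i, ?_, ?_⟩, h2, rfl⟩
  · rw [(F i).isTree_u.symm]
    have h3 := (ha.2 ((κ, Classical.arbitrary Fib.W) : X r) (EqvS.refl κ) i).1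
    exact h3
  · rw [(F i).isTree_s.symm]
    have h3 := (ha.2 ((κ, Classical.arbitrary Fib.W) : X r) (EqvS.refl κ) i).2
    exact h3

/-- The model map and the conjugation. -/
private structure Ctx_Psi (F : ∀ i, Flat (S i)) (κ : Fin r → ℍ) (H : Equiv.Perm (X r))
    (Bm : Matrix (Fin TFib.k) (Fin TFib.k) ℤ) (H₀ : Fin r → ℍ → ℍ)
    (δ₀ : Equiv.Perm TFib.base.W)
    (σ : (Fin r → ℍ) × TFib.base.W → (Fin TFib.k → ℝ)) : Prop where
  mem : ∀ a ∈ Stab F κ, H * a * H⁻¹ ∈ Stab F κ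
  fwd : ∀ a ∈ Stab F κ, ∀ x, sk H₀ δ₀ Bm σ (a x) = (H * a * H⁻¹ : Equiv.Perm (X r))
    (sk H₀ δ₀ Bm σ x)
  base : δ₀ ∈ TFib.base.Γ

variable {H : Equiv.Perm (X r)} {Bm : Matrix (Fin TFib.k) (Fin TFib.k) ℤ}
  {H₀ : Fin r → ℍ → ℍ} {δ₀ : Equiv.Perm TFib.base.W}
  {σ : (Fin r → ℍ) × TFib.base.W → (Fin TFib.k → ℝ)}

private theorem tr_mem_Psi (v : Fin TFib.k → ℤ) :
    dkE_Psi (1 : Fin r → SL(2, ℝ)) 1 v ∈ Stab F κ :=
  mem_stab_Psi (fun i => one_mem_Psi i) TFib.base.Γ.one_mem v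

private theorem conj_tr_Psi (h : Ctx_Psi F κ H Bm H₀ δ₀ σ) (v : Fin TFib.k → ℤ) :
    H * dkE_Psi 1 1 v * H⁻¹ = dkE_Psi 1 1 (Bm.mulVec v) := by
  have hm := tr_mem_Psi (F := F) (κ := κ) v
  refine eq_of_apply_eq (S := surf S) (p := sk H₀ δ₀ Bm σ (Classical.arbitrary (X r)))
    (h.mem _ hm).1 (tr_mem_Psi (F := F) (κ := κ) _).1 ?_
  rw [← h.fwd _ hm]
  obtain ⟨x, hx⟩ : ∃ x : X r, x = Classical.arbitrary (X r) := ⟨_, rfl⟩
  rw [← hx]
  refine Prod.ext (funext fun i => ?_) (Prod.ext rfl (funext fun j => ?_))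
  · show H₀ i ((1 : SL(2, ℝ)) • x.1 i) = (1 : SL(2, ℝ)) • H₀ i (x.1 i)
    rw [one_smul, one_smul]
  · show (lin Bm (fun j => x.2.2 j + (v j : ℝ)) +
      σ (fun i => (1 : SL(2, ℝ)) • x.1 i, x.2.1)) j =
      (lin Bm x.2.2 + σ (x.1, x.2.1)) j + ((Bm.mulVec v j : ℤ) : ℝ)
    have h1 : (fun j => x.2.2 j + (v j : ℝ)) = x.2.2 + fun j => (v j : ℝ) := rfl
    have h2 : (fun i => (1 : SL(2, ℝ)) • x.1 i) = x.1 := funext fun i => one_smul _ _
    rw [h1, h2, map_add, lin_int]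
    simp only [Pi.add_apply]
    ring

private theorem triv_Psi {i : Fin r} {d e : SL(2, ℝ)} (hd : d ∈ (S i).Γ) (he : e ∈ (S i).Γ)
    {w : ℍ} (h : d • w = e • w) (z : ℍ) : d • z = e • z := by
  have h1 : (e⁻¹ * d) • w = w := by
    rw [mul_smul, h, inv_smul_smul]
  have h2 := (surf S i).free (e⁻¹ * d) (mul_mem (inv_mem he) hd) w h1 z
  rw [mul_smul, inv_smul_eq_iff] at h2
  exact h2

private theorem conj_i_Psi (h : Ctx_Psi F κ H Bm H₀ δ₀ σ) {i : Fin r} {d e : SL(2, ℝ)}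
    (hd : d ∈ Gi_Psi F κ i) (he : e ∈ Gi_Psi F κ i)
    (hde : ∀ z, H₀ i (d • z) = e • H₀ i z) :
    ∃ v' : Fin TFib.k → ℤ, H * dkE_Psi (Function.update 1 i d) 1 0 * H⁻¹ =
      dkE_Psi (Function.update 1 i e) 1 v' := by
  have hm := mem_stab_Psi (F := F) (κ := κ) (fun j => upd_mem_Psi hd j) TFib.base.Γ.one_mem
    (0 : Fin TFib.k → ℤ)
  obtain ⟨γ', δ', v', h1, h2, h3⟩ := exists_stab_Psi (h.mem _ hm)
  have hf := h.fwd _ hm (Classical.arbitrary (X r))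
  rw [h3] at hf
  obtain ⟨x, hx⟩ : ∃ x : X r, x = Classical.arbitrary (X r) := ⟨_, rfl⟩
  rw [← hx] at hf
  refine ⟨v', ?_⟩
  rw [h3]
  refine Equiv.ext fun y => Prod.ext (funext fun j => ?_) (Prod.ext ?_ rfl)
  · show γ' j • y.1 j = Function.update (1 : Fin r → SL(2, ℝ)) i e j • y.1 j
    refine triv_Psi (S := S) (h1 j).1 (upd_mem_Psi he j).1 (w := H₀ j (x.1 j)) ?_ _
    have h4 : H₀ j (Function.update (1 : Fin r → SL(2, ℝ)) i d j • x.1 j) =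
      γ' j • H₀ j (x.1 j) := congrFun (congrArg Prod.fst hf) j
    rw [← h4]
    by_cases hj : j = i
    · subst hj
      rw [Function.update_self, Function.update_self, hde]
    · rw [Function.update_of_ne hj, Function.update_of_ne hj, Pi.one_apply, one_smul, one_smul]
  · have h4 : δ₀ x.2.1 = δ' (δ₀ x.2.1) := congrArg (fun x : X r => x.2.1) hf
    have h5 := TFib.base.free δ' h2 _ h4.symm
    show δ' y.2.1 = (1 : Equiv.Perm TFib.base.W) y.2.1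
    rw [h5]

private theorem conj_base_Psi (h : Ctx_Psi F κ H Bm H₀ δ₀ σ) {e : Equiv.Perm TFib.base.W}
    (he : e ∈ TFib.base.Γ) :
    ∃ v' : Fin TFib.k → ℤ, H * dkE_Psi 1 e 0 * H⁻¹ =
      dkE_Psi 1 (δ₀ * e * δ₀⁻¹) v' := by
  have hm := mem_stab_Psi (F := F) (κ := κ) (γ := 1) (fun j => one_mem_Psi j) he
    (0 : Fin TFib.k → ℤ)
  obtain ⟨γ', δ', v', h1, h2, h3⟩ := exists_stab_Psi (h.mem _ hm)
  have hf := h.fwd _ hm
  rw [h3] at hf
  refine ⟨v', ?_⟩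
  rw [h3]
  refine Equiv.ext fun y => Prod.ext (funext fun j => ?_) (Prod.ext ?_ rfl)
  · show γ' j • y.1 j = (1 : SL(2, ℝ)) • y.1 j
    obtain ⟨x, hx⟩ : ∃ x : X r, x = Classical.arbitrary (X r) := ⟨_, rfl⟩
    refine triv_Psi (S := S) (h1 j).1 (S j).Γ.one_mem (w := H₀ j (x.1 j)) ?_ _
    have h4 : H₀ j ((1 : SL(2, ℝ)) • x.1 j) =
      γ' j • H₀ j (x.1 j) := congrFun (congrArg Prod.fst (hf x)) j
    rw [← h4, one_smul, one_smul]
  · have h4 : δ₀ (e (δ₀⁻¹ y.2.1)) = δ' (δ₀ (δ₀⁻¹ y.2.1)) :=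
      congrArg (fun x : X r => x.2.1) (hf (y.1, (δ₀⁻¹ y.2.1, y.2.2)))
    have h5 : δ₀ (δ₀⁻¹ y.2.1) = y.2.1 := δ₀.apply_symm_apply _
    rw [h5] at h4
    exact h4.symm

/-- Additive functions which vanish at the translations. -/
private def Good_Psi (F : ∀ i, Flat (S i)) (κ : Fin r → ℍ) (η : Equiv.Perm (X r) → ℝ) : Prop :=
  Typ.AddOn (Stab F κ : Set (Equiv.Perm (X r))) η ∧
    ∀ v : Fin TFib.k → ℤ, η (dkE_Psi 1 1 v) = 0

variable {η : Equiv.Perm (X r) → ℝ}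

private theorem good_Dl_Psi (h : Ctx_Psi F κ H Bm H₀ δ₀ σ) (hη : Good_Psi F κ η) :
    Good_Psi F κ (Typ.Dl H η) := by
  refine ⟨hη.1.Dl h.mem, fun v => ?_⟩
  unfold Typ.Dl
  rw [conj_tr_Psi h, hη.2, hη.2, sub_zero]

private theorem good_iter_Psi (h : Ctx_Psi F κ H Bm H₀ δ₀ σ) (hη : Good_Psi F κ η) (n : ℕ) :
    Good_Psi F κ ((Typ.Dl H)^[n] η) := by
  induction n with
  | zero => exact hη
  | succ n ih =>
    rw [Function.iterate_succ_apply']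
    exact good_Dl_Psi h ih

private theorem good_v_Psi (hη : Good_Psi F κ η) {γ : Fin r → SL(2, ℝ)}
    (hγ : ∀ i, γ i ∈ Gi_Psi F κ i) {δ : Equiv.Perm TFib.base.W} (hδ : δ ∈ TFib.base.Γ)
    (v : Fin TFib.k → ℤ) : η (dkE_Psi γ δ v) = η (dkE_Psi γ δ 0) := by
  have h1 : dkE_Psi γ δ v = dkE_Psi γ δ 0 * dkE_Psi 1 1 v := by
    rw [dkE_mul_Psi, mul_one, mul_one, zero_add]
  rw [h1, hη.1 _ (mem_stab_Psi hγ hδ 0) _ (tr_mem_Psi v), hη.2, add_zero]

private theorem split_Psi (hη : Good_Psi F κ η) {γ : Fin r → SL(2, ℝ)}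
    (hγ : ∀ i, γ i ∈ Gi_Psi F κ i) {δ : Equiv.Perm TFib.base.W} (hδ : δ ∈ TFib.base.Γ)
    (v : Fin TFib.k → ℤ) : η (dkE_Psi γ δ v) =
      ∑ i, η (dkE_Psi (Function.update 1 i (γ i)) 1 0) + η (dkE_Psi 1 δ 0) := by
  classical
  have key : ∀ t : Finset (Fin r), η (dkE_Psi (fun i => if i ∈ t then γ i else 1) 1 0) =
      ∑ i ∈ t, η (dkE_Psi (Function.update 1 i (γ i)) 1 0) := by
    intro t
    induction t using Finset.induction_on with
    | empty =>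
      have h1 : (fun i : Fin r => if i ∈ (∅ : Finset (Fin r)) then γ i else 1) = 1 := by
        funext i
        simp
      rw [h1, Finset.sum_empty]
      exact hη.2 0
    | insert a t ha ih =>
      have h1 : dkE_Psi (fun i => if i ∈ insert a t then γ i else 1) 1 0 =
          dkE_Psi (Function.update 1 a (γ a)) 1 0 *
            dkE_Psi (fun i => if i ∈ t then γ i else 1) 1 0 := by
        rw [dkE_mul_Psi, mul_one, add_zero]
        congr 1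
        funext i
        rw [Pi.mul_apply]
        by_cases hi : i = a
        · subst hi
          rw [if_pos (Finset.mem_insert_self _ _), Function.update_self, if_neg ha, mul_one]
        · rw [Function.update_of_ne hi, Pi.one_apply, one_mul]
          by_cases hit : i ∈ t
          · rw [if_pos hit, if_pos (Finset.mem_insert_of_mem hit)]
          · rw [if_neg hit, if_neg fun hh => (Finset.mem_insert.1 hh).elim hi hit]
      have h2 : ∀ i, (fun i => if i ∈ t then γ i else (1 : SL(2, ℝ))) i ∈ Gi_Psi F κ i := by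
        intro i
        by_cases hit : i ∈ t
        · simp only [if_pos hit]
          exact hγ i
        · simp only [if_neg hit]
          exact one_mem_Psi i
      rw [h1, hη.1 _ (mem_stab_Psi (fun j => upd_mem_Psi (hγ a) j) TFib.base.Γ.one_mem 0) _
        (mem_stab_Psi h2 TFib.base.Γ.one_mem 0), ih, Finset.sum_insert ha]
  have h1 : dkE_Psi γ δ v = dkE_Psi γ 1 0 * dkE_Psi 1 δ v := by
    rw [dkE_mul_Psi, mul_one, one_mul, zero_add]
  have h2 := key Finset.univ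
  simp only [Finset.mem_univ, if_true] at h2
  rw [h1, hη.1 _ (mem_stab_Psi hγ TFib.base.Γ.one_mem 0) _
    (mem_stab_Psi (γ := 1) (fun j => one_mem_Psi j) hδ v),
    good_v_Psi hη (γ := 1) (fun j => one_mem_Psi j) hδ v]
  exact congrArg (· + η (dkE_Psi 1 δ 0)) h2

private theorem Dl_i_Psi (h : Ctx_Psi F κ H Bm H₀ δ₀ σ) (hη : Good_Psi F κ η) {i : Fin r}
    {d e : SL(2, ℝ)} (hd : d ∈ Gi_Psi F κ i) (he : e ∈ Gi_Psi F κ i)
    (hde : ∀ z, H₀ i (d • z) = e • H₀ i z) :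
    Typ.Dl H η (dkE_Psi (Function.update 1 i d) 1 0) =
      η (dkE_Psi (Function.update 1 i e) 1 0) - η (dkE_Psi (Function.update 1 i d) 1 0) := by
  obtain ⟨v', hv'⟩ := conj_i_Psi h hd he hde
  unfold Typ.Dl
  rw [hv', good_v_Psi hη (fun j => upd_mem_Psi he j) TFib.base.Γ.one_mem]

private theorem Dl_base_Psi (h : Ctx_Psi F κ H Bm H₀ δ₀ σ) (hη : Good_Psi F κ η)
    {e : Equiv.Perm TFib.base.W} (he : e ∈ TFib.base.Γ) :
    Typ.Dl H η (dkE_Psi 1 e 0) = 0 := by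
  obtain ⟨v', hv'⟩ := conj_base_Psi h he
  have hb := h.base
  have h1 : δ₀ * e * δ₀⁻¹ ∈ TFib.base.Γ := mul_mem (mul_mem hb he) (inv_mem hb)
  have h2 : dkE_Psi (1 : Fin r → SL(2, ℝ)) (δ₀ * e * δ₀⁻¹) 0 =
      dkE_Psi 1 δ₀ 0 * dkE_Psi 1 e 0 * (dkE_Psi 1 δ₀ 0)⁻¹ := by
    rw [eq_mul_inv_iff_mul_eq, dkE_mul_Psi, dkE_mul_Psi]
    simp
  unfold Typ.Dl
  rw [hv', good_v_Psi hη (γ := 1) (fun j => one_mem_Psi j) h1, h2,
    hη.1.conj (mem_stab_Psi (γ := 1) (fun j => one_mem_Psi j) hb 0)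
      (mem_stab_Psi (γ := 1) (fun j => one_mem_Psi j) he 0), sub_self]

private theorem iter_i_Psi (h : Ctx_Psi F κ H Bm H₀ δ₀ σ) (hη : Good_Psi F κ η) {i : Fin r}
    {ψ : SL(2, ℝ) → SL(2, ℝ)} (hψ : ∀ d ∈ Gi_Psi F κ i, ψ d ∈ Gi_Psi F κ i ∧
      ∀ z : ℍ, H₀ i (d • z) = ψ d • H₀ i z) (n : ℕ) : ∀ d ∈ Gi_Psi F κ i,
    (Typ.Dl H)^[n] η (dkE_Psi (Function.update 1 i d) 1 0) =
      (fun (h : SL(2, ℝ) → ℝ) δ => h (ψ δ) - h δ)^[n]
        (fun d => η (dkE_Psi (Function.update 1 i d) 1 0)) d := by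
  induction n with
  | zero =>
    intro d _
    rfl
  | succ n ih =>
    intro d hd
    rw [Function.iterate_succ_apply', Function.iterate_succ_apply',
      Dl_i_Psi h (good_iter_Psi h hη n) hd (hψ d hd).1 (hψ d hd).2, ih _ (hψ d hd).1, ih _ hd]

private theorem exists_ψ_Psi (h : Ctx_Psi F κ H Bm H₀ δ₀ σ) (i : Fin r) :
    ∃ ψ : SL(2, ℝ) → SL(2, ℝ), ∀ d ∈ Gi_Psi F κ i, ψ d ∈ Gi_Psi F κ i ∧
      ∀ z : ℍ, H₀ i (d • z) = ψ d • H₀ i z := by
  have key : ∀ d, ∃ e : SL(2, ℝ), d ∈ Gi_Psi F κ i → e ∈ Gi_Psi F κ i ∧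
      ∀ z : ℍ, H₀ i (d • z) = e • H₀ i z := by
    intro d
    by_cases hd : d ∈ Gi_Psi F κ i
    · have hm := mem_stab_Psi (F := F) (κ := κ) (fun j => upd_mem_Psi hd j)
        TFib.base.Γ.one_mem (0 : Fin TFib.k → ℤ)
      obtain ⟨γ', δ', v', h1, h2, h3⟩ := exists_stab_Psi (h.mem _ hm)
      refine ⟨γ' i, fun _ => ⟨h1 i, fun z => ?_⟩⟩
      have hf := h.fwd _ hm ((fun _ => z, Classical.arbitrary Fib.W) : X r)
      rw [h3] at hf
      have h4 : H₀ i (Function.update (1 : Fin r → SL(2, ℝ)) i d i • z) =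
        γ' i • H₀ i z := congrFun (congrArg Prod.fst hf) i
      rw [Function.update_self] at h4
      exact h4
    · exact ⟨1, fun hd' => absurd hd' hd⟩
  choose ψ hψ using key
  exact ⟨ψ, hψ⟩

private theorem van_Psi {Gs : Set SL(2, ℝ)} {ψ : SL(2, ℝ) → SL(2, ℝ)}
    (hψ : ∀ d ∈ Gs, ψ d ∈ Gs) {f : SL(2, ℝ) → ℝ} {n : ℕ}
    (hf : ∀ d ∈ Gs, (fun (h : SL(2, ℝ) → ℝ) δ => h (ψ δ) - h δ)^[n] f d = 0) (l : ℕ) :
    ∀ d ∈ Gs, (fun (h : SL(2, ℝ) → ℝ) δ => h (ψ δ) - h δ)^[l + n] f d = 0 := by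
  induction l with
  | zero =>
    rw [Nat.zero_add]
    exact hf
  | succ l ih =>
    intro d hd
    rw [Nat.succ_add, Function.iterate_succ_apply']
    show _ - _ = _
    rw [ih _ (hψ d hd), ih _ hd, sub_zero]

private theorem delta_Psi (h : Ctx_Psi F κ H Bm H₀ δ₀ σ)
    (hu : ∀ i, UnipOn (Gi_Psi F κ i) (H₀ i)) :
    ∃ M : ℕ, ∀ η, Good_Psi F κ η → ∀ a ∈ Stab F κ, (Typ.Dl H)^[M] η a = 0 := by
  choose n hn using hu
  refine ⟨(∑ i, n i) + 1, fun η hη a ha => ?_⟩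
  obtain ⟨γ, δ, v, h1, h2, rfl⟩ := exists_stab_Psi ha
  rw [split_Psi (good_iter_Psi h hη _) h1 h2 v]
  have h3 : (Typ.Dl H)^[(∑ i, n i) + 1] η (dkE_Psi 1 δ 0) = 0 := by
    rw [Function.iterate_succ_apply']
    exact Dl_base_Psi h (good_iter_Psi h hη _) h2
  rw [h3, add_zero]
  refine Finset.sum_eq_zero fun i _ => ?_
  obtain ⟨ψ, hψ⟩ := exists_ψ_Psi h i
  rw [iter_i_Psi h hη hψ _ _ (h1 i)]
  obtain ⟨l, hl⟩ : ∃ l, (∑ i, n i) + 1 = l + n i := by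
    have h4 := Finset.single_le_sum (f := n) (fun j _ => Nat.zero_le _) (Finset.mem_univ i)
    exact ⟨(∑ i, n i) + 1 - n i, by omega⟩
  rw [hl]
  refine van_Psi (Gs := Gi_Psi F κ i) (fun d hd => (hψ d hd).1) (fun d hd => ?_) l _ (h1 i)
  refine hn i ψ hψ _ (fun a ha b hb => ?_) d hd
  have h5 : dkE_Psi (Function.update 1 i (a * b)) 1 0 =
      dkE_Psi (Function.update 1 i a) 1 0 * dkE_Psi (Function.update 1 i b) 1 0 := by
    rw [dkE_mul_Psi, mul_one, add_zero]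
    congr 1
    funext j
    rw [Pi.mul_apply]
    by_cases hj : j = i
    · subst hj
      rw [Function.update_self, Function.update_self, Function.update_self]
    · rw [Function.update_of_ne hj, Function.update_of_ne hj, Function.update_of_ne hj,
        Pi.one_apply, mul_one]
  rw [h5, hη.1 _ (mem_stab_Psi (fun j => upd_mem_Psi ha j) TFib.base.Γ.one_mem 0) _
    (mem_stab_Psi (fun j => upd_mem_Psi hb j) TFib.base.Γ.one_mem 0)]

private theorem conj_pow_tr_Psi (h : Ctx_Psi F κ H Bm H₀ δ₀ σ) (v : Fin TFib.k → ℤ) (n : ℕ) :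
    ∃ w : Fin TFib.k → ℤ, H ^ n * dkE_Psi 1 1 v * (H ^ n)⁻¹ = dkE_Psi 1 1 w := by
  induction n with
  | zero => exact ⟨v, by simp⟩
  | succ n ih =>
    obtain ⟨w, hw⟩ := ih
    refine ⟨Bm.mulVec w, ?_⟩
    rw [← conj_tr_Psi h, ← hw, pow_succ']
    group

private theorem main_Psi (h : Ctx_Psi F κ H Bm H₀ δ₀ σ) (hdet : (Bm - 1).det ≠ 0)
    (hu : ∀ i, UnipOn (Gi_Psi F κ i) (H₀ i)) :
    ∃ (q : ℕ) (ψ : Equiv.Perm (X r) → Fin TFib.k → ℝ), 0 < q ∧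
      (∀ a ∈ Stab F κ, ∀ b ∈ Stab F κ, ψ (a * b) = ψ a + ψ b) ∧
      (∀ v : Fin TFib.k → ℤ, ψ (dkE_Psi 1 1 v) = fun j => (v j : ℝ)) ∧
      (∀ a ∈ Stab F κ, ψ (H * a * H⁻¹) = lin Bm (ψ a)) ∧
      ∀ a ∈ Stab F κ, ∃ w : Fin TFib.k → ℤ, ∀ j, (q : ℝ) * ψ a j = w j := by
  obtain ⟨c, hc⟩ : ∃ c : Equiv.Perm (X r) → Fin TFib.k → ℤ,
    c = fun a => vec_Psi (H * a * H⁻¹) - Bm.mulVec (vec_Psi a) := ⟨_, rfl⟩
  have hcadd : ∀ a ∈ Stab F κ, ∀ b ∈ Stab F κ, c (a * b) = c a + c b := by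
    intro a ha b hb
    have h1 : H * (a * b) * H⁻¹ = (H * a * H⁻¹) * (H * b * H⁻¹) := by group
    simp only [hc]
    rw [h1, vec_mul_Psi (h.mem a ha).1 (h.mem b hb).1, vec_mul_Psi ha.1 hb.1,
      Matrix.mulVec_add]
    abel
  have hctr : ∀ v : Fin TFib.k → ℤ, c (dkE_Psi 1 1 v) = 0 := by
    intro v
    simp only [hc]
    rw [conj_tr_Psi h, vec_dkE_Psi, vec_dkE_Psi, sub_self]
  obtain ⟨M, hM⟩ := delta_Psi h hu
  obtain ⟨b, hb1, hb2, hb3, hb4⟩ := exists_char (s := Stab F κ) (H := H) h.mem hdet hcadd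
    (M := M) (fun j p hp => hM _ ⟨fun a ha b hb => by
      have h1 := congrFun (hcadd a ha b hb) j
      rw [Pi.add_apply] at h1
      beta_reduce
      rw [h1]
      push_cast
      rfl, fun v => by
      beta_reduce
      rw [hctr]
      simp⟩ p hp)
  refine ⟨((Bm - 1).det ^ M).natAbs, fun a j => (vec_Psi a j : ℝ) + b a j, ?_, ?_, ?_, ?_, ?_⟩
  · exact Int.natAbs_pos.2 (pow_ne_zero M hdet)
  · intro a ha a' ha'
    funext j
    show ((vec_Psi (a * a') j : ℤ) : ℝ) + b (a * a') j =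
      (((vec_Psi a j : ℤ) : ℝ) + b a j) + (((vec_Psi a' j : ℤ) : ℝ) + b a' j)
    rw [vec_mul_Psi ha.1 ha'.1, hb1 a ha a' ha', Pi.add_apply, Pi.add_apply]
    push_cast
    ring
  · intro v
    funext j
    have h1 : b (dkE_Psi 1 1 v) = 0 := hb4 _ (tr_mem_Psi v) fun i => by
      obtain ⟨w, hw⟩ := conj_pow_tr_Psi h v i
      rw [hw, hctr]
    show ((vec_Psi (dkE_Psi (1 : Fin r → SL(2, ℝ)) 1 v) j : ℤ) : ℝ) + b (dkE_Psi 1 1 v) j = v j
    rw [vec_dkE_Psi, h1, Pi.zero_apply, add_zero]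
  · intro a ha
    have h1 : (fun j => (vec_Psi a j : ℝ) + b a j) = (fun j => (vec_Psi a j : ℝ)) + b a := rfl
    show (fun j => ((vec_Psi (H * a * H⁻¹) j : ℤ) : ℝ) + b (H * a * H⁻¹) j) =
      lin Bm (fun j => (vec_Psi a j : ℝ) + b a j)
    rw [h1, map_add, lin_int, hb2 a ha, lin_apply]
    funext j
    have h2 : c a = vec_Psi (H * a * H⁻¹) - Bm.mulVec (vec_Psi a) := by rw [hc]
    have h3 : (c a j : ℝ) = (vec_Psi (H * a * H⁻¹) j : ℝ) -
        ((Bm.mulVec (vec_Psi a) j : ℤ) : ℝ) := by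
      rw [h2, Pi.sub_apply]
      push_cast
      rfl
    simp only [Pi.add_apply, Pi.sub_apply]
    rw [h3]
    ring
  · intro a ha
    obtain ⟨w, hw⟩ := hb3 a ha
    obtain ⟨D, hD⟩ : ∃ D : ℤ, D = (Bm - 1).det ^ M := ⟨_, rfl⟩
    rw [← hD] at hw ⊢
    rcases Int.natAbs_eq D with h1 | h1
    · refine ⟨fun j => (D.natAbs : ℤ) * vec_Psi a j + w j, fun j => ?_⟩
      have h2 : (D : ℝ) = ((D.natAbs : ℕ) : ℝ) := by
        have h3 := congrArg (Int.cast : ℤ → ℝ) h1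
        rw [Int.cast_natCast] at h3
        exact h3
      have h4 := hw j
      rw [h2] at h4
      rw [Int.cast_add, Int.cast_mul, Int.cast_natCast, ← h4]
      ring
    · refine ⟨fun j => (D.natAbs : ℤ) * vec_Psi a j - w j, fun j => ?_⟩
      have h2 : (D : ℝ) = -((D.natAbs : ℕ) : ℝ) := by
        have h3 := congrArg (Int.cast : ℤ → ℝ) h1
        rw [Int.cast_neg, Int.cast_natCast] at h3
        exact h3
      have h4 := hw j
      rw [h2] at h4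
      rw [Int.cast_sub, Int.cast_mul, Int.cast_natCast, ← h4]
      ring

theorem exists_psi (N : ∀ i, Normal (S i)) {A : Matrix (Fin TFib.k) (Fin TFib.k) ℤ}
    {τ : B r → Fin TFib.k → ℝ} (hτ : IsTwist (surf S) τ) {Φ T : X r ≃ₜ X r} {m : ℕ}
    {g : Equiv.Perm (X r)} {κ : Fin r → ℍ}
    (h : IsFix (fun i => (N i).toNormalForm.flat) (skew S A τ) Φ T m g κ)
    (hdet : (1 - A ^ m).det ≠ 0)
    (hu : ∀ (γ : Fin r → SL(2, ℝ)) (δ : Equiv.Perm TFib.base.W) (v : Fin TFib.k → ℤ),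
      (∀ i, γ i ∈ (S i).Γ) → (∀ x, g x = dkT γ δ v x) → ∀ i,
        UnipOn (stabSet (S i).Γ (N i).du (N i).ds (κ i)) (fun z => γ i • (S i).f^[m] z)) :
    ∃ (q : ℕ) (ψ : Equiv.Perm (X r) → Fin TFib.k → ℝ), 0 < q ∧
      (∀ a ∈ Stab (fun i => (N i).toNormalForm.flat) κ,
        ∀ b ∈ Stab (fun i => (N i).toNormalForm.flat) κ, ψ (a * b) = ψ a + ψ b) ∧
      (∀ (v : Fin TFib.k → ℤ) (a : Equiv.Perm (X r)), (∀ x, a x = dkT (fun _ => 1) 1 v x) →
        ψ a = fun j => (v j : ℝ)) ∧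
      (∀ a ∈ Stab (fun i => (N i).toNormalForm.flat) κ,
        ∀ a' ∈ Stab (fun i => (N i).toNormalForm.flat) κ, (∀ x, T (a x) = a' (T x)) →
          ψ a' = lin (A ^ m) (ψ a)) ∧
      ∀ a ∈ Stab (fun i => (N i).toNormalForm.flat) κ, ∃ w : Fin TFib.k → ℤ,
        ∀ j, (q : ℝ) * ψ a j = w j := by
  obtain ⟨γ₀, δ₀, v₀, hγ₀, hδ₀, hg⟩ := isDeck_iff.1 h.deck
  obtain ⟨σ, -, hσ⟩ := exists_iterate_sk (h := fun i => (S i).f) (η := id) (A := A) (σ := τ)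
    (fun i => (S i).f.continuous) continuous_id hτ.cont m
  have hid : (id : TFib.base.W → TFib.base.W)^[m] = id := Function.iterate_id m
  rw [hid, ← skew_eq] at hσ
  have hg' : ∀ x, g x = dkT γ₀ δ₀ v₀ x := fun x => congrFun hg x
  have hM : ∀ x, g ((skew S A τ)^[m] x) = sk (fun i z => γ₀ i • (S i).f^[m] z) δ₀ (A ^ m)
      (fun q => σ q + fun j => (v₀ j : ℝ)) x := by
    intro x
    rw [hσ, hg']
    exact congrFun (dkT_sk γ₀ δ₀ v₀) x
  have hctx : Ctx_Psi (fun i => (N i).toNormalForm.flat) κ T.toEquiv (A ^ m)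
      (fun i z => γ₀ i • (S i).f^[m] z) δ₀ (fun q => σ q + fun j => (v₀ j : ℝ)) := by
    have hconj : ∀ a ∈ Stab (fun i => (N i).toNormalForm.flat) κ,
        ∀ a' : Equiv.Perm (X r), (∀ p, T (a p) = a' (T p)) →
          (T.toEquiv : Equiv.Perm (X r)) * a * (T.toEquiv : Equiv.Perm (X r))⁻¹ = a' := by
      intro a _ a' ha'
      rw [mul_inv_eq_iff_eq_mul]
      exact Equiv.ext fun x => ha' x
    refine ⟨fun a ha => ?_, fun a ha x => ?_, hδ₀⟩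
    · obtain ⟨a', ha', -, h2⟩ := h.fwd ha
      rw [hconj a ha a' h2]
      exact ha'
    · obtain ⟨a', ha', h1, h2⟩ := h.fwd ha
      rw [hconj a ha a' h2, ← hM, ← hM]
      exact h1 x
  have hdet' : (A ^ m - 1).det ≠ 0 := by
    rw [← neg_sub, Matrix.det_neg]
    exact mul_ne_zero (pow_ne_zero _ (by norm_num)) hdet
  obtain ⟨q, ψ, h1, h2, h3, h4, h5⟩ := main_Psi hctx hdet' (hu γ₀ δ₀ v₀ hγ₀ hg')
  refine ⟨q, ψ, h1, h2, fun v a ha => ?_, fun a ha a' ha' haa' => ?_, h5⟩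
  · have h6 : a = dkE_Psi 1 1 v := Equiv.ext ha
    rw [h6, h3]
  · have h6 : a' = (T.toEquiv : Equiv.Perm (X r)) * a * (T.toEquiv : Equiv.Perm (X r))⁻¹ := by
      rw [eq_mul_inv_iff_mul_eq]
      exact Equiv.ext fun x => (haa' x).symm
    rw [h6, h4 a ha]

/-- The context of a lift which fixes a type. -/
private theorem ctx_Psi (N : ∀ i, Normal (S i)) {A : Matrix (Fin TFib.k) (Fin TFib.k) ℤ}
    {τ : B r → Fin TFib.k → ℝ} (hτ : IsTwist (surf S) τ) {Φ T : X r ≃ₜ X r} {m : ℕ}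
    {g : Equiv.Perm (X r)} {κ : Fin r → ℍ}
    (h : IsFix (fun i => (N i).toNormalForm.flat) (skew S A τ) Φ T m g κ)
    {γ₀ : Fin r → SL(2, ℝ)} {δ₀ : Equiv.Perm TFib.base.W} {v₀ : Fin TFib.k → ℤ}
    (hδ₀ : δ₀ ∈ TFib.base.Γ) (hg' : ∀ x, g x = dkT γ₀ δ₀ v₀ x) :
    ∃ σ, Ctx_Psi (fun i => (N i).toNormalForm.flat) κ T.toEquiv (A ^ m)
      (fun i z => γ₀ i • (S i).f^[m] z) δ₀ σ := by
  obtain ⟨σ, -, hσ⟩ := exists_iterate_sk (h := fun i => (S i).f) (η := id) (A := A) (σ := τ)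
    (fun i => (S i).f.continuous) continuous_id hτ.cont m
  have hid : (id : TFib.base.W → TFib.base.W)^[m] = id := Function.iterate_id m
  rw [hid, ← skew_eq] at hσ
  have hM : ∀ x, g ((skew S A τ)^[m] x) = sk (fun i z => γ₀ i • (S i).f^[m] z) δ₀ (A ^ m)
      (fun q => σ q + fun j => (v₀ j : ℝ)) x := by
    intro x
    rw [hσ, hg']
    exact congrFun (dkT_sk γ₀ δ₀ v₀) x
  have hconj : ∀ a ∈ Stab (fun i => (N i).toNormalForm.flat) κ,
      ∀ a' : Equiv.Perm (X r), (∀ p, T (a p) = a' (T p)) →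
        (T.toEquiv : Equiv.Perm (X r)) * a * (T.toEquiv : Equiv.Perm (X r))⁻¹ = a' := by
    intro a _ a' ha'
    rw [mul_inv_eq_iff_eq_mul]
    exact Equiv.ext fun x => ha' x
  refine ⟨fun q => σ q + fun j => (v₀ j : ℝ), fun a ha => ?_, fun a ha x => ?_, hδ₀⟩
  · obtain ⟨a', ha', -, h2⟩ := h.fwd ha
    rw [hconj a ha a' h2]
    exact ha'
  · obtain ⟨a', ha', h1, h2⟩ := h.fwd ha
    rw [hconj a ha a' h2, ← hM, ← hM]
    exact h1 x

/-- The conjugation with the lift is unipotent on the additive functions on the stabiliser which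
vanish at the translations. -/
theorem unip_stab (N : ∀ i, Normal (S i)) {A : Matrix (Fin TFib.k) (Fin TFib.k) ℤ}
    {τ : B r → Fin TFib.k → ℝ} (hτ : IsTwist (surf S) τ) {Φ T : X r ≃ₜ X r} {m : ℕ}
    {g : Equiv.Perm (X r)} {κ : Fin r → ℍ}
    (h : IsFix (fun i => (N i).toNormalForm.flat) (skew S A τ) Φ T m g κ)
    (hu : ∀ (γ : Fin r → SL(2, ℝ)) (δ : Equiv.Perm TFib.base.W) (v : Fin TFib.k → ℤ),
      (∀ i, γ i ∈ (S i).Γ) → (∀ x, g x = dkT γ δ v x) → ∀ i,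
        UnipOn (stabSet (S i).Γ (N i).du (N i).ds (κ i)) (fun z => γ i • (S i).f^[m] z)) :
    ∃ M : ℕ, ∀ η : Equiv.Perm (X r) → ℝ,
      (∀ a ∈ Stab (fun i => (N i).toNormalForm.flat) κ,
        ∀ b ∈ Stab (fun i => (N i).toNormalForm.flat) κ, η (a * b) = η a + η b) →
      (∀ (v : Fin TFib.k → ℤ) (a : Equiv.Perm (X r)), (∀ x, a x = dkT (fun _ => 1) 1 v x) →
        η a = 0) →
      ∀ a ∈ Stab (fun i => (N i).toNormalForm.flat) κ,
        (Typ.Dl (T.toEquiv : Equiv.Perm (X r)))^[M] η a = 0 := by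
  obtain ⟨γ₀, δ₀, v₀, hγ₀, hδ₀, hg⟩ := isDeck_iff.1 h.deck
  have hg' : ∀ x, g x = dkT γ₀ δ₀ v₀ x := fun x => congrFun hg x
  obtain ⟨σ, hctx⟩ := ctx_Psi N hτ h hδ₀ hg'
  obtain ⟨M, hM⟩ := delta_Psi hctx (hu γ₀ δ₀ v₀ hγ₀ hg')
  exact ⟨M, fun η h1 h2 a ha => hM η ⟨h1, fun v => h2 v _ fun x => rfl⟩ a ha⟩

end Pool.Agent.ANO5.Hyp
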