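import Pool.Agent.ANO5.Defs
import Pool.Agent.ANO5.Hyp.Phi
import Pool.Agent.ANO5.Hyp.Skew
import Pool.Agent.ANO5.Hyp.Stab

/-!
# ANO5, module Hyp: `A` has no root of unity as an eigenvalue (package HYP-ROOT)

`countable_fix`: the fixed points of a lift `γ • f^[n]`, `n > 0`, are countable.  PROOF.  At most
one of them is in `U`: if `z, z' ∈ U` are fixed by the lift `H` (`exists_liftPow`), then
`du z z' = du (H z) (H z') ≥ l ^ n * du z z'` (`Flat.du_lift` for `N.flat`), so `du z z' = 0`, and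
`ds z z' = 0` in the same way, so `z = z'` (`Flat.eq_of_zero`).  The fixed points `z ∉ U` are
periodic, so by `N.finite` each of them is `γ'⁻¹ • a` with `γ' ∈ Γ` and `a` in a finite set; `Γ` is
countable: fix a point `z₀`, `Γ` is the union over `n` of the sets
`{γ ∈ Γ | γ • z₀ ∈ closedBall z₀ n}`, which are finite by `S.proper` (see the private lemmas in
`Pool/Agent/ANO3/Cnt/Sep.lean` or `Hyp/Phi.lean` for the same argument).

`det_ne_zero`.  PROOF.  Suppose that `det (1 - A^n) = 0`.  There is a real vector `ℓ ≠ 0` with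
`ℓ ᵥ* (1 - A^n) = 0` over `ℝ` (`Matrix.exists_vecMul_eq_zero_iff`, the determinant of the real
matrix is the cast of `det (1 - A^n)`), so `ℓ ⬝ᵥ t = ℓ ⬝ᵥ lin (A ^ n) t` for all `t` (`lin_apply`).
`skew S A τ ^[n] = sk (fun i => (S i).f^[n]) id (A ^ n) σ` with `σ` continuous (`skew_eq`,
`exists_iterate_sk`, `Function.iterate_id`).  Let `φ` be the map of `@exists_phi TFib.base`.  For
`s : ℝ` let `G s = sk (fun i => (S i).f^[n]) φ (A ^ n) (fun q => σ q + s • ℓ)`, a continuous map;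
`Homotopic (surf S) (G s) (T ^ n)` by `homotopic_iterate` and `homotopic_sk` (`η = id`: if
`δ y = δ' y` for all `y` then `δ = δ'`, and `φ` commutes with `δ`).  By `A3.Grp.no_fix`
(contraposition) and `hp` there is `x` with `g (G s x) = x`.  Let `g = dkT γ δ v`
(`Hyp.isDeck_iff`).  The components: `γ i • (S i).f^[n] (x.1 i) = x.1 i`;
`δ (φ x.2.1) = x.2.1`, so `δ = 1` and `φ x.2.1 = x.2.1` by the properties of `φ`;
`lin (A ^ n) x.2.2 + (σ (x.1, x.2.1) + s • ℓ) + v = x.2.2`.  Apply `ℓ ⬝ᵥ`: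
`ℓ ⬝ᵥ (σ (x.1, x.2.1) + v) + s * (ℓ ⬝ᵥ ℓ) = 0`.  So each `s : ℝ` is of the form
`- ℓ ⬝ᵥ (σ q + v) / (ℓ ⬝ᵥ ℓ)` with `q` in the set
`{q | (∀ i, γ i • (S i).f^[n] (q.1 i) = q.1 i) ∧ φ q.2 = q.2}`, which is countable
(`countable_fix`, `Set.countable_pi` or `Set.Countable.pi`, the last property in `exists_phi`,
`Set.Countable.prod`).  But `ℝ` is not countable.
-/

set_option autoImplicit false

open Set Filter Topology
open scoped UpperHalfPlane MatrixGroups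

namespace Pool.Agent.ANO5.Hyp

open Pool.Agent.ANO3
open Pool.Agent.ANO5.A1 Pool.Agent.ANO5.A2 Pool.Agent.ANO5.A3.Grp Pool.Agent.ANO5.Lin
open Pool.Agent.ANO5.Tor (skew IsTwist B)

private theorem gamma_countable_Root (S : SurfaceMap) : {γ : SL(2, ℝ) | γ ∈ S.Γ}.Countable := by
  have h1 : {γ : SL(2, ℝ) | γ ∈ S.Γ} ⊆ ⋃ n : ℕ, {γ : SL(2, ℝ) | γ ∈ S.Γ ∧
      ∃ z ∈ Metric.closedBall UpperHalfPlane.I (n : ℝ),
        γ • z ∈ Metric.closedBall UpperHalfPlane.I (n : ℝ)} := by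
    intro γ hγ
    obtain ⟨n, hn⟩ := exists_nat_ge (dist (γ • UpperHalfPlane.I) UpperHalfPlane.I)
    refine mem_iUnion.2 ⟨n, hγ, UpperHalfPlane.I,
      Metric.mem_closedBall_self (Nat.cast_nonneg n), ?_⟩
    exact Metric.mem_closedBall.2 hn
  exact (countable_iUnion fun n : ℕ =>
    (S.proper _ (isCompact_closedBall _ _)).countable).mono h1

theorem countable_fix {S : SurfaceMap} (N : NormalForm S) {n : ℕ} (hn : 0 < n) {γ : SL(2, ℝ)}
    (hγ : γ ∈ S.Γ) : {z : ℍ | γ • S.f^[n] z = z}.Countable := by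
  obtain ⟨H, hH, hHz⟩ := exists_liftPow (S := S) n hγ
  obtain ⟨A, hA, hAz⟩ := N.finite
  have h1 : {z : ℍ | γ • S.f^[n] z = z} ⊆ {z : ℍ | z ∈ N.U ∧ γ • S.f^[n] z = z} ∪
      ⋃ γ' ∈ {γ : SL(2, ℝ) | γ ∈ S.Γ}, (fun a : ℍ => γ'⁻¹ • a) '' A := by
    intro z hz
    by_cases hU : z ∈ N.U
    · exact Or.inl ⟨hU, hz⟩
    · obtain ⟨γ', hγ', h2⟩ := hAz z hU ⟨n, γ, hn, hγ, hz⟩
      exact Or.inr (mem_iUnion₂.2 ⟨γ', hγ', γ' • z, h2, inv_smul_smul γ' z⟩)
  refine Countable.mono h1 (Countable.union ?_ ?_)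
  · have h3 : {z : ℍ | z ∈ N.U ∧ γ • S.f^[n] z = z}.Subsingleton := by
      rintro z ⟨hz, hz'⟩ w ⟨hw, hw'⟩
      exact Flat.eq_of_fixed (F := N.flat) hw hn hH ((hHz w).trans hw') ((hHz z).trans hz')
    exact h3.finite.countable
  · exact (gamma_countable_Root S).biUnion fun γ' _ => hA.countable.image _

variable [TFib] {r : ℕ} {S : Fin r → SurfaceMap}

theorem det_ne_zero (N : ∀ i, NormalForm (S i)) {A : Matrix (Fin TFib.k) (Fin TFib.k) ℤ}
    {τ : B r → Fin TFib.k → ℝ} (hτ : IsTwist (surf S) τ) {T : X r ≃ₜ X r}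
    (hA : IsAnosovLift (surf S) T) (hom : Homotopic (surf S) (skew S A τ) T) {n : ℕ} (hn : 0 < n)
    {g : Equiv.Perm (X r)} (hg : g ∈ Deck (surf S)) {p : X r}
    (hp : g ((T ^ n : X r ≃ₜ X r) p) = p) : (1 - A ^ n).det ≠ 0 := by
  intro hdet
  -- the eigenvector
  have hmap : (1 - A ^ n).map (Int.cast : ℤ → ℝ) = 1 - (A ^ n).map (Int.cast : ℤ → ℝ) := by
    have h1 := map_sub (Int.castRingHom ℝ).mapMatrix (1 : Matrix (Fin TFib.k) (Fin TFib.k) ℤ)
      (A ^ n)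
    rw [map_one] at h1
    exact h1
  have hdetR : (1 - (A ^ n).map (Int.cast : ℤ → ℝ)).det = 0 := by
    rw [← hmap]
    have h1 := (Int.castRingHom ℝ).map_det (1 - A ^ n)
    rw [hdet, map_zero] at h1
    exact h1.symm
  obtain ⟨ℓ, hℓ, hℓ0⟩ := Matrix.exists_vecMul_eq_zero_iff.2 hdetR
  have hℓA : Matrix.vecMul ℓ ((A ^ n).map (Int.cast : ℤ → ℝ)) = ℓ := by
    rw [Matrix.vecMul_sub, Matrix.vecMul_one, sub_eq_zero] at hℓ0
    exact hℓ0.symm
  have hℓt : ∀ t : Fin TFib.k → ℝ, dotProduct ℓ (lin (A ^ n) t) = dotProduct ℓ t := by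
    intro t
    rw [lin_apply, Matrix.dotProduct_mulVec, hℓA]
  have hℓℓ : dotProduct ℓ ℓ ≠ 0 := fun h => hℓ (dotProduct_self_eq_zero.1 h)
  -- the iterates of the model
  obtain ⟨σ, hσ, hit⟩ := exists_iterate_sk (h := fun i => (S i).f) (η := id) (A := A) (σ := τ)
    (fun i => (S i).f.continuous) continuous_id hτ.cont n
  rw [Function.iterate_id] at hit
  obtain ⟨φ, hφc, hφe, -, hφ1, -, -, hφ0⟩ := @exists_phi TFib.base
  have h0 : Homotopic (surf S) (sk (fun i => (S i).f^[n]) id (A ^ n) σ)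
      ((T ^ n : X r ≃ₜ X r) : X r → X r) := by
    have h1 := homotopic_iterate hom n
    rw [skew_eq, hit] at h1
    rw [pow_eq_iterate]
    exact h1
  have hG : ∀ s : ℝ, Homotopic (surf S)
      (sk (fun i => (S i).f^[n]) φ (A ^ n) (fun q => σ q + s • ℓ))
      ((T ^ n : X r ≃ₜ X r) : X r → X r) := by
    intro s
    refine homotopic_sk h0 ?_ ?_
    · intro δ hδ δ' hδ' h y
      rw [hφe δ hδ y]
      exact h (φ y)
    · intro γ hγ δ hδ z y
      exact add_sub_add_right_eq_sub _ _ _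
  obtain ⟨γ, δ, v, hγ, hδ, hgd⟩ := isDeck_iff.1 hg
  have hex : ∀ s : ℝ, ∃ x : X r,
      dkT γ δ v (sk (fun i => (S i).f^[n]) φ (A ^ n) (fun q => σ q + s • ℓ) x) = x := by
    intro s
    by_contra hno
    rw [not_exists] at hno
    refine no_fix hA hn (continuous_sk (fun i => (S i).f.continuous.iterate n) hφc
      (hσ.add continuous_const)) (hG s) hg (fun q hq => hno q ?_) p hp
    rw [← hgd]
    exact hq
  -- the countable set
  have hQ : ({q : (Fin r → ℍ) × TFib.base.W |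
      (∀ i, γ i • (S i).f^[n] (q.1 i) = q.1 i) ∧ φ q.2 = q.2}).Countable := by
    have h1 : {q : Fin r → ℍ | ∀ i, q i ∈ {z : ℍ | γ i • (S i).f^[n] z = z}}.Countable :=
      Set.countable_pi fun i => countable_fix (N i) hn (hγ i)
    refine (h1.prod hφ0).mono ?_
    rintro q ⟨h2, h3⟩
    exact ⟨h2, h3⟩
  refine Cardinal.not_countable_real ((hQ.image fun q =>
    -(dotProduct ℓ (σ q) + dotProduct ℓ fun j => (v j : ℝ)) / dotProduct ℓ ℓ).mono ?_)
  intro s _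
  obtain ⟨x, hx⟩ := hex s
  have hx' : (dkT γ δ v ∘ sk (fun i => (S i).f^[n]) φ (A ^ n) (fun q => σ q + s • ℓ)) x = x := hx
  rw [dkT_sk] at hx'
  have e1 : ∀ i, γ i • (S i).f^[n] (x.1 i) = x.1 i := fun i =>
    congrFun (congrArg Prod.fst hx') i
  have e2 : δ (φ x.2.1) = x.2.1 := congrArg (fun x : X r => x.2.1) hx'
  have e3 : lin (A ^ n) x.2.2 + ((σ (x.1, x.2.1) + s • ℓ) + fun j => (v j : ℝ)) = x.2.2 :=
    congrArg (fun x : X r => x.2.2) hx'
  have hδ1 : δ = 1 := hφ1 δ hδ _ e2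
  rw [hδ1, Equiv.Perm.one_apply] at e2
  refine ⟨(x.1, x.2.1), ⟨e1, e2⟩, ?_⟩
  have e4 := congrArg (dotProduct ℓ) e3
  rw [dotProduct_add, hℓt, dotProduct_add, dotProduct_add, dotProduct_smul, smul_eq_mul] at e4
  show -(dotProduct ℓ (σ (x.1, x.2.1)) + dotProduct ℓ fun j => (v j : ℝ)) / dotProduct ℓ ℓ = s
  rw [div_eq_iff hℓℓ]
  linarith

end Pool.Agent.ANO5.Hyp
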