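import Pool.Agent.ANO5.Typ.UnipOn
import Pool.Agent.ANO3.Surf.Reg

/-!
# ANO5, module Hyp: a power of a lift which fixes a class acts unipotently (package HYP-UNIPPOW)

`H z = γ • f^[m] z` is a lift of `f^m` with `Eqv κ (H κ)`.  There is `q > 0` such that
`H^[q * j]` acts unipotently on the stabiliser of the class of `κ` for all `j > 0`.

PROOF.  First case `κ ∈ U`: for `δ` in `stabSet` one has `δ • κ = κ` (`Flat.eq_of_zero` for
`N.flat`), so `δ` acts trivially on `ℍ` (`S.free`), `δ * δ = 1` (`Typ.sq_eq_one_of_trivial`), and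
an additive function `h` on the set (a subgroup, closed under products and inverses: the trees are
invariant under `Γ`) satisfies `2 h δ = h 1 = 0`; so `UnipOn` with `n = 0`, `q = 1`.

Second case `κ ∉ U`: `N.unip` gives `m', γ'` and `H' z = γ' • f^[m'] z`, with `Eqv κ (H' κ)` and
`UnipOn (stabSet ..) H'`.  Let `q = m'`.  `H^[m' * j]` and `H'^[m * j]` are both lifts of
`f^[m * m' * j]`, so `H^[m' * j] = a • H'^[m * j]` with `a ∈ Γ` (`exists_liftPow`,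
`IsLiftPow.comp`, `IsLiftPow.iterate` or induction: both are of the form `γ'' • f^[m * m' * j]`).
Both preserve the class of `κ` (`Flat.du_lift_zero`, `Flat.ds_lift_zero`, induction), so
`du κ (a • κ) = 0 = ds κ (a • κ)`, `a ∈ stabSet`.  Let `G` be the subgroup with the carrier
`stabSet` and view `H`, `H'` as permutations of `ℍ` (they are homeomorphisms, `exists_liftPow`);
they normalize `G.map actHom`: for `δ ∈ G` there is `δ' ∈ Γ` with `f^[m] (δ • z) = δ' • f^[m] z`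
(`S.equivar` iterated, see `SurfaceMap`), and the class of `κ` is preserved.  By
`Typ.unip_of_unipOn`, `Typ.Unip.pow` (with `H'^(m j)` multiplied by `a`) and
`Typ.unipOn_of_unip` the map `H^[m' * j]` is unipotent on `G`.
-/

set_option autoImplicit false

open Set Filter Topology
open scoped UpperHalfPlane MatrixGroups

namespace Pool.Agent.ANO5.Hyp

open Pool.Agent.ANO2 Pool.Agent.ANO3 Pool.Agent.ANO5.Typ

section

variable {S : SurfaceMap} {F : Flat S}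

private theorem eqv_refl_UnipPow (a : ℍ) : F.Eqv a a :=
  ⟨F.isTree_u.self a, F.isTree_s.self a⟩

private theorem eqv_symm_UnipPow {a b : ℍ} (h : F.Eqv a b) : F.Eqv b a :=
  ⟨by rw [F.isTree_u.symm]; exact h.1, by rw [F.isTree_s.symm]; exact h.2⟩

private theorem eqv_trans_UnipPow {a b c : ℍ} (h : F.Eqv a b) (h' : F.Eqv b c) :
    F.Eqv a c := by
  have h1 := F.isTree_u.triangle a b c
  have h2 := F.isTree_s.triangle a b c
  have h3 := F.du_nonneg a c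
  have h4 := F.ds_nonneg a c
  rw [h.1, h'.1, add_zero] at h1
  rw [h.2, h'.2, add_zero] at h2
  exact ⟨le_antisymm h1 h3, le_antisymm h2 h4⟩

private theorem eqv_smul_UnipPow {γ : SL(2, ℝ)} (hγ : γ ∈ S.Γ) {a b : ℍ} (h : F.Eqv a b) :
    F.Eqv (γ • a) (γ • b) :=
  ⟨by rw [F.du_smul hγ]; exact h.1, by rw [F.ds_smul hγ]; exact h.2⟩

private theorem eqv_lift_UnipPow {m : ℕ} {H : ℍ ≃ₜ ℍ} (hH : IsLiftPow S m H) {a b : ℍ}
    (h : F.Eqv a b) : F.Eqv (H a) (H b) :=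
  ⟨(F.du_lift_zero hH a b).2 h.1, (F.ds_lift_zero hH a b).2 h.2⟩

private theorem eqv_iter_UnipPow {m : ℕ} {H : ℍ ≃ₜ ℍ} (hH : IsLiftPow S m H) {κ : ℍ}
    (h : F.Eqv κ (H κ)) (n : ℕ) : F.Eqv κ (H^[n] κ) := by
  induction n with
  | zero => exact eqv_refl_UnipPow κ
  | succ n ih =>
    rw [Function.iterate_succ_apply']
    exact eqv_trans_UnipPow h (eqv_lift_UnipPow hH ih)

variable (F) in
/-- the stabiliser of the class of `κ` -/
private def G_UnipPow (κ : ℍ) : Subgroup SL(2, ℝ) where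
  carrier := stabSet S.Γ F.du F.ds κ
  one_mem' := ⟨S.Γ.one_mem, by
    rw [one_smul]
    exact eqv_refl_UnipPow (F := F) κ⟩
  mul_mem' := by
    rintro a b ⟨ha, ha'⟩ ⟨hb, hb'⟩
    refine ⟨S.Γ.mul_mem ha hb, ?_⟩
    rw [mul_smul]
    exact eqv_trans_UnipPow (F := F) ha' (eqv_smul_UnipPow ha hb')
  inv_mem' := by
    rintro a ⟨ha, ha'⟩
    refine ⟨S.Γ.inv_mem ha, ?_⟩
    have h1 : F.Eqv (a⁻¹ • κ) (a⁻¹ • a • κ) := eqv_smul_UnipPow (S.Γ.inv_mem ha) ha'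
    rw [inv_smul_smul] at h1
    exact eqv_symm_UnipPow h1

private theorem norm_UnipPow {m : ℕ} {H : ℍ ≃ₜ ℍ} (hH : IsLiftPow S m H) {κ : ℍ}
    (h : F.Eqv κ (H κ)) (p : Equiv.Perm ℍ) (hp : p ∈ (G_UnipPow F κ).map actHom) :
    H.toEquiv * p * H.toEquiv⁻¹ ∈ (G_UnipPow F κ).map actHom := by
  obtain ⟨δ, hδ, rfl⟩ := hp
  obtain ⟨δ', hδ', hc⟩ := hH.conj δ hδ.1
  refine ⟨δ', ⟨hδ', ?_⟩, ?_⟩
  · have h1 : F.Eqv (δ' • κ) (δ' • H κ) := eqv_smul_UnipPow hδ' h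
    rw [← hc] at h1
    have h2 : F.Eqv (H κ) (H (δ • κ)) := eqv_lift_UnipPow hH hδ.2
    exact eqv_trans_UnipPow (F := F) (eqv_trans_UnipPow h h2) (eqv_symm_UnipPow h1)
  · refine Equiv.ext fun z => ?_
    show δ' • z = H (δ • H.symm z)
    rw [hc, H.apply_symm_apply]

end

theorem exists_unip {S : SurfaceMap} (N : Normal S) {κ : ℍ} {m : ℕ} (hm : 0 < m)
    {γ : SL(2, ℝ)} (hγ : γ ∈ S.Γ) (hκ : N.toNormalForm.flat.Eqv κ (γ • S.f^[m] κ)) :
    ∃ q : ℕ, 0 < q ∧ ∀ j : ℕ, 0 < j →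
      UnipOn (stabSet S.Γ N.du N.ds κ) (fun z => γ • S.f^[m] z)^[q * j] := by
  by_cases hU : κ ∈ N.U
  · refine ⟨1, one_pos, fun j _ => ⟨0, fun ψ _ h hh δ hδ => ?_⟩⟩
    have h1 : δ • κ = κ := N.toNormalForm.flat.eq_of_zero hU hδ.2.1 hδ.2.2
    have h2 : δ * δ = 1 := sq_eq_one_of_trivial (S.free δ hδ.1 κ h1)
    have h3 := hh δ hδ δ hδ
    have hone : (1 : SL(2, ℝ)) ∈ stabSet S.Γ N.du N.ds κ :=
      (G_UnipPow N.toNormalForm.flat κ).one_mem
    have h4 := hh 1 hone 1 hone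
    rw [mul_one] at h4
    rw [h2] at h3
    show h δ = 0
    linarith
  · obtain ⟨m', γ', hm', hγ', hu, hs, hunip⟩ := N.unip κ hU
    refine ⟨m', hm', fun j _ => ?_⟩
    obtain ⟨H₀, hH₀, hH₀z⟩ := exists_liftPow (S := S) m hγ
    obtain ⟨H₀', hH₀', hH₀z'⟩ := exists_liftPow (S := S) m' hγ'
    obtain ⟨H₁, hH₁, hH₁z⟩ := hH₀.iterate (m' * j)
    obtain ⟨H₁', hH₁', hH₁z'⟩ := hH₀'.iterate (m * j)
    have hκ₀ : N.toNormalForm.flat.Eqv κ (H₀ κ) := by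
      rw [hH₀z]
      exact hκ
    have hκ₀' : N.toNormalForm.flat.Eqv κ (H₀' κ) := by
      rw [hH₀z']
      exact ⟨hu, hs⟩
    have hκ₁ : N.toNormalForm.flat.Eqv κ (H₁ κ) := by
      rw [hH₁z]
      exact eqv_iter_UnipPow hH₀ hκ₀ _
    have hκ₁' : N.toNormalForm.flat.Eqv κ (H₁' κ) := by
      rw [hH₁z']
      exact eqv_iter_UnipPow hH₀' hκ₀' _
    obtain ⟨γ₁, hγ₁, h₁⟩ := id hH₁
    obtain ⟨γ₁', hγ₁', h₁'⟩ := id hH₁'
    have hM : m' * (m * j) = m * (m' * j) := by ring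
    rw [hM] at h₁'
    have ha : γ₁ * γ₁'⁻¹ ∈ S.Γ := S.Γ.mul_mem hγ₁ (S.Γ.inv_mem hγ₁')
    have haz : ∀ z, H₁ z = (γ₁ * γ₁'⁻¹) • H₁' z := by
      intro z
      rw [h₁, h₁', mul_smul, inv_smul_smul]
    have haG : γ₁ * γ₁'⁻¹ ∈ G_UnipPow N.toNormalForm.flat κ := by
      refine ⟨ha, ?_⟩
      have h1 := eqv_smul_UnipPow (F := N.toNormalForm.flat) ha hκ₁'
      rw [← haz] at h1
      exact eqv_trans_UnipPow hκ₁ (eqv_symm_UnipPow h1)
    have hfun' : (H₀'.toEquiv : ℍ → ℍ) = fun z => γ' • S.f^[m'] z := funext hH₀z'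
    have hfun : (H₁.toEquiv : ℍ → ℍ) = (fun z => γ • S.f^[m] z)^[m' * j] := by
      have h1 : (H₀ : ℍ → ℍ) = fun z => γ • S.f^[m] z := funext hH₀z
      rw [← h1]
      exact funext hH₁z
    have hun : UnipOn (G_UnipPow N.toNormalForm.flat κ : Set SL(2, ℝ)) H₀'.toEquiv := by
      rw [hfun']
      exact hunip
    obtain ⟨n, hn⟩ := unip_of_unipOn (norm_UnipPow hH₀' hκ₀') hun
    have he : H₁.toEquiv = actHom (γ₁ * γ₁'⁻¹) * H₀'.toEquiv ^ (m * j) := by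
      refine Equiv.ext fun z => ?_
      have h1 : (H₀'.toEquiv ^ (m * j) : Equiv.Perm ℍ) z = H₁' z := by
        rw [hH₁z', ← Equiv.Perm.iterate_eq_pow]
        rfl
      show H₁ z = (γ₁ * γ₁'⁻¹) • (H₀'.toEquiv ^ (m * j) : Equiv.Perm ℍ) z
      rw [h1, haz]
    have hn' := Unip.pow (norm_UnipPow hH₀' hκ₀') hn (norm_UnipPow hH₁ hκ₁)
      (Subgroup.mem_map_of_mem actHom haG) he
    have h2 := unipOn_of_unip hn'
    rw [hfun] at h2
    exact h2

end Pool.Agent.ANO5.Hyp
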