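import Mathlib

/-!
# ANO5, module Hyp: the index of the lattice `C ℤ^k` (package HYP-LAT)

`index_range`: `[ℤ^k : C ℤ^k] = |det C|` for `det C ≠ 0`.  PROOF.  `Submodule.natAbs_det_basis_change`
(or `Submodule.natAbs_det_equiv`, or `Int.natAbs_det_equiv`): `C.mulVecLin` is injective
(`det C ≠ 0`), so the images of the standard basis are a basis of the range, and the matrix of this
basis with respect to the standard basis is `C` (or its transpose).

`exists_reps`: choose one representative of each coset (`Quotient.out`, the quotient is finite as the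
index is not `0`).

`le_of_fibers`: suppose that the range of `f` is finite with `N` elements, and let `V` be a set of
`N` vectors with `f '' V = range f`.  Each `u : ℤ^k` is `u = δ • v + s` with `s j ∈ [0, δ)`
(`Int.emod`, `Int.ediv`); with `v₀ ∈ V`, `f v₀ = f v`: `u - (δ • v₀ + s) = δ • (v - v₀)` is in the
range of `C`.  So every coset of `C ℤ^k` contains one of the at most `N * δ ^ k` vectors
`δ • v₀ + s`, and `|det C| = [ℤ^k : C ℤ^k] ≤ N * δ ^ k`.  If the range of `f` is infinite the right
side is `⊤` (`δ ^ k ≠ 0`).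
-/

set_option autoImplicit false

open Set

namespace Pool.Agent.ANO5.Hyp

variable {k : ℕ}

theorem index_range {C : Matrix (Fin k) (Fin k) ℤ} (hC : C.det ≠ 0) :
    (LinearMap.range C.mulVecLin).toAddSubgroup.index = C.det.natAbs := by
  have hinj : Function.Injective C.mulVecLin := by
    intro v w hvw
    rw [Matrix.mulVecLin_apply, Matrix.mulVecLin_apply] at hvw
    exact Matrix.mulVec_injective_of_det_ne_zero hC hvw
  have h := Submodule.natAbs_det_equiv (LinearMap.range C.mulVecLin)
    (LinearEquiv.ofInjective C.mulVecLin hinj)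
  have h2 : (LinearMap.range C.mulVecLin).subtype ∘ₗ AddMonoidHom.toIntLinearMap
      ((LinearEquiv.ofInjective C.mulVecLin hinj : (Fin k → ℤ) ≃ₗ[ℤ] _) :
        (Fin k → ℤ) →+ LinearMap.range C.mulVecLin) = C.mulVecLin := by
    ext i
    rfl
  rw [h2, ← Matrix.toLin'_apply', LinearMap.det_toLin'] at h
  rw [h]
  rfl

/-- representatives modulo `C ℤ^k` -/
theorem exists_reps {C : Matrix (Fin k) (Fin k) ℤ} (hC : C.det ≠ 0) :
    ∃ R : Finset (Fin k → ℤ), R.card = C.det.natAbs ∧
      ∀ v : Fin k → ℤ, ∃ s ∈ R, ∃ u : Fin k → ℤ, v = s + C.mulVec u := by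
  classical
  set N := (LinearMap.range C.mulVecLin).toAddSubgroup with hN
  have hidx : Nat.card ((Fin k → ℤ) ⧸ N) = C.det.natAbs := index_range hC
  have hfin : Finite ((Fin k → ℤ) ⧸ N) := by
    apply Nat.finite_of_card_ne_zero
    rw [hidx]
    exact Int.natAbs_ne_zero.2 hC
  have := Fintype.ofFinite ((Fin k → ℤ) ⧸ N)
  refine ⟨Finset.univ.image fun q : (Fin k → ℤ) ⧸ N => q.out, ?_, ?_⟩
  · have hinj : Function.Injective fun q : (Fin k → ℤ) ⧸ N => q.out := Quotient.out_injective
    rw [Finset.card_image_of_injective _ hinj, Finset.card_univ,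
      ← Nat.card_eq_fintype_card, hidx]
  · intro v
    refine ⟨(QuotientAddGroup.mk v : (Fin k → ℤ) ⧸ N).out, ?_, ?_⟩
    · exact Finset.mem_image_of_mem _ (Finset.mem_univ _)
    · have h1 : (QuotientAddGroup.mk ((QuotientAddGroup.mk v : (Fin k → ℤ) ⧸ N).out) :
          (Fin k → ℤ) ⧸ N) = QuotientAddGroup.mk v := QuotientAddGroup.out_eq' _
      rw [QuotientAddGroup.eq] at h1
      obtain ⟨u, hu⟩ := h1
      refine ⟨u, ?_⟩
      rw [← Matrix.mulVecLin_apply, hu]
      abel

theorem le_of_fibers {C : Matrix (Fin k) (Fin k) ℤ} (hC : C.det ≠ 0) {δ : ℕ} (hδ : 0 < δ)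
    {α : Type} {f : (Fin k → ℤ) → α}
    (hf : ∀ v v', f v = f v' → ∃ w : Fin k → ℤ, (δ : ℤ) • (v' - v) = C.mulVec w) :
    ((C.det.natAbs : ℕ) : ℕ∞) ≤ ((δ ^ k : ℕ) : ℕ∞) * (range f).encard := by
  classical
  by_cases hfin : (range f).Finite
  · set N := (LinearMap.range C.mulVecLin).toAddSubgroup with hN
    have hidx : Nat.card ((Fin k → ℤ) ⧸ N) = C.det.natAbs := index_range hC
    have hF : Finite (range f) := hfin
    let g : range f → (Fin k → ℤ) := fun y => y.2.choose
    have hg : ∀ y : range f, f (g y) = y := fun y => y.2.choose_spec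
    let φ : range f × (Fin k → Fin δ) → (Fin k → ℤ) ⧸ N := fun x =>
      QuotientAddGroup.mk ((δ : ℤ) • g x.1 + fun j => ((x.2 j : ℕ) : ℤ))
    have hφ : Function.Surjective φ := by
      intro q
      induction q using QuotientAddGroup.induction_on with
      | H u =>
        have hδ' : (0 : ℤ) < δ := by exact_mod_cast hδ
        let v : Fin k → ℤ := fun j => u j / δ
        let y : range f := ⟨f v, v, rfl⟩
        have hlt : ∀ j, (u j % δ).toNat < δ := by
          intro j
          have h1 := Int.emod_nonneg (u j) hδ'.ne'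
          have h2 := Int.emod_lt_of_pos (u j) hδ'
          omega
        refine ⟨(y, fun j => ⟨(u j % δ).toNat, hlt j⟩), ?_⟩
        obtain ⟨w, hw⟩ := hf (g y) v (hg y)
        apply QuotientAddGroup.eq.2
        refine ⟨w, ?_⟩
        rw [Matrix.mulVecLin_apply, ← hw]
        funext j
        have h1 := Int.emod_nonneg (u j) hδ'.ne'
        have h2 : (((u j % δ).toNat : ℕ) : ℤ) = u j % δ := Int.toNat_of_nonneg h1
        have h3 := Int.emod_add_mul_ediv (u j) δ
        simp only [Pi.add_apply, Pi.neg_apply, Pi.smul_apply, Pi.sub_apply, smul_eq_mul]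
        rw [h2]
        change (δ : ℤ) * (u j / δ - g y j) = _
        linear_combination h3
    have hcard := Nat.card_le_card_of_surjective φ hφ
    rw [hidx, Nat.card_prod, Nat.card_fun, Nat.card_eq_fintype_card (α := Fin k),
      Nat.card_eq_fintype_card (α := Fin δ), Fintype.card_fin, Fintype.card_fin] at hcard
    rw [← hfin.cast_ncard_eq]
    have h4 : (range f).ncard = Nat.card (range f) := rfl
    rw [h4]
    calc ((C.det.natAbs : ℕ) : ℕ∞) ≤ ((Nat.card (range f) * δ ^ k : ℕ) : ℕ∞) := by
          exact_mod_cast hcard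
      _ = _ := by
          push_cast
          ring
  · rw [Set.Infinite.encard_eq hfin, ENat.mul_top]
    · exact le_top
    · have : 0 < δ ^ k := Nat.pow_pos hδ
      exact_mod_cast this.ne'

end Pool.Agent.ANO5.Hyp
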