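import Pool.Agent.ANO3.Defs
import Pool.Agent.ANO3.Surf.Lift
import Pool.Agent.ANO5.A3.Grp.Basic

/-!
# ANO5, module Hyp: finitely many periodic points of a given period

`finite_n`: the fixed points of the lifts of `f ^ n`, `n > 0`, are finitely many modulo `Γ`
(nondegenerate fixed points are isolated).
-/

set_option autoImplicit false

open Set Filter Topology
open scoped UpperHalfPlane MatrixGroups

namespace Pool.Agent.ANO5.Hyp

open Pool.Agent.ANO3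

private theorem isolated_FinPer {h : ℂ → ℂ} {z : ℂ} (h1 : ContDiffAt ℝ 1 h z)
    (h2 : (fderiv ℝ (fun x => x - h x) z).det ≠ 0) : ∀ᶠ x in 𝓝[≠] z, h x ≠ x := by
  have hd : HasFDerivAt (fun x : ℂ => x - h x) (fderiv ℝ (fun x : ℂ => x - h x) z) z :=
    (differentiableAt_id.sub (h1.differentiableAt one_ne_zero)).hasFDerivAt
  have hinj : Function.Injective
      ((fderiv ℝ (fun x : ℂ => x - h x) z : ℂ →L[ℝ] ℂ) : ℂ →ₗ[ℝ] ℂ) :=
    (LinearMap.equivOfDetNeZero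
      ((fderiv ℝ (fun x : ℂ => x - h x) z : ℂ →L[ℝ] ℂ) : ℂ →ₗ[ℝ] ℂ) h2).injective
  obtain ⟨K, -, hK⟩ := LinearMap.exists_antilipschitzWith _ (LinearMap.ker_eq_bot.2 hinj)
  filter_upwards [hd.eventually_ne ⟨K, hK⟩ (c := 0)] with x hx h3
  exact hx (by rw [h3, sub_self])

theorem finite_n {S : SurfaceMap} (N : NormalForm S) {n : ℕ} (hn : 0 < n) :
    ∃ A : Set ℍ, A.Finite ∧ ∀ z, (∃ γ ∈ S.Γ, γ • S.f^[n] z = z) → ∃ γ ∈ S.Γ, γ • z ∈ A := by
  obtain ⟨K, hK, hKc⟩ := S.cocompact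
  have hc : Continuous S.f^[n] := S.f.continuous.iterate n
  have hK' : IsCompact (K ∪ S.f^[n] '' K) := hK.union (hK.image hc)
  have hone : ∀ γ ∈ S.Γ, {z | z ∈ K ∧ γ • S.f^[n] z = z}.Finite := by
    intro γ hγ
    by_contra hinf
    have hcl : IsCompact {z | z ∈ K ∧ γ • S.f^[n] z = z} :=
      hK.inter_right (isClosed_eq ((continuous_const_smul γ).comp hc) continuous_id)
    obtain ⟨z, hz, hacc⟩ := Set.Infinite.exists_accPt_of_subset_isCompact hinf hcl subset_rfl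
    rw [accPt_iff_frequently_nhdsNE] at hacc
    obtain ⟨h1, h2⟩ := N.nondeg z n γ hn hγ hz.2
    have h3 := isolated_FinPer h1 h2
    have h4 : Tendsto (fun w : ℍ => (w : ℂ)) (𝓝[≠] z) (𝓝[≠] (z : ℂ)) := by
      refine tendsto_nhdsWithin_of_tendsto_nhds_of_eventually_within _
        (UpperHalfPlane.continuous_coe.continuousAt.tendsto.mono_left nhdsWithin_le_nhds) ?_
      filter_upwards [self_mem_nhdsWithin] with w hw h5
      exact hw (UpperHalfPlane.ext h5)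
    obtain ⟨w, hw, hw'⟩ := (hacc.and_eventually (h4.eventually h3)).exists
    refine hw' ?_
    rw [UpperHalfPlane.ofComplex_apply, hw.2]
  refine ⟨⋃ γ ∈ {γ : SL(2, ℝ) | γ ∈ S.Γ ∧ ∃ z ∈ K ∪ S.f^[n] '' K, γ • z ∈ K ∪ S.f^[n] '' K},
    {z | z ∈ K ∧ γ • S.f^[n] z = z}, (S.proper _ hK').biUnion fun γ hγ => hone γ hγ.1, ?_⟩
  rintro z ⟨γ, hγ, hz⟩
  obtain ⟨g, hg, hgz⟩ := hKc z
  obtain ⟨H, hH, hHz⟩ := exists_liftPow (S := S) n S.Γ.one_mem
  obtain ⟨g', hg', hgg⟩ := hH.conj g hg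
  have h1 : S.f^[n] (g • z) = g' • S.f^[n] z := by
    have h2 := hgg z
    rwa [hHz, hHz, one_smul, one_smul] at h2
  have h3 : (g * γ * g'⁻¹) • S.f^[n] (g • z) = g • z := by
    rw [h1, mul_smul, mul_smul, inv_smul_smul, hz]
  refine ⟨g, hg, mem_biUnion (x := g * γ * g'⁻¹)
    ⟨S.Γ.mul_mem (S.Γ.mul_mem hg hγ) (S.Γ.inv_mem hg'), S.f^[n] (g • z),
      Or.inr (mem_image_of_mem _ hgz), ?_⟩ ⟨hgz, h3⟩⟩
  rw [h3]
  exact Or.inl hgz

end Pool.Agent.ANO5.Hyp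

namespace Pool.Agent.ANO5.A3.Grp

variable [Fib] {r : ℕ}

/-- The deck transformations which move a compact set to itself are finitely many. -/
theorem deck_finite (S : Fin r → ClosedSurface) {K : Set (A1.X r)} (hK : IsCompact K) :
    {g : Equiv.Perm (A1.X r) | g ∈ Deck S ∧ ∃ x ∈ K, g x ∈ K}.Finite := by
  have h1 := (A2.Dyn.deck_finite (S := S) hK).preimage
    (f := fun a : Equiv.Perm (A1.X r) => (a : A1.X r → A1.X r))
    (DFunLike.coe_injective.injOn)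
  refine h1.subset ?_
  rintro a ⟨ha, x, hx, hax⟩
  exact ⟨ha, x, hx, hax⟩

end Pool.Agent.ANO5.A3.Grp
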