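import Mathlib

/-!
# ANO5, module Hyp: functions which are locally constant near some orbits (package HYP-LOC)

`Δ` acts properly discontinuously by isometries on `P`, `Q` is finite, `τ : P → E` is continuous and
`τ (g x) - τ x` does not depend on `x`.  There is a continuous `σ` with the same increments which
is locally constant near all points `g q`.

PROOF.  Let `Q' = {g q | g ∈ Δ, q ∈ Q}`.

(1) There is `ε > 0` such that `c, c' ∈ Q'`, `dist c c' < 4 * ε` implies `c = c'`.  For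
`q, q' ∈ Q` the set `{g ∈ Δ | dist (g q') q ≤ 1}` is finite (`hd` for the compact set
`closedBall q 1 ∪ {q'}`), so the numbers `dist (g q') q` which are `≤ 1` and positive form a finite
set and are bounded below by a positive constant; take the minimum over the finitely many pairs
`(q, q')`; for `c = g q`, `c' = g' q'`: `dist c c' = dist q (g⁻¹ g' q')`.

(2) Let `lam s = max 0 (min 1 (3 - 2 * s / ε))`: `lam s = 1` for `s ≤ ε`, `lam s = 0` for
`s ≥ 3 / 2 * ε`.  Define `σ x = τ x + lam (dist x c) • (τ c - τ x)` if there is `c ∈ Q'` with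
`dist x c < 2 * ε` (unique by (1)), and `σ x = τ x` otherwise.

Continuity: on the open set `{x | dist x c < 2 * ε}` the formula with `c` is true, so `σ` is
continuous there; if `x` is in none of these sets then `dist x' c ≥ 3 / 2 * ε` for all `c ∈ Q'` and
all `x'` with `dist x' x < ε / 2`, so `σ = τ` near `x` (`lam = 0`).
Increments: `g ∈ Δ` maps `Q'` to itself and preserves distances, so for `dist x c < 2 * ε`:
`σ (g x) = τ (g x) + lam (dist x c) • (τ (g c) - τ (g x))` and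
`τ (g c) - τ (g x) = τ c - τ x` by `hc`; so `σ (g x) - σ x = τ (g x) - τ x`.  If there is no such
`c` for `x` then there is none for `g x` (apply `g⁻¹`).
Locally constant: for `dist x c < ε`: `σ x = τ c`.
-/

set_option autoImplicit false

open Set Filter Topology

namespace Pool.Agent.ANO5.Hyp

/-- the cutoff function -/
private noncomputable def locLam (ε s : ℝ) : ℝ := max 0 (min 1 (3 - 2 * s / ε))

private theorem locLam_one {ε s : ℝ} (hε : 0 < ε) (h : s < ε) : locLam ε s = 1 := by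
  unfold locLam
  have h1 : 2 * s / ε ≤ 2 := by
    rw [div_le_iff₀ hε]
    linarith
  rw [min_eq_left (by linarith), max_eq_right zero_le_one]

private theorem locLam_zero {ε s : ℝ} (hε : 0 < ε) (h : 3 / 2 * ε ≤ s) : locLam ε s = 0 := by
  unfold locLam
  have h1 : 3 ≤ 2 * s / ε := by
    rw [le_div_iff₀ hε]
    linarith
  have h2 : 3 - 2 * s / ε ≤ 0 := by linarith
  exact max_eq_left ((min_le_right _ _).trans h2)

private theorem locLam_cont (ε : ℝ) : Continuous (locLam ε) := by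
  unfold locLam
  exact continuous_const.max (continuous_const.min (continuous_const.sub
    ((continuous_const.mul continuous_id).div_const ε)))

/-- the orbits are uniformly separated -/
private theorem loc_sep {P : Type} [MetricSpace P] [ProperSpace P] {Δ : Subgroup (Equiv.Perm P)}
    (hiso : ∀ g ∈ Δ, ∀ x y, dist (g x) (g y) = dist x y)
    (hd : ∀ K : Set P, IsCompact K → {g : Equiv.Perm P | g ∈ Δ ∧ ∃ x ∈ K, g x ∈ K}.Finite)
    {Q : Set P} (hQ : Q.Finite) :
    ∃ ε : ℝ, 0 < ε ∧ ∀ g ∈ Δ, ∀ q ∈ Q, ∀ g' ∈ Δ, ∀ q' ∈ Q, dist (g q) (g' q') < 4 * ε →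
      g q = g' q' := by
  have hK : IsCompact (⋃ q ∈ Q, Metric.closedBall q (1 : ℝ)) :=
    hQ.isCompact_biUnion fun q _ => isCompact_closedBall q 1
  have hF := hd _ hK
  have hDf : ((fun p : Equiv.Perm P × P × P => dist (p.1 p.2.2) p.2.1) ''
      ({g : Equiv.Perm P | g ∈ Δ ∧ ∃ x ∈ (⋃ q ∈ Q, Metric.closedBall q (1 : ℝ)),
        g x ∈ (⋃ q ∈ Q, Metric.closedBall q (1 : ℝ))} ×ˢ (Q ×ˢ Q))).Finite :=
    (hF.prod (hQ.prod hQ)).image _
  have h1 : ∀ᶠ δ in 𝓝[>] (0 : ℝ), ∀ d ∈ ((fun p : Equiv.Perm P × P × P =>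
      dist (p.1 p.2.2) p.2.1) ''
      ({g : Equiv.Perm P | g ∈ Δ ∧ ∃ x ∈ (⋃ q ∈ Q, Metric.closedBall q (1 : ℝ)),
        g x ∈ (⋃ q ∈ Q, Metric.closedBall q (1 : ℝ))} ×ˢ (Q ×ˢ Q))), 0 < d → δ < d := by
    rw [Filter.eventually_all_finite hDf]
    intro d _
    by_cases h0 : 0 < d
    · filter_upwards [Ioo_mem_nhdsGT h0] with δ hδ _
      exact hδ.2
    · exact Filter.Eventually.of_forall fun δ h => absurd h h0
  have h2 : ∀ᶠ δ in 𝓝[>] (0 : ℝ), δ ∈ Ioo (0 : ℝ) 1 := Ioo_mem_nhdsGT zero_lt_one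
  obtain ⟨δ, hδ, hδ0, hδ1⟩ := (h1.and h2).exists
  refine ⟨δ / 4, by positivity, ?_⟩
  intro g hg q hq g' hg' q' hq' hlt
  have h3 : dist ((g⁻¹ * g') q') q = dist (g q) (g' q') := by
    rw [← hiso g hg, dist_comm]
    congr 1
    rw [Equiv.Perm.mul_apply]
    exact g.apply_symm_apply (g' q')
  have h4 : g⁻¹ * g' ∈ Δ := Δ.mul_mem (Δ.inv_mem hg) hg'
  by_contra hne
  have h5 : 0 < dist ((g⁻¹ * g') q') q := by
    rw [h3]
    exact dist_pos.2 hne
  have h6 := hδ _ ⟨(g⁻¹ * g', q, q'), ⟨⟨h4, q', ?_, ?_⟩, hq, hq'⟩, rfl⟩ h5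
  · simp only at h6
    rw [h3] at h6
    linarith
  · exact mem_biUnion hq' (Metric.mem_closedBall_self zero_le_one)
  · refine mem_biUnion hq ?_
    rw [Metric.mem_closedBall, h3]
    linarith

theorem exists_loc' {P E : Type} [MetricSpace P] [ProperSpace P] [NormedAddCommGroup E]
    [NormedSpace ℝ E] {Δ : Subgroup (Equiv.Perm P)}
    (hiso : ∀ g ∈ Δ, ∀ x y, dist (g x) (g y) = dist x y)
    (hd : ∀ K : Set P, IsCompact K → {g : Equiv.Perm P | g ∈ Δ ∧ ∃ x ∈ K, g x ∈ K}.Finite)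
    {Q : Set P} (hQ : Q.Finite) {τ : P → E} (hτ : Continuous τ)
    (hc : ∀ g ∈ Δ, ∀ x y, τ (g x) - τ x = τ (g y) - τ y) :
    ∃ σ : P → E, Continuous σ ∧ (∀ g ∈ Δ, ∀ x, σ (g x) - σ x = τ (g x) - τ x) ∧
      ∀ q ∈ Q, ∀ g ∈ Δ, ∀ᶠ x in 𝓝 (g q), σ x = τ (g q) := by
  classical
  obtain ⟨ε, hε, hsep⟩ := loc_sep hiso hd hQ
  obtain ⟨Q', hQ'⟩ : ∃ Q' : Set P, Q' = {c | ∃ g ∈ Δ, ∃ q ∈ Q, g q = c} := ⟨_, rfl⟩
  have huniq : ∀ c ∈ Q', ∀ c' ∈ Q', dist c c' < 4 * ε → c = c' := by
    intro c hc c' hc' hlt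
    rw [hQ'] at hc hc'
    obtain ⟨g, hg, q, hq, rfl⟩ := hc
    obtain ⟨g', hg', q', hq', rfl⟩ := hc'
    exact hsep g hg q hq g' hg' q' hq' hlt
  have hinv : ∀ g ∈ Δ, ∀ c ∈ Q', g c ∈ Q' := by
    intro g hg c hc
    rw [hQ'] at hc ⊢
    obtain ⟨g', hg', q, hq, rfl⟩ := hc
    exact ⟨g * g', Δ.mul_mem hg hg', q, hq, rfl⟩
  obtain ⟨σ, hσ⟩ : ∃ σ : P → E, σ = fun x => if h : ∃ c ∈ Q', dist x c < 2 * ε then
      τ x + locLam ε (dist x h.choose) • (τ h.choose - τ x) else τ x := ⟨_, rfl⟩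
  have hA : ∀ x, ∀ c ∈ Q', dist x c < 2 * ε →
      σ x = τ x + locLam ε (dist x c) • (τ c - τ x) := by
    intro x c hc' hx
    have h : ∃ c ∈ Q', dist x c < 2 * ε := ⟨c, hc', hx⟩
    have h1 := h.choose_spec
    have h2 : h.choose = c := by
      refine huniq _ h1.1 c hc' ?_
      have h3 := dist_triangle_left h.choose c x
      have h4 := h1.2
      linarith
    rw [hσ]
    simp only [dif_pos h]
    rw [h2]
  have hB : ∀ x, (∀ c ∈ Q', 3 / 2 * ε ≤ dist x c) → σ x = τ x := by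
    intro x hx
    by_cases h : ∃ c ∈ Q', dist x c < 2 * ε
    · obtain ⟨c, hc', h1⟩ := h
      rw [hA x c hc' h1, locLam_zero hε (hx c hc'), zero_smul, add_zero]
    · rw [hσ]
      simp only [dif_neg h]
  refine ⟨σ, ?_, ?_, ?_⟩
  · rw [continuous_iff_continuousAt]
    intro x
    by_cases h : ∃ c ∈ Q', dist x c < 2 * ε
    · obtain ⟨c, hc', h1⟩ := h
      have h2 : Continuous fun y => τ y + locLam ε (dist y c) • (τ c - τ y) :=
        hτ.add (((locLam_cont ε).comp (continuous_id.dist continuous_const)).smul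
          (continuous_const.sub hτ))
      have h3 : ∀ᶠ y in 𝓝 x, dist y c < 2 * ε :=
        (continuous_id.dist continuous_const).continuousAt.eventually (gt_mem_nhds h1)
      refine h2.continuousAt.congr ?_
      filter_upwards [h3] with y hy
      exact (hA y c hc' hy).symm
    · push Not at h
      refine hτ.continuousAt.congr ?_
      filter_upwards [Metric.ball_mem_nhds x (half_pos hε)] with y hy
      rw [hB y]
      intro c hc'
      have h1 := h c hc'
      have h2 := dist_triangle_left x c y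
      have h3 : dist y x < ε / 2 := hy
      linarith
  · intro g hg x
    by_cases h : ∃ c ∈ Q', dist x c < 2 * ε
    · obtain ⟨c, hc', h1⟩ := h
      have h2 : dist (g x) (g c) < 2 * ε := by rwa [hiso g hg]
      rw [hA x c hc' h1, hA (g x) (g c) (hinv g hg c hc') h2, hiso g hg]
      have h3 : τ (g c) - τ (g x) = τ c - τ x := by
        have h4 := hc g hg c x
        have h5 : τ (g c) - τ (g x) = (τ (g c) - τ c) - (τ (g x) - τ x) + (τ c - τ x) := by
          abel
        rw [h5, h4, sub_self, zero_add]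
      rw [h3]
      abel
    · push Not at h
      have h1 : ∀ c ∈ Q', 2 * ε ≤ dist (g x) c := by
        intro c hc'
        have h2 := h (g⁻¹ c) (hinv g⁻¹ (Δ.inv_mem hg) c hc')
        rw [← hiso g hg x (g⁻¹ c)] at h2
        have h3 : g (g⁻¹ c) = c := g.apply_symm_apply c
        rwa [h3] at h2
      rw [hB x fun c hc' => by have := h c hc'; linarith,
        hB (g x) fun c hc' => by have := h1 c hc'; linarith]
  · intro q hq g hg
    have hcQ : g q ∈ Q' := by
      rw [hQ']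
      exact ⟨g, hg, q, hq, rfl⟩
    have h1 : ∀ x, dist x (g q) < ε → σ x = τ (g q) := by
      intro x hx
      rw [hA x (g q) hcQ (by linarith), locLam_one hε hx, one_smul]
      abel
    filter_upwards [Metric.ball_mem_nhds (g q) hε] with x hx
    exact h1 x hx

theorem exists_loc {P E : Type} [MetricSpace P] [ProperSpace P] [NormedAddCommGroup E]
    [NormedSpace ℝ E] {Δ : Subgroup (Equiv.Perm P)}
    (hiso : ∀ g ∈ Δ, ∀ x y, dist (g x) (g y) = dist x y)
    (hd : ∀ K : Set P, IsCompact K → {g : Equiv.Perm P | g ∈ Δ ∧ ∃ x ∈ K, g x ∈ K}.Finite)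
    {Q : Set P} (hQ : Q.Finite) {τ : P → E} (hτ : Continuous τ)
    (hc : ∀ g ∈ Δ, ∀ x y, τ (g x) - τ x = τ (g y) - τ y) :
    ∃ σ : P → E, Continuous σ ∧ (∀ g ∈ Δ, ∀ x, σ (g x) - σ x = τ (g x) - τ x) ∧
      ∀ q ∈ Q, ∀ g ∈ Δ, ∀ᶠ x in 𝓝 (g q), σ x = σ (g q) := by
  obtain ⟨σ, h1, h2, h3⟩ := exists_loc' hiso hd hQ hτ hc
  refine ⟨σ, h1, h2, fun q hq g hg => ?_⟩
  have h4 := h3 q hq g hg
  have h5 := h4.self_of_nhds
  filter_upwards [h4] with x hx
  rw [hx, h5]

end Pool.Agent.ANO5.Hyp
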