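import Pool.Agent.ANO5.Hyp.Skew
import Pool.Agent.ANO3.Deg.Basic

/-!
# ANO5, module Hyp: nondegenerate fixed points of skew maps (package HYP-SKND)

`w` is a fixed point of `T₀ = sk h η A σ`, `σ` is constant near `(w.1, w.2.1)`, the components `h i`
and `η` are `C¹` near the components of `w` with nondegenerate fixed points there, `det (1 - A) ≠ 0`.
Then `w` is nondegenerate.

PROOF (compare `prod_Nondeg` in `Pool/Agent/ANO3/Cnt/Nondeg.lean`).  In the chart
(`toE x = ((fun i => (x.1 i : ℂ)), (crd x.2.1, x.2.2))`; `Fib.V = TFib.base.V × (Fin TFib.k → ℝ)`) near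
`toE w` the map `loc T₀` is
`(a, (b, t)) ↦ (fun i => H i (a i), (E b, lin A t + c))` with
`H i z = (h i (UpperHalfPlane.ofComplex z) : ℂ)`, `E b = crd (η (crd.symm b))`,
`c = σ (w.1, w.2.1)`: it is `C¹` on a neighbourhood (each `H i` is `ContDiffAt ℝ 1`, so
`ContDiffOn` on a neighbourhood, `ContDiffAt.contDiffOn`), and the derivative of `x - loc T₀ x` at
`toE w` is `(a, (b, t)) ↦ (fun i => a i - DH i (a i), (b - DE b, t - lin A t))`, which is injective:
the first two components by the hypotheses on the determinants, the third since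
`det (1 - A) ≠ 0` (`Matrix.eq_zero_of_mulVec_eq_zero` over `ℝ`, `lin_apply`; the determinant of the
real matrix is the cast of the determinant, `RingHom.map_det`).  An injective endomorphism has
non-zero determinant (`SmoothDegree.det_ne_zero_of_inj`).
-/

set_option autoImplicit false

open Set Filter Topology
open scoped UpperHalfPlane MatrixGroups

namespace Pool.Agent.ANO5.Hyp

open Pool.Agent.ANO5.A1 Pool.Agent.ANO5.A2 Pool.Agent.ANO5.A3.Grp Pool.Agent.ANO5.Lin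

/-- a map with three components, near a nondegenerate fixed point -/
private theorem prod_SkewNd {r k : ℕ} {V₁ : Type*} [NormedAddCommGroup V₁] [NormedSpace ℝ V₁]
    [FiniteDimensional ℝ V₁] (H : Fin r → ℂ → ℂ) (e : V₁ → V₁)
    (L : (Fin k → ℝ) →L[ℝ] (Fin k → ℝ)) (c : Fin k → ℝ)
    (w : (Fin r → ℂ) × (V₁ × (Fin k → ℝ)))
    (T : (Fin r → ℂ) × (V₁ × (Fin k → ℝ)) → (Fin r → ℂ) × (V₁ × (Fin k → ℝ)))
    (hT : ∀ᶠ x in 𝓝 w, T x = ((fun i => H i (x.1 i)), (e x.2.1, L x.2.2 + c)))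
    (h1 : ∀ i, ContDiffAt ℝ 1 (H i) (w.1 i))
    (h2 : ∀ i, (fderiv ℝ (fun z : ℂ => z - H i z) (w.1 i)).det ≠ 0)
    (h3 : ∃ V ∈ 𝓝 w.2.1, ContDiffOn ℝ 1 e V)
    (h4 : (fderiv ℝ (fun v => v - e v) w.2.1).det ≠ 0) (h5 : ∀ t, L t = t → t = 0) :
    (∃ V ∈ 𝓝 w, ContDiffOn ℝ 1 T V) ∧ (fderiv ℝ (fun x => x - T x) w).det ≠ 0 := by
  have hc : ∀ i, ∃ V ∈ 𝓝 (w.1 i), ContDiffOn ℝ 1 (H i) V := fun i => by
    obtain ⟨V, hV, h6⟩ := (h1 i).contDiffOn (m := 1) le_rfl (by simp)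
    exact ⟨V, hV, h6⟩
  choose V hV hVc using hc
  obtain ⟨V', hV', hVc'⟩ := h3
  constructor
  · refine ⟨({x | ∀ i, x.1 i ∈ V i} ∩ {x | x.2.1 ∈ V'}) ∩
      {x | T x = ((fun i => H i (x.1 i)), (e x.2.1, L x.2.2 + c))},
      Filter.inter_mem (Filter.inter_mem ?_ ?_) hT, ?_⟩
    · rw [Set.ofPred_forall]
      refine (Filter.iInter_mem).2 fun i => ?_
      have h6 : ContinuousAt (fun x : (Fin r → ℂ) × (V₁ × (Fin k → ℝ)) => x.1 i) w :=
        ((continuous_apply i).comp continuous_fst).continuousAt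
      exact h6 (hV i)
    · have h6 : ContinuousAt (fun x : (Fin r → ℂ) × (V₁ × (Fin k → ℝ)) => x.2.1) w :=
        (continuous_fst.comp continuous_snd).continuousAt
      exact h6 hV'
    · refine ContDiffOn.congr (f := fun x : (Fin r → ℂ) × (V₁ × (Fin k → ℝ)) =>
        ((fun i => H i (x.1 i)), (e x.2.1, L x.2.2 + c))) ?_ fun x hx => hx.2
      refine ContDiffOn.prodMk (contDiffOn_pi.2 fun i => ?_) (ContDiffOn.prodMk ?_ ?_)
      · refine (hVc i).comp (g := H i)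
          (f := fun x : (Fin r → ℂ) × (V₁ × (Fin k → ℝ)) => x.1 i) ?_ ?_
        · exact ((contDiff_apply ℝ ℂ i).comp contDiff_fst).contDiffOn
        · exact fun x hx => hx.1.1 i
      · refine hVc'.comp (g := e)
          (f := fun x : (Fin r → ℂ) × (V₁ × (Fin k → ℝ)) => x.2.1) ?_ ?_
        · exact (contDiff_fst.comp contDiff_snd).contDiffOn
        · exact fun x hx => hx.1.2
      · exact ((L.contDiff.comp (contDiff_snd.comp contDiff_snd)).add contDiff_const).contDiffOn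
  · have hd : ∀ i, HasFDerivAt (fun x : ℂ => x - H i x)
        (fderiv ℝ (fun x : ℂ => x - H i x) (w.1 i)) (w.1 i) := fun i =>
      (differentiableAt_id.sub ((h1 i).differentiableAt one_ne_zero)).hasFDerivAt
    have he : HasFDerivAt (fun v => v - e v) (fderiv ℝ (fun v => v - e v) w.2.1) w.2.1 :=
      (differentiableAt_id.sub ((hVc'.contDiffAt hV').differentiableAt one_ne_zero)).hasFDerivAt
    have hL : HasFDerivAt (fun t : Fin k → ℝ => t - (L t + c))
        (ContinuousLinearMap.id ℝ (Fin k → ℝ) - L) w.2.2 :=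
      (hasFDerivAt_id w.2.2).sub (L.hasFDerivAt.add_const c)
    have hF0 : HasFDerivAt (fun x : (Fin r → ℂ) × (V₁ × (Fin k → ℝ)) =>
        ((fun i => x.1 i - H i (x.1 i)), (x.2.1 - e x.2.1, x.2.2 - (L x.2.2 + c))))
        ((ContinuousLinearMap.pi fun i => (fderiv ℝ (fun x : ℂ => x - H i x) (w.1 i)) ∘L
        ((ContinuousLinearMap.proj i : (Fin r → ℂ) →L[ℝ] ℂ) ∘L
          (ContinuousLinearMap.fst ℝ (Fin r → ℂ) (V₁ × (Fin k → ℝ))))).prod
        (((fderiv ℝ (fun v => v - e v) w.2.1) ∘L ((ContinuousLinearMap.fst ℝ V₁ (Fin k → ℝ)) ∘L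
          (ContinuousLinearMap.snd ℝ (Fin r → ℂ) (V₁ × (Fin k → ℝ))))).prod
        ((ContinuousLinearMap.id ℝ (Fin k → ℝ) - L) ∘L
          ((ContinuousLinearMap.snd ℝ V₁ (Fin k → ℝ)) ∘L
          (ContinuousLinearMap.snd ℝ (Fin r → ℂ) (V₁ × (Fin k → ℝ))))))) w := by
      refine HasFDerivAt.prodMk (hasFDerivAt_pi.2 fun i => ?_) (HasFDerivAt.prodMk ?_ ?_)
      · exact HasFDerivAt.comp (g := fun x : ℂ => x - H i x)
          (f := fun x : (Fin r → ℂ) × (V₁ × (Fin k → ℝ)) => x.1 i) w (hd i)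
          ((ContinuousLinearMap.proj i : (Fin r → ℂ) →L[ℝ] ℂ) ∘L
            (ContinuousLinearMap.fst ℝ (Fin r → ℂ) (V₁ × (Fin k → ℝ)))).hasFDerivAt
      · exact HasFDerivAt.comp (g := fun v : V₁ => v - e v)
          (f := fun x : (Fin r → ℂ) × (V₁ × (Fin k → ℝ)) => x.2.1) w he
          ((ContinuousLinearMap.fst ℝ V₁ (Fin k → ℝ)) ∘L
            (ContinuousLinearMap.snd ℝ (Fin r → ℂ) (V₁ × (Fin k → ℝ)))).hasFDerivAt
      · exact HasFDerivAt.comp (g := fun t : Fin k → ℝ => t - (L t + c))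
          (f := fun x : (Fin r → ℂ) × (V₁ × (Fin k → ℝ)) => x.2.2) w hL
          ((ContinuousLinearMap.snd ℝ V₁ (Fin k → ℝ)) ∘L
            (ContinuousLinearMap.snd ℝ (Fin r → ℂ) (V₁ × (Fin k → ℝ)))).hasFDerivAt
    have hF := hF0.congr_of_eventuallyEq (f₁ := fun x => x - T x) (by
      filter_upwards [hT] with x hx
      rw [hx]
      rfl)
    rw [hF.fderiv]
    refine SmoothDegree.det_ne_zero_of_inj _ fun u hu => ?_
    have e1 : ∀ i, (fderiv ℝ (fun x : ℂ => x - H i x) (w.1 i)) (u.1 i) = 0 := fun i =>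
      congrFun (congrArg Prod.fst hu) i
    have e2 : (fderiv ℝ (fun v => v - e v) w.2.1) u.2.1 = 0 :=
      congrArg (fun x : (Fin r → ℂ) × (V₁ × (Fin k → ℝ)) => x.2.1) hu
    have e3 : u.2.2 - L u.2.2 = 0 :=
      congrArg (fun x : (Fin r → ℂ) × (V₁ × (Fin k → ℝ)) => x.2.2) hu
    refine Prod.ext (funext fun i => ?_) (Prod.ext ?_ ?_)
    · have h7 := (LinearMap.equivOfDetNeZero
        ((fderiv ℝ (fun x : ℂ => x - H i x) (w.1 i) : ℂ →L[ℝ] ℂ) : ℂ →ₗ[ℝ] ℂ) (h2 i)).injective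
      refine h7 (a₁ := u.1 i) (a₂ := 0) ?_
      rw [map_zero]
      exact e1 i
    · have h7 := (LinearMap.equivOfDetNeZero
        ((fderiv ℝ (fun v => v - e v) w.2.1 : V₁ →L[ℝ] V₁) : V₁ →ₗ[ℝ] V₁) h4).injective
      refine h7 (a₁ := u.2.1) (a₂ := 0) ?_
      rw [map_zero]
      exact e2
    · exact h5 _ (sub_eq_zero.1 e3).symm

/-- `1 - A` is injective on `ℝ^k` -/
private theorem inj_SkewNd {k : ℕ} {A : Matrix (Fin k) (Fin k) ℤ} (h : (1 - A).det ≠ 0)
    (t : Fin k → ℝ) (ht : lin A t = t) : t = 0 := by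
  have h1 : ((1 - A).map (Int.cast : ℤ → ℝ)).det ≠ 0 := by
    have h2 : ((1 - A).map (Int.cast : ℤ → ℝ)).det = (((1 - A).det : ℤ) : ℝ) :=
      ((Int.castRingHom ℝ).map_det (1 - A)).symm
    rw [h2]
    exact_mod_cast h
  refine Matrix.eq_zero_of_mulVec_eq_zero h1 ?_
  have h3 : (1 - A).map (Int.cast : ℤ → ℝ) = 1 - A.map (Int.cast : ℤ → ℝ) := by
    ext i j
    simp [Matrix.one_apply]
  rw [h3, Matrix.sub_mulVec, Matrix.one_mulVec, ← lin_apply, ht, sub_self]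

variable [TFib] {r : ℕ} {h : Fin r → ℍ → ℍ} {η : TFib.base.W → TFib.base.W}
  {A : Matrix (Fin TFib.k) (Fin TFib.k) ℤ} {σ : (Fin r → ℍ) × TFib.base.W → (Fin TFib.k → ℝ)}

theorem nondeg_sk {w : X r}
    (h1 : ∀ i, ContDiffAt ℝ 1 (fun z : ℂ => ((h i (UpperHalfPlane.ofComplex z) : ℍ) : ℂ)) (w.1 i) ∧
      (fderiv ℝ (fun z : ℂ => z - ((h i (UpperHalfPlane.ofComplex z) : ℍ) : ℂ)) (w.1 i)).det ≠ 0)
    (h2 : (∃ V ∈ 𝓝 (TFib.base.crd w.2.1),
      ContDiffOn ℝ 1 (fun v => TFib.base.crd (η (TFib.base.crd.symm v))) V) ∧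
      (fderiv ℝ (fun v => v - TFib.base.crd (η (TFib.base.crd.symm v))) (TFib.base.crd w.2.1)).det ≠ 0)
    (h3 : ∀ᶠ q in 𝓝 (w.1, w.2.1), σ q = σ (w.1, w.2.1)) (h4 : (1 - A).det ≠ 0) :
    (∃ V ∈ 𝓝 (toE w), ContDiffOn ℝ 1 (loc (sk h η A σ)) V) ∧
      (fderiv ℝ (fun x => x - loc (sk h η A σ) x) (toE w)).det ≠ 0 := by
  refine prod_SkewNd (fun i z => ((h i (UpperHalfPlane.ofComplex z) : ℍ) : ℂ))
    (fun v => TFib.base.crd (η (TFib.base.crd.symm v))) (lin A) (σ (w.1, w.2.1)) (toE w)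
    (loc (sk h η A σ)) ?_ (fun i => (h1 i).1) (fun i => (h1 i).2) h2.1 h2.2
    (inj_SkewNd h4)
  have hc : ContinuousAt (fun x : E r =>
      ((fun i => UpperHalfPlane.ofComplex (x.1 i) : Fin r → ℍ), TFib.base.crd.symm x.2.1))
      (toE w) := by
    refine ContinuousAt.prodMk (continuousAt_pi.2 fun i => ?_) ?_
    · refine ContinuousAt.comp (g := UpperHalfPlane.ofComplex) (f := fun x : E r => x.1 i) ?_
        ((continuous_apply i).comp continuous_fst).continuousAt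
      exact (UpperHalfPlane.contMDiffAt_ofComplex (n := 0) (w.1 i).im_pos).continuousAt
    · exact (TFib.base.crd.symm.continuous.comp
        (continuous_fst.comp continuous_snd)).continuousAt
  have hw : ((fun i => UpperHalfPlane.ofComplex ((toE w).1 i) : Fin r → ℍ),
      TFib.base.crd.symm (toE w).2.1) = (w.1, w.2.1) := by
    refine Prod.ext (funext fun i => UpperHalfPlane.ofComplex_apply (w.1 i)) ?_
    exact TFib.base.crd.symm_apply_apply w.2.1
  have h5 : Tendsto (fun x : E r =>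
      ((fun i => UpperHalfPlane.ofComplex (x.1 i) : Fin r → ℍ), TFib.base.crd.symm x.2.1))
      (𝓝 (toE w)) (𝓝 (w.1, w.2.1)) := by
    rw [← hw]
    exact hc
  filter_upwards [h5.eventually h3] with x hx
  refine Prod.ext rfl (Prod.ext rfl ?_)
  show lin A x.2.2 + σ ((fun i => UpperHalfPlane.ofComplex (x.1 i)), TFib.base.crd.symm x.2.1) = _
  rw [hx]

end Pool.Agent.ANO5.Hyp
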