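import Pool.Agent.ANO5.Hyp.Skew
import Pool.Agent.ANO5.Hyp.SkewNd
import Pool.Agent.ANO5.Hyp.Phi
import Pool.Agent.ANO5.Hyp.Loc
import Pool.Agent.ANO5.Hyp.FinPer
import Pool.Agent.ANO5.A2.Dim.Lift
import Pool.Agent.ANO3.Defs

/-!
# ANO5, module Hyp: nondegenerate models of the powers

`exists_model`: every power `T ^ n` with `det (1 - A ^ n) ≠ 0` is homotopic to a map `G` such that
all fixed points of all `g ∘ G` are nondegenerate, are fixed points of `g ∘ (skew S A τ)^[n]` and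
have their component in the base fixed by `φ`, a map which does not depend on `n` and has finitely
many orbits of fixed points.

PROOF.  `(skew S A τ)^[n] (z, y, t) = (f^n z, y, A^n t + σ (z, y))`.  Let `φ` be the map of
`Phi.lean`, `σ'` a function with the increments of `σ` (under the deck group of the base) which is
constant and equal to `σ` near the finitely many orbits of points `(z, y)` with `γ f^n z = z`,
`φ y = y`, and `G (z, y, t) = (f^n z, φ y, A^n t + σ' (z, y))`.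
-/

set_option autoImplicit false

open Set Filter Topology
open scoped UpperHalfPlane MatrixGroups

namespace Pool.Agent.ANO5.Hyp

open Pool.Agent.ANO5.A1 Pool.Agent.ANO5.A2 Pool.Agent.ANO5.A3.Grp Pool.Agent.ANO5.Tor

variable [TFib] {r : ℕ} {S : Fin r → SurfaceMap} {A : Matrix (Fin TFib.k) (Fin TFib.k) ℤ}
  {τ : B r → Fin TFib.k → ℝ} {T : X r ≃ₜ X r}

/-- The iterates of the model. -/
private theorem iter_Model (hτ : Continuous τ) (hom : Homotopic (surf S) (skew S A τ) T) (n : ℕ) :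
    ∃ σ : B r → Fin TFib.k → ℝ, Continuous σ ∧
      (skew S A τ)^[n] = sk (fun i => (S i).f^[n]) id (A ^ n) σ ∧
      Homotopic (surf S) (sk (fun i => (S i).f^[n]) id (A ^ n) σ) (T ^ n : X r ≃ₜ X r) := by
  obtain ⟨σ, hσ, h1⟩ := exists_iterate_sk (h := fun i => ((S i).f : ℍ → ℍ))
    (η := (id : TFib.base.W → TFib.base.W)) (A := A) (fun i => (S i).f.continuous)
    continuous_id hτ n
  rw [← skew_eq, Function.iterate_id] at h1
  refine ⟨σ, hσ, h1, ?_⟩
  have h2 := homotopic_iterate hom n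
  have h3 : ((T ^ n : X r ≃ₜ X r) : X r → X r) = T^[n] := by
    funext p
    exact A2.Dim.pow_apply T n p
  rw [h3, ← h1]
  exact h2

/-- The increments of the twist of an iterate are constant. -/
private theorem incr_Model {h : Fin r → ℍ → ℍ} {C : Matrix (Fin TFib.k) (Fin TFib.k) ℤ}
    {σ : B r → Fin TFib.k → ℝ} {G : X r → X r} (hom : Homotopic (surf S) (sk h id C σ) G)
    {γ : Fin r → SL(2, ℝ)} (hγ : ∀ i, γ i ∈ (surf S i).Γ) {δ : Equiv.Perm TFib.base.W}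
    (hδ : δ ∈ TFib.base.Γ) : ∃ c : Fin TFib.k → ℝ, ∀ (z : Fin r → ℍ) (y : TFib.base.W),
      σ (fun i => γ i • z i, δ y) - σ (z, y) = c := by
  obtain ⟨g', hg', h1, -⟩ := hom (dkT γ δ 0) (isDeck_iff.2 ⟨γ, δ, 0, hγ, hδ, rfl⟩)
  obtain ⟨γ', δ', v', -, -, rfl⟩ := isDeck_iff.1 hg'
  refine ⟨fun j => (v' j : ℝ), fun z y => ?_⟩
  have h2 : Lin.lin C (fun j => (0 : ℝ) + ((0 : Fin TFib.k → ℤ) j : ℝ)) +
      σ (fun i => γ i • z i, δ y) =
      fun j => (Lin.lin C (fun _ => (0 : ℝ)) + σ (z, y)) j + (v' j : ℝ) :=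
    congrArg (fun x : X r => x.2.2) (congrFun h1 (z, (y, fun _ => 0)))
  have h3 : (fun j => (0 : ℝ) + ((0 : Fin TFib.k → ℤ) j : ℝ)) = fun _ => (0 : ℝ) := by
    funext j
    simp
  rw [h3] at h2
  funext j
  have h4 := congrFun h2 j
  simp only [Pi.add_apply] at h4
  simp only [Pi.sub_apply]
  linarith

/-- The deck group of the base. -/
private theorem base_Model {g : Equiv.Perm (B r)}
    (hg : g ∈ @Deck TFib.base r (surf S)) : ∃ (γ : Fin r → SL(2, ℝ))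
      (δ : Equiv.Perm TFib.base.W), (∀ i, γ i ∈ (surf S i).Γ) ∧ δ ∈ TFib.base.Γ ∧
        ∀ q, g q = (fun i => γ i • q.1 i, δ q.2) := hg

private theorem exists_base_Model {γ : Fin r → SL(2, ℝ)} (hγ : ∀ i, γ i ∈ (surf S i).Γ)
    {δ : Equiv.Perm TFib.base.W} (hδ : δ ∈ TFib.base.Γ) :
    ∃ g ∈ @Deck TFib.base r (surf S), ∀ q : B r, g q = (fun i => γ i • q.1 i, δ q.2) :=
  @exists_deck TFib.base r (surf S) _ ⟨γ, δ, hγ, hδ, fun _ => rfl⟩

theorem exists_model' (N : ∀ i, Pool.Agent.ANO3.NormalForm (S i)) (hτ : IsTwist (surf S) τ)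
    (hom : Homotopic (surf S) (skew S A τ) T) :
    ∃ φ : TFib.base.W → TFib.base.W,
      (∃ P : Set TFib.base.W, P.Finite ∧ ∀ y, φ y = y → ∃ d ∈ TFib.base.Γ, d y ∈ P) ∧
      ∀ n : ℕ, 0 < n → (1 - A ^ n).det ≠ 0 → ∃ G : X r → X r, Continuous G ∧
        Homotopic (surf S) G (T ^ n : X r ≃ₜ X r) ∧
        (∀ g ∈ Deck (surf S), Nondeg (g ∘ G)) ∧
        ∀ g ∈ Deck (surf S), ∀ x, g (G x) = x ↔
          g ((skew S A τ)^[n] x) = x ∧ φ x.2.1 = x.2.1 := by
  obtain ⟨φ, hφc, hφe, -, hφ1, hφn, ⟨P, hP, hφP⟩, -⟩ := @exists_phi TFib.base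
  refine ⟨φ, ⟨P, hP, hφP⟩, fun n hn hdet => ?_⟩
  obtain ⟨σ, hσ, hsk, homn⟩ := iter_Model hτ.cont hom n
  choose A' hA' hAn using fun i => finite_n (N i) hn
  have hQ : {q : B r | (∀ i, q.1 i ∈ A' i) ∧ q.2 ∈ P}.Finite := by
    refine ((Set.Finite.pi hA').prod hP).subset ?_
    rintro q ⟨h1, h2⟩
    exact ⟨fun i _ => h1 i, h2⟩
  obtain ⟨σ', hσ', hinc, hloc⟩ := exists_loc' (P := B r) (Δ := @Deck TFib.base r (surf S))
    (fun g hg x y => (@A2.Dyn.IsDeck.isometry TFib.base r (surf S) g hg).dist_eq x y)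
    (fun K hK => @deck_finite TFib.base r (surf S) K hK) hQ hσ (fun g hg x y => by
      obtain ⟨γ, δ, hγ, hδ, hg'⟩ := base_Model hg
      obtain ⟨c, hc⟩ := incr_Model homn hγ hδ
      rw [hg', hg', hc, hc])
  -- the points which are fixed in the base
  have key : ∀ (γ : Fin r → SL(2, ℝ)) (δ : Equiv.Perm TFib.base.W),
      (∀ i, γ i ∈ (surf S i).Γ) → δ ∈ TFib.base.Γ → ∀ (z : Fin r → ℍ) (y : TFib.base.W),
      (∀ i, γ i • (S i).f^[n] (z i) = z i) → δ (φ y) = y →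
      δ = 1 ∧ φ y = y ∧ ∀ᶠ q in 𝓝 ((z, y) : B r), σ' q = σ (z, y) := by
    intro γ δ hγ hδ z y hz hy
    have h1 : δ = 1 := hφ1 δ hδ y hy
    have h2 : φ y = y := by
      rw [h1] at hy
      exact hy
    refine ⟨h1, h2, ?_⟩
    choose γ' hγ' hzA using fun i => hAn i (z i) ⟨γ i, hγ i, hz i⟩
    obtain ⟨d, hd, hdP⟩ := hφP y h2
    obtain ⟨g, hg, hgq⟩ := exists_base_Model (S := S) (γ := γ') hγ' hd
    have h3 := hloc (g (z, y)) ⟨fun i => by rw [hgq]; exact hzA i, by rw [hgq]; exact hdP⟩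
      g⁻¹ (inv_mem hg)
    have h4 : (g⁻¹ : Equiv.Perm (B r)) (g (z, y)) = (z, y) := g.symm_apply_apply _
    rwa [h4] at h3
  refine ⟨sk (fun i => (S i).f^[n]) φ (A ^ n) σ',
    continuous_sk (fun i => (S i).f.continuous.iterate n) hφc hσ', ?_, ?_, ?_⟩
  · refine homotopic_sk homn (fun δ hδ δ' hδ' h y => ?_) (fun γ hγ δ hδ z y => ?_)
    · have h1 : δ = δ' := Equiv.ext fun y => h y
      rw [← h1]
      exact hφe δ hδ y
    · obtain ⟨g, hg, hgq⟩ := exists_base_Model (S := S) hγ hδ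
      have h1 := hinc g hg (z, y)
      rw [hgq] at h1
      exact h1
  · intro g hg w hw
    obtain ⟨γ, δ, v, hγ, hδ, hgd⟩ := isDeck_iff.1 (hg : IsDeck (surf S) g)
    have e : (g ∘ sk (fun i => (S i).f^[n]) φ (A ^ n) σ' : X r → X r) =
        sk (fun i z => γ i • (S i).f^[n] z) (δ ∘ φ) (A ^ n)
          (fun q => σ' q + fun j => (v j : ℝ)) := by
      rw [hgd]
      exact dkT_sk γ δ v
    have hw' : sk (fun i z => γ i • (S i).f^[n] z) (δ ∘ φ) (A ^ n)
        (fun q => σ' q + fun j => (v j : ℝ)) w = w := by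
      rw [← e]
      exact hw
    have hz : ∀ i, γ i • (S i).f^[n] (w.1 i) = w.1 i := fun i =>
      congrFun (congrArg Prod.fst hw') i
    have hy : δ (φ w.2.1) = w.2.1 := congrArg (fun x : X r => x.2.1) hw'
    obtain ⟨h1, h2, h3⟩ := key γ δ hγ hδ w.1 w.2.1 hz hy
    rw [e]
    refine nondeg_sk (fun i => (N i).nondeg (w.1 i) n (γ i) hn (hγ i) (hz i)) ?_ ?_ hdet
    · rw [h1]
      exact hφn w.2.1 h2
    · have h4 := h3.self_of_nhds
      filter_upwards [h3] with q hq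
      rw [hq]
      show _ = σ' (w.1, w.2.1) + _
      rw [h4]
  · intro g hg x
    obtain ⟨γ, δ, v, hγ, hδ, hgd⟩ := isDeck_iff.1 (hg : IsDeck (surf S) g)
    have hpt : φ x.2.1 = x.2.1 → σ' (x.1, x.2.1) = σ (x.1, x.2.1) →
        (skew S A τ)^[n] x = sk (fun i => (S i).f^[n]) φ (A ^ n) σ' x := by
      intro h2 h4
      rw [hsk]
      refine Prod.ext rfl (Prod.ext h2.symm ?_)
      show Lin.lin (A ^ n) x.2.2 + σ (x.1, x.2.1) = Lin.lin (A ^ n) x.2.2 + σ' (x.1, x.2.1)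
      rw [h4]
    constructor
    · intro hx
      have hx' := hx
      rw [hgd] at hx'
      have hz : ∀ i, γ i • (S i).f^[n] (x.1 i) = x.1 i := fun i =>
        congrFun (congrArg Prod.fst hx') i
      have hy : δ (φ x.2.1) = x.2.1 := congrArg (fun x : X r => x.2.1) hx'
      obtain ⟨h1, h2, h3⟩ := key γ δ hγ hδ x.1 x.2.1 hz hy
      refine ⟨?_, h2⟩
      rw [hpt h2 h3.self_of_nhds]
      exact hx
    · rintro ⟨hx, h2⟩
      have hx' := hx
      rw [hgd, hsk] at hx'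
      have hz : ∀ i, γ i • (S i).f^[n] (x.1 i) = x.1 i := fun i =>
        congrFun (congrArg Prod.fst hx') i
      have hy : δ x.2.1 = x.2.1 := congrArg (fun x : X r => x.2.1) hx'
      obtain ⟨h1, -, h3⟩ := key γ δ hγ hδ x.1 x.2.1 hz (by rw [h2, hy])
      rw [← hpt h2 h3.self_of_nhds]
      exact hx

theorem exists_model (N : ∀ i, Pool.Agent.ANO3.NormalForm (S i)) (hτ : IsTwist (surf S) τ)
    (hom : Homotopic (surf S) (skew S A τ) T) :
    ∃ φ : TFib.base.W → TFib.base.W,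
      (∃ P : Set TFib.base.W, P.Finite ∧ ∀ y, φ y = y → ∃ d ∈ TFib.base.Γ, d y ∈ P) ∧
      ∀ n : ℕ, 0 < n → (1 - A ^ n).det ≠ 0 → ∃ G : X r → X r, Continuous G ∧
        Homotopic (surf S) G (T ^ n : X r ≃ₜ X r) ∧
        (∀ g ∈ Deck (surf S), Nondeg (g ∘ G)) ∧
        ∀ g ∈ Deck (surf S), ∀ x, g (G x) = x →
          g ((skew S A τ)^[n] x) = x ∧ φ x.2.1 = x.2.1 := by
  obtain ⟨φ, h1, h2⟩ := exists_model' N hτ hom
  refine ⟨φ, h1, fun n hn hdet => ?_⟩
  obtain ⟨G, h3, h4, h5, h6⟩ := h2 n hn hdet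
  exact ⟨G, h3, h4, h5, fun g hg x => (h6 g hg x).1⟩

end Pool.Agent.ANO5.Hyp
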