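import Pool.Agent.ANO3.Cnt.FinMod
import Pool.Agent.ANO5.Hyp.Lat
import Pool.Agent.ANO5.Hyp.Model
import Pool.Agent.ANO5.Hyp.Stab
import Pool.Agent.ANO5.Conc.Rel

/-!
# ANO5, module Hyp: the upper bound for the number of periodic points (package HYP-UPPER)

`h : IsFix F (skew S A τ) Φ T m g κ`, `F i = (N i).flat`, `D = Stab F κ`.  There is `C` such that the
number of the `D`-orbits in `perN D T n` is at most `C * |det (1 - A^(m n))|` for all `n > 0` for
which this determinant is not `0`.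

PROOF.  Let `φ`, `P` be as in `exists_model` (for `h.hom`), `Bi i` the finite set of
`ANO3.Cnt.finite_one (N i) (κ i)`, and `C` the number of elements of
`{q : B r | (∀ i, q.1 i ∈ Bi i) ∧ q.2 ∈ P}` (finite: `Set.Finite.pi'`, `Set.Finite.prod`).

Fix `n`, put `j = m * n` and let `h' : IsFix F (skew S A τ) Φ (T ^ n) j g' κ` be as in `IsFix.pow`,
and `G` the model of `exists_model` for `Φ^j`.

(1) `encard_orbits_le` with `M = j`, `G₀ = G`, `g'`, `H = D`, `m = 1`:
`perPts D (g' ∘ Φ^j) 1 = perN D T n` (`h'.eq`; unfold both).  Hypotheses: `hH`: for `a ∈ D` let `a'`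
be as in `h'.fwd`.  `Homotopic G (Φ^j)` gives `b ∈ Deck` with `G (a p) = b (G p)`,
`Φ^j (a p) = b (Φ^j p)`, so `g' (Φ^j (a p)) = (g' * b * g'⁻¹) (g' (Φ^j p))` and
`g' * b * g'⁻¹ = a'` (`eq_of_apply_eq`), hence `g' (G (a p)) = a' (g' (G p))`.
`hself`: if `b (g' (G z)) = z` with `b ∈ D` then `b (g' (skew^[j] z)) = z` (`exists_model` for the
deck transformation `b * g'`), so `EqvS z.1 κ` (`h'.type_of_fix`), and the same for `a z`; so
`a ∈ D` (`mem_stab`).  `hnd`: `b ∘ (g' ∘ G)^[1] = (b * g') ∘ G`.  `hfin`: from (2).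

(2) The number of the `D`-orbits in `perPts D (g' ∘ G) 1` is at most `C * |det (1 - A^j)|`.  Let
`R` be the set of `exists_reps` for the matrix `1 - A^j`; write
`(skew S A τ)^[j] = sk .. id (A^j) σ` (`skew_eq`, `exists_iterate_sk`).  Let `x` be in the set,
`b (g' (G x)) = x`, `b ∈ D`, so `φ x.2.1 = x.2.1`, and `x.1 i` is periodic
(`h'.periodic_of_fix`) with `EqvS x.1 κ`.  By `finite_one` and `exists_model` there are
`γ i ∈ Γ` with `Eqv (γ i • κ i) (κ i)`, `γ i • x.1 i ∈ Bi i`, and `d ∈ base.Γ` with `d x.2.1 ∈ P`.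
Let `a ∈ D` be the deck transformation `dkT γ d 0` (`exists_dkT`, `mem_stab`); `y = a x` has
`(y.1, y.2.1)` in the finite set, and `y` is in `perPts D (g' ∘ G) 1` as well (`hH` of (1)); let
`b' (g' (G y)) = y`, so `b' (g' (sk .. σ y)) = y`, `b' * g' = dkT γ' δ' v'`.  For each point `q` of
the finite set choose, if possible, `y_q` with `(y_q.1, y_q.2.1) = q` and `b_q ∈ D` with
`b_q (g' (sk .. σ y_q)) = y_q`, `b_q * g' = dkT γ_q δ_q v_q`; `δ'` and `δ_q` agree at
`y.2.1` (`δ' y.2.1 = y.2.1`), and `γ' i • f^[j] (y.1 i) = y.1 i = γ_q i • f^[j] (y.1 i)`, so the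
last components are
`lin (A^j) t + σ q + v' = t`, `lin (A^j) t_q + σ q + v_q = t_q`, `t = y.2.2`, `t_q = y_q.2.2`;
so `t - t_q - lin (A^j) (t - t_q) = v' - v_q =: u ∈ ℤ^k`.  Write `u = s + (1 - A^j) w`, `s ∈ R`
(`exists_reps`); let `t_(q,s)` be the vector with `(1 - A^j) (t_(q,s) - t_q) = s` (the real matrix is
invertible).  Then `(1 - A^j) (t - w - t_(q,s)) = 0`, so `t = t_(q,s) + w`, and `y` is in the
`D`-orbit of `(q.1, (q.2, t_(q,s)))` (translation by `w`, an element of `D` by `mem_stab`).  So the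
orbits are in the image of the product of the finite set with `R`.
-/

set_option autoImplicit false

open Set Filter Topology
open scoped UpperHalfPlane MatrixGroups

namespace Pool.Agent.ANO5.Hyp

open Pool.Agent.ANO3
open Pool.Agent.ANO5.A1 Pool.Agent.ANO5.A2 Pool.Agent.ANO5.A3.Grp Pool.Agent.ANO5.Lin
open Pool.Agent.ANO5.Tor (skew IsTwist B)

variable [TFib] {r : ℕ} {S : Fin r → SurfaceMap}

omit [TFib] in
/-- `1 - A` is injective on `ℝ^k` -/
private theorem inj_Upper {k : ℕ} {A : Matrix (Fin k) (Fin k) ℤ} (h : (1 - A).det ≠ 0)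
    (t : Fin k → ℝ) (ht : lin A t = t) : t = 0 := by
  have h1 : ((1 - A).map (Int.cast : ℤ → ℝ)).det ≠ 0 := by
    have h2 : ((1 - A).map (Int.cast : ℤ → ℝ)).det = (((1 - A).det : ℤ) : ℝ) :=
      ((Int.castRingHom ℝ).map_det (1 - A)).symm
    rw [h2]
    exact_mod_cast h
  refine Matrix.eq_zero_of_mulVec_eq_zero h1 ?_
  have h3 : (1 - A).map (Int.cast : ℤ → ℝ) = 1 - A.map (Int.cast : ℤ → ℝ) := by
    ext i j
    simp [Matrix.one_apply]
  rw [h3, Matrix.sub_mulVec, Matrix.one_mulVec, ← lin_apply, ht, sub_self]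

/-- the counting -/
private theorem count_Upper {C : Matrix (Fin TFib.k) (Fin TFib.k) ℤ} (hdet : (1 - C).det ≠ 0)
    {D : Subgroup (Equiv.Perm (X r))} {Y : Set (X r)} {Q : Set (B r)} (hQ : Q.Finite)
    (σ : B r → Fin TFib.k → ℝ)
    (hmove : ∀ x ∈ Y, ∃ a ∈ D, ((a x).1, (a x).2.1) ∈ Q ∧ ∃ v : Fin TFib.k → ℤ,
      lin C (a x).2.2 + σ ((a x).1, (a x).2.1) + (fun j => (v j : ℝ)) = (a x).2.2)
    (htr : ∀ w : Fin TFib.k → ℤ, ∃ b ∈ D, ∀ x : X r,
      b x = (x.1, (x.2.1, fun j => x.2.2 j + (w j : ℝ)))) :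
    ((fun x => MulAction.orbit D x) '' Y).encard ≤ (Q.ncard * (1 - C).det.natAbs : ℕ) := by
  classical
  obtain ⟨R, hR, hR'⟩ := exists_reps hdet
  let E : B r → (Fin TFib.k → ℝ) → Prop := fun q t => ∃ v : Fin TFib.k → ℤ,
    lin C t + σ q + (fun j => (v j : ℝ)) = t
  let tq : B r → (Fin TFib.k → ℝ) := fun q => if h : ∃ t, E q t then h.choose else 0
  let P : B r → (Fin TFib.k → ℤ) → (Fin TFib.k → ℝ) → Prop := fun q s t =>
    t - tq q - lin C (t - tq q) = fun j => (s j : ℝ)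
  let ts : B r → (Fin TFib.k → ℤ) → (Fin TFib.k → ℝ) := fun q s =>
    if h : ∃ t, P q s t then h.choose else 0
  have hsub : (fun x => MulAction.orbit D x) '' Y ⊆
      (fun p : B r × (Fin TFib.k → ℤ) =>
        MulAction.orbit D ((p.1.1, (p.1.2, ts p.1 p.2)) : X r)) '' (Q ×ˢ (R : Set _)) := by
    rintro _ ⟨x, hx, rfl⟩
    obtain ⟨a, ha, hq, v, hv⟩ := hmove x hx
    have hE : ∃ t, E ((a x).1, (a x).2.1) t := ⟨(a x).2.2, v, hv⟩
    obtain ⟨vq, hvq⟩ : E ((a x).1, (a x).2.1) (tq ((a x).1, (a x).2.1)) := by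
      have e1 : tq ((a x).1, (a x).2.1) = hE.choose := dif_pos hE
      rw [e1]
      exact hE.choose_spec
    obtain ⟨s, hs, w, hw⟩ := hR' (v - vq)
    have hP : P ((a x).1, (a x).2.1) s (fun j => (a x).2.2 j - (w j : ℝ)) := by
      have e2 : (fun j => (a x).2.2 j - (w j : ℝ)) - tq ((a x).1, (a x).2.1) =
          ((a x).2.2 - tq ((a x).1, (a x).2.1)) - fun j => (w j : ℝ) := by
        funext j
        simp only [Pi.sub_apply]
        ring
      show (fun j => (a x).2.2 j - (w j : ℝ)) - tq ((a x).1, (a x).2.1) -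
        lin C ((fun j => (a x).2.2 j - (w j : ℝ)) - tq ((a x).1, (a x).2.1)) = _
      rw [e2, map_sub, map_sub, lin_int]
      funext j
      have f1 := congrFun hv j
      have f2 := congrFun hvq j
      have f3 := congrFun hw j
      rw [Matrix.sub_mulVec, Matrix.one_mulVec] at f3
      simp only [Pi.sub_apply, Pi.add_apply] at f1 f2 f3 ⊢
      have f4 : (v j : ℝ) - (vq j : ℝ) = (s j : ℝ) + ((w j : ℝ) - ((C.mulVec w j : ℤ) : ℝ)) := by
        exact_mod_cast f3
      linarith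
    have hPs : P ((a x).1, (a x).2.1) s (ts ((a x).1, (a x).2.1) s) := by
      have hex : ∃ t, P ((a x).1, (a x).2.1) s t := ⟨_, hP⟩
      have e1 : ts ((a x).1, (a x).2.1) s = hex.choose := dif_pos hex
      rw [e1]
      exact hex.choose_spec
    have hz : (fun j => (a x).2.2 j - (w j : ℝ)) - ts ((a x).1, (a x).2.1) s = 0 := by
      refine inj_Upper hdet _ ?_
      have g1 : (fun j => (a x).2.2 j - (w j : ℝ)) - tq ((a x).1, (a x).2.1) -
        lin C ((fun j => (a x).2.2 j - (w j : ℝ)) - tq ((a x).1, (a x).2.1)) =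
          fun j => (s j : ℝ) := hP
      have g2 : ts ((a x).1, (a x).2.1) s - tq ((a x).1, (a x).2.1) -
        lin C (ts ((a x).1, (a x).2.1) s - tq ((a x).1, (a x).2.1)) = fun j => (s j : ℝ) := hPs
      rw [map_sub] at g1 g2 ⊢
      funext j
      have f1 := congrFun g1 j
      have f2 := congrFun g2 j
      simp only [Pi.sub_apply] at f1 f2 ⊢
      linarith
    obtain ⟨b, hb, hbx⟩ := htr w
    refine ⟨(((a x).1, (a x).2.1), s), ⟨hq, hs⟩, ?_⟩
    have h4 : b ((a x).1, ((a x).2.1, ts ((a x).1, (a x).2.1) s)) = a x := by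
      rw [hbx]
      refine Prod.ext rfl (Prod.ext rfl ?_)
      funext j
      have f1 := congrFun hz j
      simp only [Pi.sub_apply, Pi.zero_apply] at f1
      show ts ((a x).1, (a x).2.1) s j + (w j : ℝ) = (a x).2.2 j
      linarith
    have h5 : MulAction.orbit D (a x) = MulAction.orbit D x :=
      MulAction.orbit_smul (⟨a, ha⟩ : D) x
    have h6 : MulAction.orbit D (b ((a x).1, ((a x).2.1, ts ((a x).1, (a x).2.1) s))) =
        MulAction.orbit D ((a x).1, ((a x).2.1, ts ((a x).1, (a x).2.1) s)) :=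
      MulAction.orbit_smul (⟨b, hb⟩ : D) _
    show MulAction.orbit D (((a x).1, ((a x).2.1, ts ((a x).1, (a x).2.1) s)) : X r) = _
    rw [← h6, h4, h5]
  refine (encard_le_encard hsub).trans ((encard_image_le _ _).trans ?_)
  rw [encard_prod, ← hQ.cast_ncard_eq, encard_coe_eq_coe_finsetCard, hR]
  push_cast
  exact le_rfl

theorem upper (N : ∀ i, NormalForm (S i)) {A : Matrix (Fin TFib.k) (Fin TFib.k) ℤ}
    {τ : B r → Fin TFib.k → ℝ} (hτ : IsTwist (surf S) τ) {Φ T : X r ≃ₜ X r} {m : ℕ}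
    {g : Equiv.Perm (X r)} {κ : Fin r → ℍ}
    (h : IsFix (fun i => (N i).flat) (skew S A τ) Φ T m g κ) :
    ∃ C : ℕ, ∀ n : ℕ, 0 < n → (1 - A ^ (m * n)).det ≠ 0 →
      ((fun x => MulAction.orbit (Stab (fun i => (N i).flat) κ) x) ''
        Conc.perN (Stab (fun i => (N i).flat) κ) T n).encard ≤
        (C * (1 - A ^ (m * n)).det.natAbs : ℕ) := by
  classical
  obtain ⟨φ, ⟨P, hP, hφP⟩, hmodel⟩ := exists_model N hτ h.hom
  choose Bi hBi hBi' using fun i => Cnt.finite_one (N i) (κ i)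
  have hQ : {q : B r | (∀ i, q.1 i ∈ Bi i) ∧ q.2 ∈ P}.Finite := by
    refine ((Set.Finite.pi hBi).prod hP).subset ?_
    rintro q ⟨h1, h2⟩
    exact ⟨fun i _ => h1 i, h2⟩
  refine ⟨{q : B r | (∀ i, q.1 i ∈ Bi i) ∧ q.2 ∈ P}.ncard, fun n hn hdet => ?_⟩
  obtain ⟨g', h', -⟩ := h.pow hn
  obtain ⟨G, hG, homG, hnd, hfix⟩ := hmodel (m * n) h'.pos hdet
  obtain ⟨σ, -, hsk⟩ := exists_iterate_sk (h := fun i => ((S i).f : ℍ → ℍ))
    (η := (id : TFib.base.W → TFib.base.W)) (A := A) (fun i => (S i).f.continuous)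
    continuous_id hτ.cont (m * n)
  rw [← skew_eq, Function.iterate_id] at hsk
  -- conjugation
  have hH : ∀ a ∈ Stab (fun i => (N i).flat) κ, ∃ a' ∈ Stab (fun i => (N i).flat) κ,
      ∀ p, g' (G (a p)) = a' (g' (G p)) := by
    intro a ha
    obtain ⟨a', ha', -, h2⟩ := h'.fwd ha
    obtain ⟨b, hb, e1, e2⟩ := homG a ha.1
    obtain ⟨b', hb', he⟩ := exists_deck hb
    obtain ⟨x0⟩ : Nonempty (X r) := inferInstance
    have h3 : g' * b' = a' * g' := by
      refine eq_of_apply_eq (S := surf S) (p := (Φ ^ (m * n) : X r ≃ₜ X r) x0)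
        (mul_mem h'.deck hb') (mul_mem ha'.1 h'.deck) ?_
      have e3 : (Φ ^ (m * n) : X r ≃ₜ X r) (a x0) = b ((Φ ^ (m * n) : X r ≃ₜ X r) x0) :=
        congrFun e2 _
      rw [Equiv.Perm.mul_apply, Equiv.Perm.mul_apply, he, ← e3, ← h'.eq, ← h'.eq, h2]
    refine ⟨a', ha', fun p => ?_⟩
    have e4 : G (a p) = b (G p) := congrFun e1 p
    have e5 := congrArg (fun f : Equiv.Perm (X r) => f (G p)) h3
    simp only [Equiv.Perm.mul_apply] at e5
    rw [e4, ← he, e5]
  have htype : ∀ z, (∃ b ∈ Stab (fun i => (N i).flat) κ, b (g' (G z)) = z) →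
      EqvS (fun i => (N i).flat) z.1 κ ∧ (∀ i, IsPeriodic (S i) (z.1 i)) ∧
      φ z.2.1 = z.2.1 ∧ ∃ w ∈ Deck (surf S), w ((skew S A τ)^[m * n] z) = z := by
    rintro z ⟨b, hb, hbz⟩
    have hw : b * g' ∈ Deck (surf S) := mul_mem hb.1 h'.deck
    obtain ⟨e1, e2⟩ := hfix (b * g') hw z hbz
    exact ⟨h'.type_of_fix hb e1, fun i => h'.periodic_of_fix hb.1 e1 i, e2, b * g', hw, e1⟩
  have hcount : ((fun x => MulAction.orbit (Stab (fun i => (N i).flat) κ) x) ''
      perPts (Stab (fun i => (N i).flat) κ) (g' ∘ G) 1).encard ≤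
        ({q : B r | (∀ i, q.1 i ∈ Bi i) ∧ q.2 ∈ P}.ncard * (1 - A ^ (m * n)).det.natAbs : ℕ) := by
    refine count_Upper hdet hQ σ ?_ ?_
    · rintro x ⟨b, hb, hbx⟩
      have hbx' : b (g' (G x)) = x := hbx
      obtain ⟨t1, t2, t3, -⟩ := htype x ⟨b, hb, hbx'⟩
      choose γ hγ hγ1 hγ2 using fun i => hBi' i (x.1 i) (t2 i) (t1 i)
      obtain ⟨d, hd, hdP⟩ := hφP x.2.1 t3
      obtain ⟨a, ha, hax⟩ := exists_dkT (S := surf S) hγ hd 0
      have haD : a ∈ Stab (fun i => (N i).flat) κ := by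
        refine mem_stab ha t1 ?_
        have k1 : EqvS (fun i => (N i).flat) (a x).1 (a ((κ, x.2) : X r)).1 :=
          (eqvS_deck ha x ((κ, x.2) : X r)).2 t1
        refine k1.trans fun i => ?_
        rw [hax]
        exact hγ1 i
      obtain ⟨a', ha', hc⟩ := hH a haD
      have hy : (a * b * a'⁻¹) (g' (G (a x))) = a x := by
        rw [hc]
        have k2 : (a'⁻¹ : Equiv.Perm (X r)) (a' (g' (G x))) = g' (G x) :=
          a'.symm_apply_apply _
        rw [Equiv.Perm.mul_apply, Equiv.Perm.mul_apply, k2, hbx']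
      obtain ⟨-, -, -, w, hw, hwx⟩ := htype (a x) ⟨a * b * a'⁻¹,
        mul_mem (mul_mem haD hb) (inv_mem ha'), hy⟩
      obtain ⟨γ', δ', v', -, -, hwe⟩ := isDeck_iff.1 (hw : IsDeck (surf S) w)
      refine ⟨a, haD, ⟨fun i => ?_, ?_⟩, v', ?_⟩
      · rw [hax]
        exact hγ2 i
      · rw [hax]
        exact hdP
      · rw [hsk, hwe] at hwx
        exact congrArg (fun z : X r => z.2.2) hwx
    · intro w
      obtain ⟨b, hb, hbx⟩ := exists_dkT (S := surf S) (γ := fun _ => 1) (fun i => one_mem _)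
        (δ := 1) (one_mem _) w
      have e : ∀ x : X r, b x = (x.1, (x.2.1, fun j => x.2.2 j + (w j : ℝ))) := fun x => by
        rw [hbx]
        exact Prod.ext (funext fun i => one_smul _ _) rfl
      refine ⟨b, mem_stab hb (x := ((κ, Classical.arbitrary Fib.W) : X r)) (EqvS.refl κ) ?_, e⟩
      rw [e]
      exact EqvS.refl κ
  have hle := encard_orbits_le h.lift (M := m * n) h'.pos hG homG h'.deck
    (stab_le (fun i => (N i).flat) κ) hH (m := 1) one_pos
    (by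
      intro a ha z hz haz
      exact mem_stab ha (htype z hz).1 (htype (a z) haz).1)
    (by
      intro b hb
      exact hnd (b * g') (mul_mem hb.1 h'.deck))
    (finite_of_encard_le_coe hcount)
  have e : Conc.perN (Stab (fun i => (N i).flat) κ) T n =
      perPts (Stab (fun i => (N i).flat) κ) (g' ∘ (Φ ^ (m * n) : X r ≃ₜ X r)) 1 := by
    ext x
    have e1 : (T ^ n) x = (g' ∘ (Φ ^ (m * n) : X r ≃ₜ X r))^[1] x := h'.eq x
    constructor
    · rintro ⟨a, ha, hax⟩
      exact ⟨a, ha, by rw [← e1]; exact hax⟩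
    · rintro ⟨a, ha, hax⟩
      exact ⟨a, ha, by rw [e1]; exact hax⟩
  rw [e]
  exact hle.trans hcount

end Pool.Agent.ANO5.Hyp
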