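import Pool.Agent.ANO5.Conc.Main
import Pool.Agent.ANO5.QH.Main
import Pool.Agent.ANO5.Tor.Homeo
import Pool.Agent.ANO5.Hyp.Cpt
import Pool.Agent.ANO5.Hyp.Lower
import Pool.Agent.ANO5.Hyp.Per
import Pool.Agent.ANO5.Hyp.Psi
import Pool.Agent.ANO5.Hyp.Root
import Pool.Agent.ANO5.Hyp.UnipPow
import Pool.Agent.ANO5.Hyp.Upper

/-!
# ANO5, module Hyp: the matrix `A` is hyperbolic

`isHyperbolic`: if the model `(z, y, t) ↦ (f_i z_i, y, A t + τ (z, y))` is homotopic to an Anosov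
map then `A` is hyperbolic.
-/

set_option autoImplicit false

open Set Filter Topology
open scoped UpperHalfPlane MatrixGroups

namespace Pool.Agent.ANO5.Hyp

open Pool.Agent.ANO (IsHyperbolicMatrix)
open Pool.Agent.ANO3 Pool.Agent.ANO3.Cnt
open Pool.Agent.ANO5.A1 Pool.Agent.ANO5.A2 Pool.Agent.ANO5.A3.Grp Pool.Agent.ANO5.Lin
open Pool.Agent.ANO5.Tor (skew IsTwist B)

private theorem isRoot_iff {k : ℕ} (M : Matrix (Fin k) (Fin k) ℂ) (z : ℂ) :
    M.charpoly.IsRoot z ↔ ∃ v : Fin k → ℂ, v ≠ 0 ∧ M.mulVec v = z • v := by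
  rw [Polynomial.IsRoot.def, Matrix.eval_charpoly, ← Matrix.exists_mulVec_eq_zero_iff]
  refine exists_congr fun v => and_congr_right fun _ => ?_
  rw [Matrix.sub_mulVec, sub_eq_zero, Matrix.scalar_apply, ← Matrix.smul_one_eq_diagonal,
    Matrix.smul_mulVec, Matrix.one_mulVec, eq_comm]

/-- The eigenvalues of `A^m`. -/
theorem norm_ne_one_of_pow {k : ℕ} {A : Matrix (Fin k) (Fin k) ℤ} {m : ℕ}
    (h : ∀ z : ℂ, ((A ^ m).map (Int.cast : ℤ → ℂ)).charpoly.IsRoot z → ‖z‖ ≠ 1) (z : ℂ)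
    (hz : (A.map (Int.cast : ℤ → ℂ)).charpoly.IsRoot z) : ‖z‖ ≠ 1 := by
  obtain ⟨v, hv, hvz⟩ := (isRoot_iff _ _).1 hz
  intro h1
  refine h (z ^ m) ((isRoot_iff _ _).2 ⟨v, hv, ?_⟩) (by rw [norm_pow, h1, one_pow])
  have h2 : (A ^ m).map (Int.cast : ℤ → ℂ) = A.map (Int.cast : ℤ → ℂ) ^ m :=
    map_pow (Int.castRingHom ℂ).mapMatrix A m
  rw [h2]
  induction m with
  | zero => rw [pow_zero, pow_zero, Matrix.one_mulVec, one_smul]
  | succ m ih =>
    have h3 : (A.map (Int.cast : ℤ → ℂ) ^ m).mulVec v = z ^ m • v := by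
      clear h h1 h2
      have key : ∀ m : ℕ, (A.map (Int.cast : ℤ → ℂ) ^ m).mulVec v = z ^ m • v := by
        intro m
        induction m with
        | zero => rw [pow_zero, pow_zero, Matrix.one_mulVec, one_smul]
        | succ m ih =>
          rw [pow_succ, ← Matrix.mulVec_mulVec, hvz, Matrix.mulVec_smul, ih, smul_smul, pow_succ']
      exact key m
    rw [pow_succ, ← Matrix.mulVec_mulVec, hvz, Matrix.mulVec_smul, h3, smul_smul, pow_succ']

section

variable [Fib] {r : ℕ} {S : Fin r → SurfaceMap} {F : ∀ i, Flat (S i)}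

/-- A lift which has a fixed point and preserves a type. -/
theorem exists_isFix {T₀ : X r → X r} (h₀ : Continuous T₀)
    (hc : ∀ (x : X r) (i : Fin r), (T₀ x).1 i = (S i).f (x.1 i)) {Φ : X r ≃ₜ X r}
    (hA : IsAnosovLift (surf S) Φ) (hom : Homotopic (surf S) T₀ Φ) :
    ∃ (T : X r ≃ₜ X r) (m : ℕ) (g : Equiv.Perm (X r)) (κ : Fin r → ℍ) (p : X r),
      IsFix F T₀ Φ T m g κ ∧ T p = p ∧ ∀ i, IsPeriodic (S i) (κ i) := by
  obtain ⟨m, hm, g, hg, p, hp⟩ := exists_periodic hA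
  have h1 : ∃ x₀, g (T₀^[m] x₀) = x₀ := by
    by_contra h2
    push Not at h2
    refine no_fix hA hm (h₀.iterate m) ?_ hg h2 p hp
    rw [pow_eq_iterate]
    exact homotopic_iterate hom m
  obtain ⟨x₀, hx₀⟩ := h1
  have hgi : Isometry g := A2.Dyn.IsDeck.isometry hg
  have hgi' : Isometry (g⁻¹ : Equiv.Perm (X r)) := A2.Dyn.IsDeck.isometry (inv_mem hg)
  let G : X r ≃ₜ X r := ⟨g, hgi.continuous, hgi'.continuous⟩
  have hfix : ∀ x : X r, EqvS F x.1 x₀.1 → EqvS F (g (T₀^[m] x)).1 x₀.1 := by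
    intro x hx
    have h2 := (eqvS_deck (F := F) hg (T₀^[m] x) (T₀^[m] x₀)).2 ((eqvS_iter hc m x x₀).2 hx)
    rwa [hx₀] at h2
  have h : IsFix F T₀ Φ ((Φ ^ m : X r ≃ₜ X r).trans G) m g x₀.1 :=
    ⟨hA, hm, hg, h₀, hc, hom, fun x => rfl, hfix⟩
  refine ⟨_, m, g, x₀.1, p, h, hp, fun i => ?_⟩
  exact h.periodic_of_fix (one_mem _) (z := x₀) hx₀ i

end

variable [TFib] {r : ℕ} {S : Fin r → SurfaceMap}

/-- The same, with unipotent action on the stabilisers. -/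
theorem exists_isFix_unip (N : ∀ i, Normal (S i)) {A : Matrix (Fin TFib.k) (Fin TFib.k) ℤ}
    {τ : B r → Fin TFib.k → ℝ} (hτ : IsTwist (surf S) τ) {Φ : X r ≃ₜ X r}
    (hA : IsAnosovLift (surf S) Φ) (hom : Homotopic (surf S) (skew S A τ) Φ) :
    ∃ (T : X r ≃ₜ X r) (m : ℕ) (g : Equiv.Perm (X r)) (κ : Fin r → ℍ) (p : X r),
      IsFix (fun i => (N i).toNormalForm.flat) (skew S A τ) Φ T m g κ ∧ T p = p ∧
      (∀ i, IsPeriodic (S i) (κ i)) ∧
      ∀ (γ : Fin r → SL(2, ℝ)) (δ : Equiv.Perm TFib.base.W) (v : Fin TFib.k → ℤ),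
        (∀ i, γ i ∈ (S i).Γ) → (∀ x, g x = dkT γ δ v x) → ∀ i,
          UnipOn (stabSet (S i).Γ (N i).du (N i).ds (κ i)) (fun z => γ i • (S i).f^[m] z) := by
  obtain ⟨T, m, g, κ, p, h, hp, hper⟩ := exists_isFix (F := fun i => (N i).toNormalForm.flat)
    (T₀ := skew S A τ) (by
      rw [skew_eq]
      exact continuous_sk (fun i => (S i).f.continuous) continuous_id hτ.cont)
    (fun x i => rfl) hA hom
  obtain ⟨γ, δ, v, hγ, hδ, hg⟩ := isDeck_iff.1 h.deck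
  have hgc : ∀ (x : X r) (i : Fin r), (g x).1 i = γ i • x.1 i := fun x i =>
    congrFun (congrArg Prod.fst (congrFun hg x)) i
  have h1 : ∀ i, ∃ q : ℕ, 0 < q ∧ ∀ j : ℕ, 0 < j →
      UnipOn (stabSet (S i).Γ (N i).du (N i).ds (κ i)) (fun z => γ i • (S i).f^[m] z)^[q * j] := by
    intro i
    refine exists_unip (N i) h.pos (hγ i) ?_
    have h2 := h.fix ((κ, Classical.arbitrary Fib.W) : X r) (EqvS.refl κ) i
    rw [hgc, cover_iter h.cover] at h2
    exact ⟨((N i).toNormalForm.flat.isTree_u.symm _ _).trans h2.1,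
      ((N i).toNormalForm.flat.isTree_s.symm _ _).trans h2.2⟩
  choose q hq hu using h1
  have hq0 : 0 < ∏ i, q i := Finset.prod_pos fun i _ => hq i
  obtain ⟨g', h', e3⟩ := h.pow hq0
  refine ⟨T ^ (∏ i, q i), m * ∏ i, q i, g', κ, p, h', ?_, hper, ?_⟩
  · rw [pow_eq_iterate]
    exact Function.iterate_fixed hp _
  · intro γ' δ' v' hγ' hg' i
    have e4 : ∀ (n : ℕ) (x : X r), ((g ∘ (skew S A τ)^[m])^[n] x).1 i =
        (fun z => γ i • (S i).f^[m] z)^[n] (x.1 i) := by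
      intro n
      induction n with
      | zero => exact fun x => rfl
      | succ n ih =>
        intro x
        rw [Function.iterate_succ_apply', Function.iterate_succ_apply', ← ih]
        show (g ((skew S A τ)^[m] _)).1 i = _
        rw [hgc, cover_iter h.cover]
    have e5 : (fun z => γ' i • (S i).f^[m * ∏ i, q i] z) =
        (fun z => γ i • (S i).f^[m] z)^[∏ i, q i] := by
      funext z
      obtain ⟨x, hx⟩ : ∃ x : X r, x.1 i = z := ⟨(fun _ => z, Classical.arbitrary Fib.W), rfl⟩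
      have h5 := congrFun (congrArg Prod.fst (e3 x)) i
      rw [e4, hg'] at h5
      have h6 : (dkT γ' δ' v' ((skew S A τ)^[m * ∏ i, q i] x)).1 i =
          γ' i • ((skew S A τ)^[m * ∏ i, q i] x).1 i := rfl
      rw [h6, cover_iter h.cover, hx] at h5
      exact h5.symm
    rw [e5, ← Finset.mul_prod_erase Finset.univ q (Finset.mem_univ i)]
    exact hu i _ (Finset.prod_pos fun j _ => hq j)

theorem isHyperbolic (N : ∀ i, Normal (S i)) {A : Matrix (Fin TFib.k) (Fin TFib.k) ℤ}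
    {τ : B r → Fin TFib.k → ℝ} (hτ : IsTwist (surf S) τ) {Φ : X r ≃ₜ X r}
    (hA : IsAnosovLift (surf S) Φ) (hom : Homotopic (surf S) (skew S A τ) Φ) :
    IsHyperbolicMatrix A := by
  obtain ⟨T, m, g, κ, p, h, hp, hper, hu⟩ := exists_isFix_unip N hτ hA hom
  have hT : ∀ n : ℕ, (T ^ n) p = p := by
    intro n
    rw [pow_eq_iterate]
    exact Function.iterate_fixed hp n
  have hdet : ∀ n : ℕ, 0 < n → (1 - A ^ (m * n)).det ≠ 0 := by
    intro n hn
    obtain ⟨g', h', -⟩ := h.pow hn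
    refine det_ne_zero (fun i => (N i).toNormalForm) hτ hA hom h'.pos h'.deck (p := p) ?_
    rw [← h'.eq]
    exact hT n
  have hU := Tor.isUnit_det hA hom
  obtain ⟨T₀, hT₀⟩ := Tor.exists_homeo (S := S) hU hτ.cont
  have hs : A3.Setting S T₀ Φ := by
    refine ⟨fun i x => ?_, ?_, ?_⟩
    · rw [hT₀]
      rfl
    · rw [hT₀]
      exact hom
    · exact hA.2.2.2.1
  have hκ : A3.IsType (fun i => (N i).toNormalForm.flat) κ := by
    intro i
    by_cases h1 : κ i ∈ (N i).toNormalForm.flat.U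
    · exact Or.inl ⟨h1, hper i⟩
    · exact Or.inr h1
  obtain ⟨q, ψ, hq, ψm, ψv, ψT, ψr⟩ := exists_psi N hτ h (by
    have h1 := hdet 1 one_pos
    rwa [mul_one] at h1) hu
  obtain ⟨C, hC⟩ := upper (fun i => (N i).toNormalForm) hτ h
  obtain ⟨ρ, hρ, hinj⟩ := exists_inj_deck (surf S)
  obtain ⟨K, hK, hK'⟩ := perN_cocompact hs hκ (T := T) (m := m) (g := g) (by
    rw [hT₀]
    exact h)
  have hexp := A2.Dim.liftOf_exp hA h.pos (T := T) ⟨g, h.deck, h.eq⟩
  have hsh := A2.Dim.liftOf_sh hA h.pos (T := T) ⟨g, h.deck, h.eq⟩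
  obtain ⟨Q, hQ, hconc⟩ := Conc.concat h.norm hexp hsh hρ
    (fun a ha x hx => hinj a ha.1 x hx) hK hK'
  have hZ : ∀ (v : Fin TFib.k → ℤ) (a : Equiv.Perm (X r)), (∀ x, a x = dkT (fun _ => 1) 1 v x) →
      a ∈ Stab (fun i => (N i).toNormalForm.flat) κ := by
    intro v a ha
    have ha' : a ∈ Deck (surf S) :=
      isDeck_iff.2 ⟨_, _, v, fun i => one_mem _, one_mem _, funext ha⟩
    refine mem_stab ha' (x := (κ, Classical.arbitrary Fib.W)) (EqvS.refl κ) ?_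
    rw [ha]
    have e : (dkT (fun _ => 1) 1 v ((κ, Classical.arbitrary Fib.W) : X r)).1 = κ :=
      funext fun i => one_smul _ _
    rw [e]
    exact EqvS.refl κ
  have hlow : ∀ n : ℕ, 0 < n → (((1 - (A ^ m) ^ n).det.natAbs : ℕ) : ℕ∞) ≤
      ((q ^ TFib.k : ℕ) : ℕ∞) * ((fun x => MulAction.orbit
        (Stab (fun i => (N i).toNormalForm.flat) κ) x) ''
          Conc.perN (Stab (fun i => (N i).toNormalForm.flat) κ) T n).encard := by
    intro n hn
    refine lower hA h.pos h.deck h.eq hp (stab_le _ κ) h.norm hZ hq ψm ψv ψT ψr hn ?_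
    rw [← pow_mul]
    exact hdet n hn
  have hup : ∀ n : ℕ, 0 < n → ((fun x => MulAction.orbit
        (Stab (fun i => (N i).toNormalForm.flat) κ) x) ''
          Conc.perN (Stab (fun i => (N i).toNormalForm.flat) κ) T n).encard ≤
      (C * (1 - (A ^ m) ^ n).det.natAbs : ℕ) := by
    intro n hn
    have h1 := hC n hn (hdet n hn)
    rwa [pow_mul] at h1
  have hd : ∀ n : ℕ, 0 < n → (1 - (A ^ m) ^ n).det ≠ 0 := by
    intro n hn
    rw [← pow_mul]
    exact hdet n hn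
  refine ⟨hU, norm_ne_one_of_pow (m := m) (QH.norm_ne_one (A ^ m) hd
    (c := 1 / ((q ^ TFib.k * q ^ TFib.k * Q * C + 1 : ℕ) : ℝ)) (by positivity) ?_)⟩
  intro n hn
  obtain ⟨P, hP⟩ : ∃ P : ℕ, ((fun x => MulAction.orbit
      (Stab (fun i => (N i).toNormalForm.flat) κ) x) ''
        Conc.perN (Stab (fun i => (N i).toNormalForm.flat) κ) T n).encard = P := by
    have h1 := hup n hn
    exact ENat.ne_top_iff_exists.1 (ne_top_of_le_ne_top (ENat.coe_ne_top _) h1) |>.imp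
      fun _ h => h.symm
  obtain ⟨P', hP'⟩ : ∃ P : ℕ, ((fun x => MulAction.orbit
      (Stab (fun i => (N i).toNormalForm.flat) κ) x) ''
        Conc.perN (Stab (fun i => (N i).toNormalForm.flat) κ) T (2 * n)).encard = P := by
    have h1 := hup (2 * n) (by omega)
    exact ENat.ne_top_iff_exists.1 (ne_top_of_le_ne_top (ENat.coe_ne_top _) h1) |>.imp
      fun _ h => h.symm
  have h1 := hlow n hn
  have h2 := hup (2 * n) (by omega)
  have h3 := hconc n hn
  rw [hP] at h1 h3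
  rw [hP'] at h2 h3
  have h1' : (1 - (A ^ m) ^ n).det.natAbs ≤ q ^ TFib.k * P := by exact_mod_cast h1
  have h2' : P' ≤ C * (1 - (A ^ m) ^ (2 * n)).det.natAbs := by exact_mod_cast h2
  have h3' : P * P ≤ Q * P' := by exact_mod_cast h3
  have h4 : (1 - (A ^ m) ^ n).det.natAbs * (1 - (A ^ m) ^ n).det.natAbs ≤
      (q ^ TFib.k * q ^ TFib.k * Q * C) * (1 - (A ^ m) ^ (2 * n)).det.natAbs := by
    calc _ ≤ (q ^ TFib.k * P) * (q ^ TFib.k * P) := Nat.mul_le_mul h1' h1'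
      _ = q ^ TFib.k * q ^ TFib.k * (P * P) := by ring
      _ ≤ q ^ TFib.k * q ^ TFib.k * (Q * P') := Nat.mul_le_mul_left _ h3'
      _ ≤ q ^ TFib.k * q ^ TFib.k * (Q * (C * (1 - (A ^ m) ^ (2 * n)).det.natAbs)) :=
        Nat.mul_le_mul_left _ (Nat.mul_le_mul_left _ h2')
      _ = _ := by ring
  have e1 : |(((1 - (A ^ m) ^ n).det : ℤ) : ℝ)| = ((1 - (A ^ m) ^ n).det.natAbs : ℝ) := by
    rw [← Int.cast_abs, Int.abs_eq_natAbs, Int.cast_natCast]
  have e2 : |(((1 - (A ^ m) ^ (2 * n)).det : ℤ) : ℝ)| =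
      ((1 - (A ^ m) ^ (2 * n)).det.natAbs : ℝ) := by
    rw [← Int.cast_abs, Int.abs_eq_natAbs, Int.cast_natCast]
  rw [e1, e2, one_div, inv_mul_le_iff₀ (by positivity), sq]
  have h5 : (1 - (A ^ m) ^ n).det.natAbs * (1 - (A ^ m) ^ n).det.natAbs ≤
      (q ^ TFib.k * q ^ TFib.k * Q * C + 1) * (1 - (A ^ m) ^ (2 * n)).det.natAbs := by
    rw [Nat.add_mul]
    exact h4.trans (Nat.le_add_right _ _)
  exact_mod_cast h5

end Pool.Agent.ANO5.Hyp
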